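import Mathlib

open Finset

set_option linter.unusedSectionVars false

namespace Pool.Agent.H41.IndSum

variable {ι : Type*} [DecidableEq ι]

/-- `i` is below and to the left of `j`. -/
def ltt (x y : ι → ℤ) (i j : ι) : Prop := x i < x j ∧ y i < y j

/-- `i` is above and to the left of `j`. -/
def nw (x y : ι → ℤ) (i j : ι) : Prop := x i < x j ∧ y j < y i

/-- `i` and `j` form an inversion. -/
def adj (x y : ι → ℤ) (i j : ι) : Prop := nw x y i j ∨ nw x y j i

/-- Connectedness of the inversion graph on `S`. -/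
def Conn (x y : ι → ℤ) (S : Finset ι) : Prop :=
  ∀ A ⊆ S, A.Nonempty → A ≠ S → ∃ a ∈ A, ∃ b ∈ S, b ∉ A ∧ adj x y a b

section basic

variable {x y : ι → ℤ}

theorem adj.symm {i j : ι} (h : adj x y i j) : adj x y j i := Or.symm h

theorem adj_comm {i j : ι} : adj x y i j ↔ adj x y j i := ⟨adj.symm, adj.symm⟩

theorem adj_swap {i j : ι} : adj y x i j ↔ adj x y i j := by
  unfold adj nw; tauto

theorem nw_swap {i j : ι} : nw y x i j ↔ nw x y j i := by
  unfold nw; tauto

theorem ltt_swap {i j : ι} : ltt y x i j ↔ ltt x y i j := by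
  unfold ltt; tauto

theorem nw_neg {i j : ι} : nw (-x) (-y) i j ↔ nw x y j i := by
  unfold nw; simp only [Pi.neg_apply, neg_lt_neg_iff]

theorem ltt_neg {i j : ι} : ltt (-x) (-y) i j ↔ ltt x y j i := by
  unfold ltt; simp only [Pi.neg_apply, neg_lt_neg_iff]

theorem adj_neg {i j : ι} : adj (-x) (-y) i j ↔ adj x y i j := by
  unfold adj; rw [nw_neg, nw_neg]; tauto

theorem Conn_swap {S : Finset ι} : Conn y x S ↔ Conn x y S := by
  unfold Conn; simp only [adj_swap]

theorem Conn_neg {S : Finset ι} : Conn (-x) (-y) S ↔ Conn x y S := by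
  unfold Conn; simp only [adj_neg]

theorem tetra (hx : Function.Injective x) (hy : Function.Injective y) {i j : ι} (h : i ≠ j) :
    ltt x y i j ∨ ltt x y j i ∨ nw x y i j ∨ nw x y j i := by
  unfold ltt nw
  rcases lt_or_gt_of_ne (fun e => h (hx e)) with h1 | h1 <;>
    rcases lt_or_gt_of_ne (fun e => h (hy e)) with h2 | h2 <;> tauto

theorem ltt.trans {i j k : ι} (h : ltt x y i j) (h' : ltt x y j k) : ltt x y i k :=
  ⟨h.1.trans h'.1, h.2.trans h'.2⟩

theorem nw.trans {i j k : ι} (h : nw x y i j) (h' : nw x y j k) : nw x y i k :=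
  ⟨h.1.trans h'.1, h'.2.trans h.2⟩

theorem ltt.not_adj {i j : ι} (h : ltt x y i j) : ¬ adj x y i j := by
  rintro (h' | h')
  · exact absurd h.2 (not_lt.2 h'.2.le)
  · exact absurd h.1 (not_lt.2 h'.1.le)

theorem ltt.not_adj' {i j : ι} (h : ltt x y i j) : ¬ adj x y j i := fun h' => h.not_adj h'.symm

theorem adj.ne {i j : ι} (h : adj x y i j) : i ≠ j := by
  rintro rfl
  rcases h with h | h <;> exact lt_irrefl _ h.1

theorem ltt.ne {i j : ι} (h : ltt x y i j) : i ≠ j := by
  rintro rfl
  exact lt_irrefl _ h.1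

theorem adj_or_ltt (hx : Function.Injective x) (hy : Function.Injective y) {i j : ι} (h : i ≠ j) :
    adj x y i j ∨ ltt x y i j ∨ ltt x y j i := by
  unfold adj
  rcases tetra hx hy h with h | h | h | h <;> tauto

/-! ### connected sets -/

theorem conn_singleton (i : ι) : Conn x y {i} := by
  intro A hA hne hA'
  exact absurd ((Finset.subset_singleton_iff.1 hA).resolve_left hne.ne_empty) hA'

/-- if each element of `S` lies together with `h` in a connected subset of `S`, then `S` is connected -/
theorem conn_of_cover {S : Finset ι} {h : ι}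
    (hc : ∀ z ∈ S, ∃ T ⊆ S, Conn x y T ∧ h ∈ T ∧ z ∈ T) : Conn x y S := by
  intro A hA hne hA'
  by_cases hh : h ∈ A
  · obtain ⟨z, hz, hzA⟩ : ∃ z ∈ S, z ∉ A := by
      by_contra hcon
      push Not at hcon
      exact hA' (Finset.Subset.antisymm hA hcon)
    obtain ⟨T, hT, hTc, hhT, hzT⟩ := hc z hz
    obtain ⟨a, ha, b, hb, hbA, hab⟩ := hTc (A ∩ T) Finset.inter_subset_right
      ⟨h, Finset.mem_inter.2 ⟨hh, hhT⟩⟩ (fun e => hzA (Finset.mem_inter.1 (e.symm ▸ hzT)).1)
    refine ⟨a, (Finset.mem_inter.1 ha).1, b, hT hb, fun hbA' => hbA (Finset.mem_inter.2 ⟨hbA', hb⟩), hab⟩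
  · obtain ⟨z, hzA⟩ := hne
    obtain ⟨T, hT, hTc, hhT, hzT⟩ := hc z (hA hzA)
    obtain ⟨a, ha, b, hb, hbA, hab⟩ := hTc (A ∩ T) Finset.inter_subset_right
      ⟨z, Finset.mem_inter.2 ⟨hzA, hzT⟩⟩ (fun e => hh (Finset.mem_inter.1 (e.symm ▸ hhT)).1)
    refine ⟨a, (Finset.mem_inter.1 ha).1, b, hT hb, fun hbA' => hbA (Finset.mem_inter.2 ⟨hbA', hb⟩), hab⟩

theorem conn_insert {T : Finset ι} (hT : Conn x y T) {a b : ι} (ha : a ∈ T) (hab : adj x y a b) :
    Conn x y (insert b T) := by
  intro A hA hne hA'
  by_cases hb : b ∈ A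
  · by_cases haA : a ∈ A
    · by_cases hTA : T ⊆ A
      · exact absurd (Finset.Subset.antisymm hA (Finset.insert_subset hb hTA)) hA'
      · obtain ⟨c, hc, d, hd, hdA, hcd⟩ := hT (A ∩ T) Finset.inter_subset_right
          ⟨a, Finset.mem_inter.2 ⟨haA, ha⟩⟩ (fun e => hTA (fun z hz => (Finset.mem_inter.1 (e.symm ▸ hz)).1))
        exact ⟨c, (Finset.mem_inter.1 hc).1, d, Finset.mem_insert_of_mem hd,
          fun h => hdA (Finset.mem_inter.2 ⟨h, hd⟩), hcd⟩
    · exact ⟨b, hb, a, Finset.mem_insert_of_mem ha, haA, hab.symm⟩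
  · have hAT : A ⊆ T := fun z hz => (Finset.mem_insert.1 (hA hz)).resolve_left (fun e => hb (e ▸ hz))
    by_cases haA : a ∈ A
    · exact ⟨a, haA, b, Finset.mem_insert_self _ _, hb, hab⟩
    · obtain ⟨c, hc, d, hd, hdA, hcd⟩ := hT A hAT hne (fun e => haA (e.symm ▸ ha))
      exact ⟨c, hc, d, Finset.mem_insert_of_mem hd, hdA, hcd⟩

theorem conn_pair {a b : ι} (hab : adj x y a b) : Conn x y {b, a} :=
  conn_insert (conn_singleton a) (Finset.mem_singleton_self a) hab

theorem conn_union {T K : Finset ι} (hT : Conn x y T) {a : ι} (ha : a ∈ T)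
    (hK : ∀ k ∈ K, adj x y a k) : Conn x y (T ∪ K) := by
  apply conn_of_cover (h := a)
  intro z hz
  rcases Finset.mem_union.1 hz with hz | hz
  · exact ⟨T, Finset.subset_union_left, hT, ha, hz⟩
  · refine ⟨{z, a}, ?_, conn_pair (hK z hz), by simp, by simp⟩
    intro w hw
    rcases Finset.mem_insert.1 hw with rfl | hw
    · exact Finset.mem_union_right _ hz
    · rw [Finset.mem_singleton.1 hw]; exact Finset.mem_union_left _ ha

theorem conn_star {K : Finset ι} {a : ι} (hK : ∀ k ∈ K, adj x y a k) : Conn x y ({a} ∪ K) :=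
  conn_union (conn_singleton a) (Finset.mem_singleton_self a) hK

theorem conn_biUnion {S T : Finset ι} {h : ι} (hS : Conn x y S) (hT : Conn x y T) (h1 : h ∈ S)
    (h2 : h ∈ T) : Conn x y (S ∪ T) := by
  apply conn_of_cover (h := h)
  intro z hz
  rcases Finset.mem_union.1 hz with hz | hz
  · exact ⟨S, Finset.subset_union_left, hS, h1, hz⟩
  · exact ⟨T, Finset.subset_union_right, hT, h2, hz⟩

/-- connected sets contain connected sets of all smaller sizes through a given point -/
theorem grow {S : Finset ι} (hS : Conn x y S) {h : ι} (hh : h ∈ S) :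
    ∀ m : ℕ, 1 ≤ m → m ≤ S.card → ∃ T ⊆ S, h ∈ T ∧ Conn x y T ∧ T.card = m := by
  intro m hm
  induction m, hm using Nat.le_induction with
  | base =>
    intro _
    exact ⟨{h}, Finset.singleton_subset_iff.2 hh, Finset.mem_singleton_self h, conn_singleton h,
      Finset.card_singleton h⟩
  | succ m hm ih =>
    intro hmS
    obtain ⟨T, hTS, hhT, hTc, hTm⟩ := ih (by omega)
    have hne : T ≠ S := by rintro rfl; omega
    obtain ⟨a, ha, b, hb, hbT, hab⟩ := hS T hTS ⟨h, hhT⟩ hne
    refine ⟨insert b T, Finset.insert_subset hb hTS, Finset.mem_insert_of_mem hhT,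
      conn_insert hTc ha hab, ?_⟩
    rw [Finset.card_insert_of_notMem hbT, hTm]

/-- Bounding a part `Y` of a connected structure which is attached to the rest only through `H`. -/
theorem attach_bound [Fintype ι] (hX : Conn x y univ) (Y H : Finset ι) (hYne : Y ≠ univ)
    (hYH : ∀ z ∈ Y, ∀ b, b ∉ Y → adj x y z b → b ∈ H) (m : ℕ)
    (hm : ∀ h ∈ H, h ∉ Y → ∀ T : Finset ι, T ⊆ insert h Y → h ∈ T → Conn x y T → T.card ≤ m + 1) :
    Y.card ≤ H.card * m := by
  classical
  -- the part of `Y` attached to `h`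
  let C : ι → Finset ι := fun h => Y.filter (fun z => h ∉ Y ∧ ∃ T : Finset ι, T ⊆ insert h Y ∧ h ∈ T ∧ z ∈ T ∧ Conn x y T)
  have hC : ∀ h ∈ H, (C h).card ≤ m := by
    intro h hh
    by_cases hhY : h ∈ Y
    · have : C h = ∅ := by
        apply Finset.filter_eq_empty_iff.2
        intro z _ hz
        exact hz.1 hhY
      rw [this]; simp
    · have hcon : Conn x y (insert h (C h)) := by
        apply conn_of_cover (h := h)
        intro z hz
        rcases Finset.mem_insert.1 hz with rfl | hz
        · exact ⟨{z}, by simp, conn_singleton z, by simp, by simp⟩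
        · obtain ⟨hzY, _, T, hT, hhT, hzT, hTc⟩ := Finset.mem_filter.1 hz
          refine ⟨T, ?_, hTc, hhT, hzT⟩
          intro w hw
          rcases Finset.mem_insert.1 (hT hw) with rfl | hwY
          · exact Finset.mem_insert_self _ _
          · exact Finset.mem_insert_of_mem (Finset.mem_filter.2 ⟨hwY, hhY, T, hT, hhT, hw, hTc⟩)
      have h1 := hm h hh hhY (insert h (C h))
        (Finset.insert_subset_insert _ (Finset.filter_subset _ _)) (Finset.mem_insert_self _ _) hcon
      have h2 : h ∉ C h := fun hc => hhY (Finset.mem_filter.1 hc).1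
      rw [Finset.card_insert_of_notMem h2] at h1
      omega
  have hcov : Y ⊆ H.biUnion C := by
    intro z hz
    -- the component of `z` in `Y`
    let Z : Finset ι := Y.filter (fun w => ∃ T : Finset ι, T ⊆ Y ∧ z ∈ T ∧ w ∈ T ∧ Conn x y T)
    have hzZ : z ∈ Z := Finset.mem_filter.2 ⟨hz, {z}, by simpa using hz, by simp, by simp, conn_singleton z⟩
    have hZ : Z ≠ univ := by
      intro e
      apply hYne
      apply Finset.eq_univ_iff_forall.2
      intro w
      exact (Finset.mem_filter.1 (e.symm ▸ Finset.mem_univ w : w ∈ Z)).1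
    obtain ⟨a, ha, b, _, hbZ, hab⟩ := hX Z (Finset.subset_univ _) ⟨z, hzZ⟩ hZ
    obtain ⟨haY, T, hT, hzT, haT, hTc⟩ := Finset.mem_filter.1 ha
    have hbY : b ∉ Y := by
      intro hbY
      apply hbZ
      refine Finset.mem_filter.2 ⟨hbY, insert b T, Finset.insert_subset hbY hT,
        Finset.mem_insert_of_mem hzT, Finset.mem_insert_self _ _, conn_insert hTc haT hab⟩
    have hbH : b ∈ H := hYH a haY b hbY hab
    refine Finset.mem_biUnion.2 ⟨b, hbH, Finset.mem_filter.2 ⟨hz, hbY, insert b T,
      Finset.insert_subset_insert _ hT, Finset.mem_insert_self _ _, Finset.mem_insert_of_mem hzT,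
      conn_insert hTc haT hab⟩⟩
  calc Y.card ≤ (H.biUnion C).card := Finset.card_le_card hcov
    _ ≤ H.card * m := Finset.card_biUnion_le_card_mul _ _ _ hC

/-! ### chains and cliques -/

/-- pairwise adjacent -/
def Clique (x y : ι → ℤ) (D : Finset ι) : Prop := ∀ i ∈ D, ∀ j ∈ D, i ≠ j → adj x y i j

/-- pairwise non-adjacent -/
def Chain (x y : ι → ℤ) (D : Finset ι) : Prop := ∀ i ∈ D, ∀ j ∈ D, i ≠ j → ltt x y i j ∨ ltt x y j i

theorem Clique.subset {D D' : Finset ι} (h : Clique x y D) (hs : D' ⊆ D) : Clique x y D' :=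
  fun i hi j hj => h i (hs hi) j (hs hj)

theorem Chain.subset {D D' : Finset ι} (h : Chain x y D) (hs : D' ⊆ D) : Chain x y D' :=
  fun i hi j hj => h i (hs hi) j (hs hj)

theorem Clique_swap {D : Finset ι} : Clique y x D ↔ Clique x y D := by
  unfold Clique; simp only [adj_swap]

theorem Clique_neg {D : Finset ι} : Clique (-x) (-y) D ↔ Clique x y D := by
  unfold Clique; simp only [adj_neg]

theorem Chain_swap {D : Finset ι} : Chain y x D ↔ Chain x y D := by
  unfold Chain; simp only [ltt_swap]

theorem Chain_neg {D : Finset ι} : Chain (-x) (-y) D ↔ Chain x y D := by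
  unfold Chain; simp only [ltt_neg]
  constructor <;> intro h i hi j hj hij <;> exact (h i hi j hj hij).symm

theorem erdos_szekeres (hx : Function.Injective x) (hy : Function.Injective y) :
    ∀ (a b : ℕ) (Y : Finset ι), (∀ C ⊆ Y, Chain x y C → C.card ≤ a) →
      (∀ D ⊆ Y, Clique x y D → D.card ≤ b) → Y.card ≤ a * b := by
  classical
  intro a b
  induction a with
  | zero =>
    intro Y hC _
    have : Y = ∅ := by
      by_contra hne
      obtain ⟨z, hz⟩ := Finset.nonempty_iff_ne_empty.2 hne
      have := hC {z} (by simpa using hz) (by intro i hi j hj hij; simp at hi hj; exact absurd (hi.trans hj.symm) hij)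
      simp at this
    simp [this]
  | succ a ih =>
    intro Y hC hD
    let M := Y.filter (fun z => ∀ w ∈ Y, ¬ ltt x y w z)
    have hM : M.card ≤ b := by
      apply hD M (Finset.filter_subset _ _)
      intro i hi j hj hij
      obtain ⟨hiY, hi'⟩ := Finset.mem_filter.1 hi
      obtain ⟨hjY, hj'⟩ := Finset.mem_filter.1 hj
      rcases adj_or_ltt hx hy hij with h | h | h
      · exact h
      · exact absurd h (hj' i hiY)
      · exact absurd h (hi' j hjY)
    have hY : (Y \ M).card ≤ a * b := by
      apply ih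
      · intro C hCs hCc
        rcases C.eq_empty_or_nonempty with rfl | hne
        · simp
        · obtain ⟨c, hc, hcmin⟩ := Finset.exists_min_image C x hne
          have hcY := Finset.mem_sdiff.1 (hCs hc)
          have : ∃ z ∈ Y, ltt x y z c := by
            by_contra hcon
            push Not at hcon
            exact hcY.2 (Finset.mem_filter.2 ⟨hcY.1, hcon⟩)
          obtain ⟨z, hz, hzc⟩ := this
          have hlt : ∀ d ∈ C, ltt x y z d := by
            intro d hd
            by_cases hdc : d = c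
            · rwa [hdc]
            · rcases hCc d hd c hc hdc with h | h
              · exact absurd h.1 (not_lt.2 (hcmin d hd))
              · exact hzc.trans h
          have hzC : z ∉ C := fun h => (hlt z h).ne rfl
          have h1 := hC (insert z C) (Finset.insert_subset hz (hCs.trans Finset.sdiff_subset)) (by
            intro i hi j hj hij
            rcases Finset.mem_insert.1 hi with hi' | hi'
            · rcases Finset.mem_insert.1 hj with hj' | hj'
              · exact absurd (hi'.trans hj'.symm) hij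
              · rw [hi']; exact Or.inl (hlt j hj')
            · rcases Finset.mem_insert.1 hj with hj' | hj'
              · rw [hj']; exact Or.inr (hlt i hi')
              · exact hCc i hi' j hj' hij)
          rw [Finset.card_insert_of_notMem hzC] at h1
          omega
      · intro D hDs hDc
        exact hD D (hDs.trans Finset.sdiff_subset) hDc
    have h2 : Y.card = (Y \ M).card + M.card := by
      rw [Finset.card_sdiff_add_card_eq_card (Finset.filter_subset _ _)]
    rw [h2, Nat.succ_mul]
    omega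

end basic

end Pool.Agent.H41.IndSum
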