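import Pool.Agent.H41.IndSum.Many

open Finset

set_option linter.unusedSectionVars false

namespace Pool.Agent.H41.IndSum

variable {ι : Type*} [DecidableEq ι] {x y : ι → ℤ}

theorem nw.ne {i j : ι} (h : nw x y i j) : i ≠ j := by
  rintro rfl; exact lt_irrefl _ h.1

theorem nw.adj {i j : ι} (h : nw x y i j) : adj x y i j := Or.inl h

theorem nw.adj' {i j : ι} (h : nw x y i j) : IndSum.adj x y j i := Or.inr h

/-- an increasing sequence to the upper left of an arbitrary set -/
theorem many_chain_nw {n : ℕ} (hn : 2 ≤ n) (hx : Function.Injective x) {K' J' : Finset ι}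
    (hK : Chain x y K') (hKJ : ∀ k ∈ K', ∀ j ∈ J', nw x y k j) (h1 : n - 1 ≤ K'.card)
    (h2 : n - 1 ≤ J'.card) : Many x y n := by
  apply many_first hx (fun k => n - 1 - k) (fun k hk l hl h => by omega)
  intro k hk
  obtain ⟨K, hKs, hKc⟩ := Finset.exists_subset_card_eq (show k + 1 ≤ K'.card by omega)
  obtain ⟨J, hJs, hJc⟩ := Finset.exists_subset_card_eq (show n - 1 - k ≤ J'.card by omega)
  have hKne : K.Nonempty := by rw [← Finset.card_pos]; omega
  have hJne : J.Nonempty := by rw [← Finset.card_pos]; omega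
  obtain ⟨r, hr, hrmin⟩ := Finset.exists_min_image K x hKne
  obtain ⟨j0, hj0⟩ := hJne
  have hdis : Disjoint K J := by
    rw [Finset.disjoint_left]
    intro a ha ha'
    exact (hKJ a (hKs ha) a (hJs ha')).ne rfl
  refine ⟨K ∪ J, ?_, ?_, r, Finset.mem_union_left _ hr, ?_, ?_⟩
  · rw [Finset.card_union_of_disjoint hdis]; omega
  · have h3 : Conn x y ({j0} ∪ K) := conn_star (fun k hk => (hKJ k (hKs hk) j0 (hJs hj0)).adj')
    have h4 : Conn x y (({j0} ∪ K) ∪ J) :=
      conn_union h3 (a := r) (Finset.mem_union_right _ hr) (fun j hj => (hKJ r (hKs hr) j (hJs hj)).adj)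
    have : ({j0} ∪ K) ∪ J = K ∪ J := by
      ext z; simp only [Finset.mem_union, Finset.mem_singleton]
      constructor
      · rintro ((rfl | h) | h)
        · exact Or.inr hj0
        · exact Or.inl h
        · exact Or.inr h
      · rintro (h | h)
        · exact Or.inl (Or.inr h)
        · exact Or.inr h
    rwa [this] at h4
  · intro j hj
    rcases Finset.mem_union.1 hj with hj | hj
    · exact not_lt.2 (hrmin j hj)
    · exact not_lt.2 (hKJ r (hKs hr) j (hJs hj)).1.le
  · have : (K ∪ J).filter (fun j => y j < y r) = J := by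
      ext z; simp only [Finset.mem_filter, Finset.mem_union]
      constructor
      · rintro ⟨h | h, h'⟩
        · exfalso
          by_cases hzr : z = r
          · rw [hzr] at h'; exact lt_irrefl _ h'
          · rcases hK z (hKs h) r (hKs hr) hzr with h3 | h3
            · exact absurd h3.1 (not_lt.2 (hrmin z h))
            · exact absurd h3.2 (not_lt.2 h'.le)
        · exact h
      · intro h
        exact ⟨Or.inr h, (hKJ r (hKs hr) z (hJs h)).2⟩
    rw [this]; exact hJc

theorem many_chain_se {n : ℕ} (hn : 2 ≤ n) (hy : Function.Injective y) {K' J' : Finset ι}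
    (hK : Chain x y K') (hKJ : ∀ k ∈ K', ∀ j ∈ J', nw x y j k) (h1 : n - 1 ≤ K'.card)
    (h2 : n - 1 ≤ J'.card) : Many x y n :=
  Many_swap (many_chain_nw hn hy (Chain_swap.2 hK) (fun k hk j hj => nw_swap.2 (hKJ k hk j hj)) h1 h2)

/-- a connected set attached to a decreasing sequence -/
theorem many_attach_clique {n : ℕ} (hx : Function.Injective x) {K' T0 : Finset ι}
    {h : ι} (hK : Clique x y K') (hT : Conn x y T0) (hh : h ∈ T0)
    (hTK : ∀ t ∈ T0, t ≠ h → ∀ k ∈ K', ltt x y t k) (hhK : ∀ k ∈ K', nw x y h k)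
    (h1 : n - 1 ≤ K'.card) (h2 : n - 1 ≤ T0.card) : Many x y n := by
  apply many_last hx 0 (fun k => n - 2 - k) (fun k hk l hl h => by omega)
  intro k hk
  obtain ⟨K, hKs, hKc⟩ := Finset.exists_subset_card_eq (show k + 1 ≤ K'.card by omega)
  obtain ⟨T, hTs, hhT, hTc, hTn⟩ := grow hT hh (n - 1 - k) (by omega) (by omega)
  have hKne : K.Nonempty := by rw [← Finset.card_pos]; omega
  obtain ⟨r, hr, hrmax⟩ := Finset.exists_max_image K x hKne
  have hdis : Disjoint T K := by
    rw [Finset.disjoint_left]
    intro a ha ha'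
    by_cases hah : a = h
    · rw [hah] at ha'; exact (hhK h (hKs ha')).ne rfl
    · exact (hTK a (hTs ha) hah a (hKs ha')).ne rfl
  refine ⟨T ∪ K, ?_, ?_, r, Finset.mem_union_right _ hr, ?_, ?_⟩
  · rw [Finset.card_union_of_disjoint hdis]; omega
  · exact conn_union hTc hhT (fun k hk => (hhK k (hKs hk)).adj)
  · rw [Finset.card_eq_zero, Finset.filter_eq_empty_iff]
    intro j hj
    rcases Finset.mem_union.1 hj with hj | hj
    · by_cases hjh : j = h
      · rw [hjh]; exact not_lt.2 (hhK r (hKs hr)).1.le
      · exact not_lt.2 (hTK j (hTs hj) hjh r (hKs hr)).1.le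
    · exact not_lt.2 (hrmax j hj)
  · have : (T ∪ K).filter (fun j => y j < y r) = T.erase h := by
      ext z; simp only [Finset.mem_filter, Finset.mem_union, Finset.mem_erase]
      constructor
      · rintro ⟨hz | hz, h'⟩
        · refine ⟨?_, hz⟩
          rintro rfl
          exact absurd (hhK r (hKs hr)).2 (not_lt.2 h'.le)
        · exfalso
          by_cases hzr : z = r
          · rw [hzr] at h'; exact lt_irrefl _ h'
          · rcases hK z (hKs hz) r (hKs hr) hzr with h3 | h3
            · exact absurd h3.2 (not_lt.2 h'.le)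
            · exact absurd h3.1 (not_lt.2 (hrmax z hz))
      · rintro ⟨hzh, hz⟩
        exact ⟨Or.inl hz, (hTK z (hTs hz) hzh r (hKs hr)).2⟩
    rw [this, Finset.card_erase_of_mem hhT]; omega

/-- two comparable points in the middle of a decreasing sequence -/
theorem many_split_clique {n : ℕ} (hn : 3 ≤ n) (hx : Function.Injective x) {A' C' : Finset ι}
    {z w : ι} (hzw : ltt x y z w) (hA : Clique x y A') (hC : Clique x y C')
    (hAz : ∀ a ∈ A', nw x y a z) (hAw : ∀ a ∈ A', nw x y a w)
    (hCz : ∀ c ∈ C', nw x y z c) (hCw : ∀ c ∈ C', nw x y w c)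
    (h1 : n - 2 ≤ A'.card) (h2 : n - 2 ≤ C'.card) : Many x y n := by
  apply many_of (fun k S => ∃ z ∈ S, (∃ j ∈ S, ltt x y z j) ∧
    (∀ z' ∈ S, (∃ j ∈ S, ltt x y z' j) → z' = z) ∧ (S.filter (fun j => x j < x z)).card = k)
  · intro k hk
    obtain ⟨A, hAs, hAc⟩ := Finset.exists_subset_card_eq (show k ≤ A'.card by omega)
    obtain ⟨C, hCs, hCc⟩ := Finset.exists_subset_card_eq (show n - 2 - k ≤ C'.card by omega)
    have hAC : ∀ a ∈ A, ∀ c ∈ C, nw x y a c := fun a ha c hc => (hAz a (hAs ha)).trans (hCz c (hCs hc))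
    have hdis : Disjoint A C := by
      rw [Finset.disjoint_left]
      intro a ha ha'
      exact (hAC a ha a ha').ne rfl
    have hzS : z ∉ A ∪ C := by
      intro h
      rcases Finset.mem_union.1 h with h | h
      · exact (hAz z (hAs h)).ne rfl
      · exact (hCz z (hCs h)).ne rfl
    have hwS : w ∉ insert z (A ∪ C) := by
      intro h
      rcases Finset.mem_insert.1 h with h | h
      · exact hzw.ne h.symm
      · rcases Finset.mem_union.1 h with h | h
        · exact (hAw w (hAs h)).ne rfl
        · exact (hCw w (hCs h)).ne rfl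
    -- all pairs but `z`, `w` are adjacent
    have hmem : ∀ i, i ∈ insert w (insert z (A ∪ C)) ↔ i = w ∨ i = z ∨ i ∈ A ∨ i ∈ C := by
      intro i; simp only [Finset.mem_insert, Finset.mem_union]
    have hadj : ∀ d ∈ A ∪ C, ∀ i ∈ insert w (insert z (A ∪ C)), i ≠ d → adj x y d i := by
      intro d hd i hi hid
      rw [hmem] at hi
      rcases Finset.mem_union.1 hd with hd | hd
      · rcases hi with rfl | rfl | hi | hi
        · exact (hAw d (hAs hd)).adj
        · exact (hAz d (hAs hd)).adj
        · exact hA d (hAs hd) i (hAs hi) hid.symm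
        · exact (hAC d hd i hi).adj
      · rcases hi with rfl | rfl | hi | hi
        · exact (hCw d (hCs hd)).adj'
        · exact (hCz d (hCs hd)).adj'
        · exact (hAC i hi d hd).adj'
        · exact hC d (hCs hd) i (hCs hi) hid.symm
    refine ⟨insert w (insert z (A ∪ C)), ?_, ?_, z, by simp, ⟨w, by simp, hzw⟩, ?_, ?_⟩
    · rw [Finset.card_insert_of_notMem hwS, Finset.card_insert_of_notMem hzS,
        Finset.card_union_of_disjoint hdis]; omega
    · have hne : (A ∪ C).Nonempty := by
        rw [← Finset.card_pos, Finset.card_union_of_disjoint hdis]; omega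
      obtain ⟨d, hd⟩ := hne
      have h3 : Conn x y ({d} ∪ (insert w (insert z (A ∪ C))).erase d) := by
        apply conn_star
        intro i hi
        exact hadj d hd i (Finset.mem_of_mem_erase hi) (Finset.ne_of_mem_erase hi)
      have h4 : ({d} ∪ (insert w (insert z (A ∪ C))).erase d) = insert w (insert z (A ∪ C)) := by
        rw [← Finset.insert_eq]
        apply Finset.insert_erase
        exact Finset.mem_insert_of_mem (Finset.mem_insert_of_mem hd)
      rwa [h4] at h3
    · rintro z' hz' ⟨j, hj, hlt⟩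
      by_contra hne
      have hz'2 := (hmem z').1 hz'
      have hj2 := (hmem j).1 hj
      by_cases h5 : z' ∈ A ∪ C
      · exact hlt.not_adj (hadj z' h5 j hj hlt.ne.symm)
      · by_cases h6 : j ∈ A ∪ C
        · exact hlt.not_adj' (hadj j h6 z' hz' hlt.ne)
        · simp only [Finset.mem_union, not_or] at h5 h6
          have hz'3 : z' = w := by tauto
          have hj3 : j = z ∨ j = w := by tauto
          rcases hj3 with rfl | rfl
          · rw [hz'3] at hlt; exact absurd hlt.1 (not_lt.2 hzw.1.le)
          · exact hlt.ne hz'3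
    · have : (insert w (insert z (A ∪ C))).filter (fun j => x j < x z) = A := by
        ext i; rw [Finset.mem_filter, hmem]
        constructor
        · rintro ⟨rfl | rfl | h | h, h'⟩
          · exact absurd hzw.1 (not_lt.2 h'.le)
          · exact absurd h' (lt_irrefl _)
          · exact h
          · exact absurd (hCz i (hCs h)).1 (not_lt.2 h'.le)
        · intro h
          exact ⟨Or.inr (Or.inr (Or.inl h)), (hAz i (hAs h)).1⟩
      rw [this, hAc]
  · rintro k hk l hl S S' e ⟨z, hz, ⟨j, hj, hzj⟩, _, h3⟩ ⟨z', hz', _, h5, h6⟩ he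
    have h7 : e z = z' := h5 _ (he.maps z hz) ⟨e j, he.maps j hj, (he.ltt_iff hz hj).1 hzj⟩
    rw [← h3, ← h6, he.card_rel hx (fun j i => x j < x i) he.presx hz, h7]

/-- number of the pairs of `S` in the relation `r` -/
noncomputable def cnt (r : ι → ι → Prop) (S : Finset ι) : ℕ := by
  classical
  exact ∑ i ∈ S, ∑ j ∈ S, if r i j then 1 else 0

theorem IsoVia.cnt (hx : Function.Injective x) {e : ι → ι} {S S' : Finset ι}
    (h : IsoVia x y e S S') (r : ι → ι → Prop)
    (hr : ∀ i ∈ S, ∀ j ∈ S, r i j ↔ r (e i) (e j)) : cnt r S = cnt r S' := by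
  classical
  have hS' : S' = S.image e := by
    ext j; rw [Finset.mem_image]
    constructor
    · intro hj; obtain ⟨i, hi, hij⟩ := h.surj j hj; exact ⟨i, hi, hij⟩
    · rintro ⟨i, hi, rfl⟩; exact h.maps i hi
  have hinj : Set.InjOn e S := fun i hi j hj hij => h.inj hx hi hj hij
  unfold IndSum.cnt
  rw [hS', Finset.sum_image hinj]
  apply Finset.sum_congr rfl
  intro i hi
  rw [Finset.sum_image hinj]
  apply Finset.sum_congr rfl
  intro j hj
  simp only [hr i hi j hj]

theorem cnt_insert (r : ι → ι → Prop) (hr : ∀ i j, r i j → ¬ r j i) {z : ι} {U A : Finset ι}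
    (hz : z ∉ U) (hA : A ⊆ U) (hA' : ∀ j ∈ U, (r z j ∨ r j z) ↔ j ∈ A) :
    cnt r (insert z U) = cnt r U + A.card := by
  classical
  unfold IndSum.cnt
  rw [Finset.sum_insert hz, Finset.sum_insert hz]
  have h0 : ¬ r z z := fun h => hr z z h h
  have h1 : ∑ i ∈ U, ∑ j ∈ insert z U, (if r i j then 1 else 0) =
      ∑ i ∈ U, (if r i z then 1 else 0) + ∑ i ∈ U, ∑ j ∈ U, (if r i j then 1 else 0) := by
    rw [← Finset.sum_add_distrib]
    apply Finset.sum_congr rfl
    intro i _
    rw [Finset.sum_insert hz]
  rw [h1, if_neg h0]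
  have h2 : ∑ j ∈ U, (if r z j then 1 else 0) + ∑ i ∈ U, (if r i z then 1 else 0) = A.card := by
    rw [← Finset.sum_add_distrib, Finset.card_eq_sum_ones, ← Finset.sum_subset hA]
    · apply Finset.sum_congr rfl
      intro j hj
      rcases (hA' j (hA hj)).2 hj with h | h
      · rw [if_pos h, if_neg (hr _ _ h)]
      · rw [if_pos h, if_neg (hr _ _ h)]
    · intro j hj hjA
      have := mt (hA' j hj).1 hjA
      push Not at this
      rw [if_neg this.1, if_neg this.2]; rfl
  omega

theorem cnt_zero (r : ι → ι → Prop) {U : Finset ι} (h : ∀ i ∈ U, ∀ j ∈ U, ¬ r i j) : cnt r U = 0 := by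
  classical
  unfold IndSum.cnt
  apply Finset.sum_eq_zero
  intro i hi
  apply Finset.sum_eq_zero
  intro j hj
  rw [if_neg (h i hi j hj)]

theorem ltt.asymm {i j : ι} (h : ltt x y i j) : ¬ ltt x y j i :=
  fun h' => absurd h.1 (not_lt.2 h'.1.le)

theorem nw.asymm {i j : ι} (h : nw x y i j) : ¬ nw x y j i :=
  fun h' => absurd h.1 (not_lt.2 h'.1.le)

/-- a point with many neighbours and many non-neighbours in a decreasing sequence -/
theorem many_partial_clique {n : ℕ} (hn : 2 ≤ n) (hx : Function.Injective x)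
    (hy : Function.Injective y) {A' B' : Finset ι} {z : ι} (hAB : Clique x y (A' ∪ B'))
    (hA : ∀ a ∈ A', adj x y z a) (hB : ∀ b ∈ B', ¬ adj x y z b) (hzB : z ∉ B')
    (h1 : n - 1 ≤ A'.card) (h2 : n - 2 ≤ B'.card) : Many x y n := by
  apply many_of (fun k S => cnt (ltt x y) S = k)
  · intro k hk
    obtain ⟨A, hAs, hAc⟩ := Finset.exists_subset_card_eq (show n - 1 - k ≤ A'.card by omega)
    obtain ⟨B, hBs, hBc⟩ := Finset.exists_subset_card_eq (show k ≤ B'.card by omega)
    have hABs : A ∪ B ⊆ A' ∪ B' := Finset.union_subset_union hAs hBs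
    have hdis : Disjoint A B := by
      rw [Finset.disjoint_left]
      intro a ha ha'
      exact hB a (hBs ha') (hA a (hAs ha))
    have hz : z ∉ A ∪ B := by
      intro h
      rcases Finset.mem_union.1 h with h | h
      · exact (hA z (hAs h)).ne rfl
      · exact hzB (hBs h)
    have hAne : A.Nonempty := by rw [← Finset.card_pos]; omega
    obtain ⟨a0, ha0⟩ := hAne
    refine ⟨insert z (A ∪ B), ?_, ?_, ?_⟩
    · rw [Finset.card_insert_of_notMem hz, Finset.card_union_of_disjoint hdis]; omega
    · have h3 : Conn x y ({a0} ∪ (A ∪ B).erase a0) := by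
        apply conn_star
        intro i hi
        exact hAB a0 (hABs (Finset.mem_union_left _ ha0)) i (hABs (Finset.mem_of_mem_erase hi))
          (Finset.ne_of_mem_erase hi).symm
      have h4 : ({a0} ∪ (A ∪ B).erase a0) = A ∪ B := by
        rw [← Finset.insert_eq]
        exact Finset.insert_erase (Finset.mem_union_left _ ha0)
      rw [h4] at h3
      exact conn_insert h3 (Finset.mem_union_left _ ha0) (hA a0 (hAs ha0)).symm
    · rw [cnt_insert (ltt x y) (fun i j h => h.asymm) hz Finset.subset_union_right, cnt_zero, hBc, zero_add]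
      · intro i hi j hj h
        exact h.not_adj (hAB i (hABs hi) j (hABs hj) h.ne)
      · intro j hj
        constructor
        · intro h
          rcases Finset.mem_union.1 hj with hj | hj
          · exfalso
            rcases h with h | h
            · exact h.not_adj (hA j (hAs hj))
            · exact h.not_adj' (hA j (hAs hj))
          · exact hj
        · intro hj'
          have hne : z ≠ j := by rintro rfl; exact hzB (hBs hj')
          rcases adj_or_ltt hx hy hne with h | h
          · exact absurd h (hB j (hBs hj'))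
          · exact h
  · rintro k hk l hl S S' e h h' he
    rw [← h, ← h']
    exact he.cnt hx _ (fun i hi j hj => he.ltt_iff hi hj)

end Pool.Agent.H41.IndSum
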