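import Pool.Agent.H41.IndSum.Fam

open Finset

set_option linter.unusedSectionVars false

namespace Pool.Agent.H41.IndSum

variable {ι : Type*} [DecidableEq ι] {x y : ι → ℤ}

theorem Chain.not_nw {U : Finset ι} (h : Chain x y U) {i j : ι} (hi : i ∈ U) (hj : j ∈ U) :
    ¬ nw x y i j := by
  intro h'
  rcases h i hi j hj h'.ne with h1 | h1
  · exact h1.not_adj h'.adj
  · exact h1.not_adj h'.adj'

/-- an adjacent pair in the middle of the leaves of a star -/
theorem many_split_star {n : ℕ} (hn : 3 ≤ n) (hx : Function.Injective x) {A' C' : Finset ι}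
    {c z w : ι} (hzw : nw x y z w) (hA : Chain x y A') (hC : Chain x y C')
    (hAz : ∀ a ∈ A', ltt x y a z) (hAw : ∀ a ∈ A', ltt x y a w)
    (hCz : ∀ c' ∈ C', ltt x y z c') (hCw : ∀ c' ∈ C', ltt x y w c')
    (hAc : ∀ a ∈ A', nw x y a c) (hCc : ∀ c' ∈ C', nw x y c' c) (hzc : nw x y z c) (hwc : nw x y w c)
    (h1 : n - 1 ≤ A'.card) (h2 : n - 1 ≤ C'.card) : Many x y n := by
  apply many_of (fun k S => (k = n - 2 ∧ ∀ z ∈ S, ¬ ∃ j ∈ S, ∃ j' ∈ S, j ≠ j' ∧ nw x y z j ∧ nw x y z j') ∨
    (k < n - 2 ∧ ∃ z ∈ S, (∃ j ∈ S, ∃ j' ∈ S, j ≠ j' ∧ nw x y z j ∧ nw x y z j') ∧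
    (∀ z' ∈ S, (∃ j ∈ S, ∃ j' ∈ S, j ≠ j' ∧ nw x y z' j ∧ nw x y z' j') → z' = z) ∧
    (S.filter (fun j => x j < x z)).card = k))
  · intro k hk
    rcases Nat.lt_or_ge k (n - 2) with hk2 | hk2
    · obtain ⟨A, hAs, hAk⟩ := Finset.exists_subset_card_eq (show k ≤ A'.card by omega)
      obtain ⟨C, hCs, hCk⟩ := Finset.exists_subset_card_eq (show n - 3 - k ≤ C'.card by omega)
      have hAC : ∀ a ∈ A, ∀ c' ∈ C, ltt x y a c' :=
        fun a ha c' hc' => (hAz a (hAs ha)).trans (hCz c' (hCs hc'))
      have hdis : Disjoint A C := by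
        rw [Finset.disjoint_left]
        intro a ha ha'
        exact (hAC a ha a ha').ne rfl
      have hwS : w ∉ A ∪ C := by
        intro h
        rcases Finset.mem_union.1 h with h | h
        · exact (hAw w (hAs h)).ne rfl
        · exact (hCw w (hCs h)).ne rfl
      have hzS : z ∉ insert w (A ∪ C) := by
        intro h
        rcases Finset.mem_insert.1 h with h | h
        · exact hzw.ne h
        · rcases Finset.mem_union.1 h with h | h
          · exact (hAz z (hAs h)).ne rfl
          · exact (hCz z (hCs h)).ne rfl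
      have hcS : c ∉ insert z (insert w (A ∪ C)) := by
        intro h
        rcases Finset.mem_insert.1 h with h | h
        · exact hzc.ne h.symm
        · rcases Finset.mem_insert.1 h with h | h
          · exact hwc.ne h.symm
          · rcases Finset.mem_union.1 h with h | h
            · exact (hAc c (hAs h)).ne rfl
            · exact (hCc c (hCs h)).ne rfl
      have hmem : ∀ i, i ∈ insert c (insert z (insert w (A ∪ C))) ↔ i = c ∨ i = z ∨ i = w ∨ i ∈ A ∨ i ∈ C := by
        intro i; simp only [Finset.mem_insert, Finset.mem_union]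
      refine ⟨insert c (insert z (insert w (A ∪ C))), ?_, ?_, Or.inr ⟨hk2, z, by simp, ?_, ?_, ?_⟩⟩
      · rw [Finset.card_insert_of_notMem hcS, Finset.card_insert_of_notMem hzS,
          Finset.card_insert_of_notMem hwS, Finset.card_union_of_disjoint hdis]; omega
      · rw [Finset.insert_eq]
        apply conn_star
        intro i hi
        simp only [Finset.mem_insert, Finset.mem_union] at hi
        rcases hi with rfl | rfl | hi | hi
        · exact hzc.adj'
        · exact hwc.adj'
        · exact (hAc i (hAs hi)).adj'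
        · exact (hCc i (hCs hi)).adj'
      · exact ⟨w, by simp, c, by simp, hwc.ne, hzw, hzc⟩
      · rintro z' hz' ⟨j, hj, j', hj', hne, h3, h4⟩
        -- only `z` has an inversion partner to the lower right other than `c`
        have key : ∀ i ∈ insert c (insert z (insert w (A ∪ C))),
            ∀ l ∈ insert c (insert z (insert w (A ∪ C))), nw x y i l → i = z ∨ l = c := by
          intro i hi l hl hil
          rw [hmem] at hi hl
          by_contra hcon
          push Not at hcon
          obtain ⟨hiz, hlc⟩ := hcon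
          have hiw : i = c ∨ i = w ∨ i ∈ A ∨ i ∈ C := by
            rcases hi with h | h | h | h
            · exact Or.inl h
            · exact absurd h hiz
            · exact Or.inr (Or.inl h)
            · exact Or.inr (Or.inr h)
          have hlw : l = z ∨ l = w ∨ l ∈ A ∨ l ∈ C := by
            rcases hl with h | h | h | h
            · exact absurd h hlc
            · exact Or.inl h
            · exact Or.inr (Or.inl h)
            · exact Or.inr (Or.inr h)
          clear hi hl
          rcases hiw with rfl | rfl | hi | hi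
          · rcases hlw with rfl | rfl | hl | hl
            · exact hzc.asymm hil
            · exact hwc.asymm hil
            · exact (hAc l (hAs hl)).asymm hil
            · exact (hCc l (hCs hl)).asymm hil
          · rcases hlw with rfl | rfl | hl | hl
            · exact hzw.asymm hil
            · exact hil.ne rfl
            · exact (hAw l (hAs hl)).not_adj' hil.adj
            · exact (hCw l (hCs hl)).not_adj hil.adj
          · rcases hlw with rfl | rfl | hl | hl
            · exact (hAz i (hAs hi)).not_adj hil.adj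
            · exact (hAw i (hAs hi)).not_adj hil.adj
            · exact hA.not_nw (hAs hi) (hAs hl) hil
            · exact (hAC i hi l hl).not_adj hil.adj
          · rcases hlw with rfl | rfl | hl | hl
            · exact (hCz i (hCs hi)).not_adj' hil.adj
            · exact (hCw i (hCs hi)).not_adj' hil.adj
            · exact (hAC l hl i hi).not_adj' hil.adj
            · exact hC.not_nw (hCs hi) (hCs hl) hil
        rcases key z' hz' j hj h3 with h5 | h5
        · exact h5
        · rcases key z' hz' j' hj' h4 with h6 | h6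
          · exact h6
          · exact absurd (h5.trans h6.symm) hne
      · have : (insert c (insert z (insert w (A ∪ C)))).filter (fun j => x j < x z) = A := by
          ext i; rw [Finset.mem_filter, hmem]
          constructor
          · rintro ⟨rfl | rfl | rfl | h | h, h'⟩
            · exact absurd hzc.1 (not_lt.2 h'.le)
            · exact absurd h' (lt_irrefl _)
            · exact absurd hzw.1 (not_lt.2 h'.le)
            · exact h
            · exact absurd (hCz i (hCs h)).1 (not_lt.2 h'.le)
          · intro h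
            exact ⟨Or.inr (Or.inr (Or.inr (Or.inl h))), (hAz i (hAs h)).1⟩
        rw [this, hAk]
    · obtain ⟨A, hAs, hAk⟩ := Finset.exists_subset_card_eq h1
      have hcA : c ∉ A := fun h => (hAc c (hAs h)).ne rfl
      refine ⟨insert c A, ?_, ?_, Or.inl ⟨by omega, ?_⟩⟩
      · rw [Finset.card_insert_of_notMem hcA]; omega
      · rw [Finset.insert_eq]
        exact conn_star (fun i hi => (hAc i (hAs hi)).adj')
      · rintro z' hz' ⟨j, hj, j', hj', hne, h3, h4⟩
        have key : ∀ i ∈ insert c A, ∀ l ∈ insert c A, nw x y i l → l = c := by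
          intro i hi l hl hil
          rcases Finset.mem_insert.1 hl with hl1 | hl1
          · exact hl1
          · exfalso
            rcases Finset.mem_insert.1 hi with hi1 | hi1
            · subst hi1
              exact (hAc l (hAs hl1)).asymm hil
            · exact hA.not_nw (hAs hi1) (hAs hl1) hil
        exact hne ((key z' hz' j hj h3).trans (key z' hz' j' hj' h4).symm)
  · rintro k hk l hl S S' e h h' he
    rcases h with ⟨hk1, hk2⟩ | ⟨hk1, z1, hz1, ⟨j, hj, j', hj', hne, h3, h4⟩, hu, hc1⟩
    · rcases h' with ⟨hl1, _⟩ | ⟨hl1, z2, hz2, ⟨j, hj, j', hj', hne, h3, h4⟩, hu, hc2⟩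
      · omega
      · exfalso
        obtain ⟨z3, hz3, rfl⟩ := he.surj z2 hz2
        obtain ⟨j3, hj3, rfl⟩ := he.surj j hj
        obtain ⟨j4, hj4, rfl⟩ := he.surj j' hj'
        exact hk2 z3 hz3 ⟨j3, hj3, j4, hj4, fun e' => hne (by rw [e']), (he.nw_iff hz3 hj3).2 h3,
          (he.nw_iff hz3 hj4).2 h4⟩
    · rcases h' with ⟨hl1, hl2⟩ | ⟨hl1, z2, hz2, _, hu2, hc2⟩
      · exfalso
        exact hl2 (e z1) (he.maps _ hz1) ⟨e j, he.maps _ hj, e j', he.maps _ hj',
          fun e' => hne (he.inj hx hj hj' e'), (he.nw_iff hz1 hj).1 h3, (he.nw_iff hz1 hj').1 h4⟩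
      · have h7 : e z1 = z2 := hu2 _ (he.maps _ hz1) ⟨e j, he.maps _ hj, e j', he.maps _ hj',
          fun e' => hne (he.inj hx hj hj' e'), (he.nw_iff hz1 hj).1 h3, (he.nw_iff hz1 hj').1 h4⟩
        rw [← hc1, ← hc2, he.card_rel hx (fun j i => x j < x i) he.presx hz1, h7]

/-- a point adjacent to the centre with many neighbours and many non-neighbours in the leaves of a star -/
theorem many_star_partial {n : ℕ} (hn : 2 ≤ n) (hx : Function.Injective x)
    {A' B' : Finset ι} {c z : ι} (hAB : Chain x y (A' ∪ B'))
    (hA : ∀ a ∈ A', adj x y z a) (hB : ∀ b ∈ B', ¬ adj x y z b) (hzB : z ∉ B')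
    (hc : ∀ a ∈ A' ∪ B', nw x y a c) (hzc : nw x y z c)
    (h1 : n - 2 ≤ A'.card) (h2 : n - 2 ≤ B'.card) : Many x y n := by
  apply many_of (fun k S => cnt (nw x y) S = n - 1 + k)
  · intro k hk
    obtain ⟨A, hAs, hAc⟩ := Finset.exists_subset_card_eq (show k ≤ A'.card by omega)
    obtain ⟨B, hBs, hBc⟩ := Finset.exists_subset_card_eq (show n - 2 - k ≤ B'.card by omega)
    have hABs : A ∪ B ⊆ A' ∪ B' := Finset.union_subset_union hAs hBs
    have hdis : Disjoint A B := by
      rw [Finset.disjoint_left]
      intro a ha ha'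
      exact hB a (hBs ha') (hA a (hAs ha))
    have hz : z ∉ A ∪ B := by
      intro h
      rcases Finset.mem_union.1 h with h | h
      · exact (hA z (hAs h)).ne rfl
      · exact hzB (hBs h)
    have hcS : c ∉ insert z (A ∪ B) := by
      intro h
      rcases Finset.mem_insert.1 h with h | h
      · exact hzc.ne h.symm
      · exact (hc c (hABs h)).ne rfl
    have hcard : (insert z (A ∪ B)).card = n - 1 := by
      rw [Finset.card_insert_of_notMem hz, Finset.card_union_of_disjoint hdis]; omega
    have hstar : ∀ i ∈ insert z (A ∪ B), nw x y i c := by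
      intro i hi
      rcases Finset.mem_insert.1 hi with rfl | hi
      · exact hzc
      · exact hc i (hABs hi)
    refine ⟨insert c (insert z (A ∪ B)), ?_, ?_, ?_⟩
    · rw [Finset.card_insert_of_notMem hcS, hcard]; omega
    · rw [Finset.insert_eq]
      exact conn_star (fun i hi => (hstar i hi).adj')
    · rw [cnt_insert (nw x y) (fun i j h => h.asymm) hcS (Finset.Subset.refl _)
        (fun j hj => ⟨fun _ => hj, fun _ => Or.inr (hstar j hj)⟩),
        cnt_insert (nw x y) (fun i j h => h.asymm) hz (A := A) Finset.subset_union_left, cnt_zero,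
        hcard, hAc]
      · omega
      · intro i hi j hj
        exact hAB.not_nw (hABs hi) (hABs hj)
      · intro j hj
        constructor
        · intro h
          rcases Finset.mem_union.1 hj with hj | hj
          · exact hj
          · exact absurd h (hB j (hBs hj))
        · intro hj'
          exact hA j (hAs hj')
  · rintro k hk l hl S S' e h h' he
    have := he.cnt hx (nw x y) (fun i hi j hj => he.nw_iff hi hj)
    omega

/-- a point to the upper right of the centre, above many leaves and below many leaves -/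
theorem many_star_right {n : ℕ} (hn : 2 ≤ n) (hx : Function.Injective x)
    {A' B' : Finset ι} {c z : ι}
    (hA : ∀ a ∈ A', ltt x y a z) (hB : ∀ b ∈ B', nw x y b z)
    (hAc : ∀ a ∈ A', nw x y a c) (hBc : ∀ a ∈ B', nw x y a c) (hcz : ltt x y c z)
    (h1 : n - 1 ≤ A'.card) (h2 : n - 1 ≤ B'.card) : Many x y n := by
  apply many_last hx 0 (fun k => k) (fun k hk l hl h => h)
  intro k hk
  rcases Nat.eq_zero_or_pos k with rfl | hk0
  · obtain ⟨A, hAs, hAk⟩ := Finset.exists_subset_card_eq h1
    have hcA : c ∉ A := fun h => (hAc c (hAs h)).ne rfl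
    refine ⟨insert c A, ?_, ?_, c, by simp, ?_, ?_⟩
    · rw [Finset.card_insert_of_notMem hcA]; omega
    · rw [Finset.insert_eq]
      exact conn_star (fun i hi => (hAc i (hAs hi)).adj')
    · rw [Finset.card_eq_zero, Finset.filter_eq_empty_iff]
      intro j hj
      rcases Finset.mem_insert.1 hj with rfl | hj
      · exact lt_irrefl _
      · exact not_lt.2 (hAc j (hAs hj)).1.le
    · rw [Finset.card_eq_zero, Finset.filter_eq_empty_iff]
      intro j hj
      rcases Finset.mem_insert.1 hj with rfl | hj
      · exact lt_irrefl _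
      · exact not_lt.2 (hAc j (hAs hj)).2.le
  · obtain ⟨A, hAs, hAk⟩ := Finset.exists_subset_card_eq (show k - 1 ≤ A'.card by omega)
    obtain ⟨B, hBs, hBk⟩ := Finset.exists_subset_card_eq (show n - 1 - k ≤ B'.card by omega)
    have hBne : B.Nonempty := by rw [← Finset.card_pos]; omega
    obtain ⟨b, hb⟩ := hBne
    have hdis : Disjoint A B := by
      rw [Finset.disjoint_left]
      intro a ha ha'
      exact (hA a (hAs ha)).not_adj (hB a (hBs ha')).adj
    have hcS : c ∉ A ∪ B := by
      intro h
      rcases Finset.mem_union.1 h with h | h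
      · exact (hAc c (hAs h)).ne rfl
      · exact (hBc c (hBs h)).ne rfl
    have hzS : z ∉ insert c (A ∪ B) := by
      intro h
      rcases Finset.mem_insert.1 h with h | h
      · exact hcz.ne h.symm
      · rcases Finset.mem_union.1 h with h | h
        · exact (hA z (hAs h)).ne rfl
        · exact (hB z (hBs h)).ne rfl
    have hmem : ∀ i, i ∈ insert z (insert c (A ∪ B)) ↔ i = z ∨ i = c ∨ i ∈ A ∨ i ∈ B := by
      intro i; simp only [Finset.mem_insert, Finset.mem_union]
    refine ⟨insert z (insert c (A ∪ B)), ?_, ?_, z, by simp, ?_, ?_⟩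
    · rw [Finset.card_insert_of_notMem hzS, Finset.card_insert_of_notMem hcS,
        Finset.card_union_of_disjoint hdis]; omega
    · have h3 : Conn x y (insert c (A ∪ B)) := by
        rw [Finset.insert_eq]
        apply conn_star
        intro i hi
        rcases Finset.mem_union.1 hi with hi | hi
        · exact (hAc i (hAs hi)).adj'
        · exact (hBc i (hBs hi)).adj'
      exact conn_insert h3 (a := b) (Finset.mem_insert_of_mem (Finset.mem_union_right _ hb)) (hB b (hBs hb)).adj
    · rw [Finset.card_eq_zero, Finset.filter_eq_empty_iff]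
      intro j hj
      rw [hmem] at hj
      rcases hj with rfl | rfl | hj | hj
      · exact lt_irrefl _
      · exact not_lt.2 hcz.1.le
      · exact not_lt.2 (hA j (hAs hj)).1.le
      · exact not_lt.2 (hB j (hBs hj)).1.le
    · have : (insert z (insert c (A ∪ B))).filter (fun j => y j < y z) = insert c A := by
        ext i; rw [Finset.mem_filter, hmem, Finset.mem_insert]
        constructor
        · rintro ⟨rfl | rfl | h | h, h'⟩
          · exact absurd h' (lt_irrefl _)
          · exact Or.inl rfl
          · exact Or.inr h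
          · exact absurd (hB i (hBs h)).2 (not_lt.2 h'.le)
        · rintro (rfl | h)
          · exact ⟨Or.inr (Or.inl rfl), hcz.2⟩
          · exact ⟨Or.inr (Or.inr (Or.inl h)), (hA i (hAs h)).2⟩
      rw [this, Finset.card_insert_of_notMem (fun h => hcS (Finset.mem_union_left _ h))]; omega

/-- a connected set attached to a star through a point to the upper left of the centre -/
theorem many_attach_star1 {n : ℕ} (hx : Function.Injective x) {K' T0 : Finset ι}
    {c h : ι} (hT : Conn x y T0) (hh : h ∈ T0) (hhK : h ∉ K')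
    (hTc : ∀ t ∈ T0, t ≠ h → ltt x y t c) (hhc : nw x y h c) (hK : ∀ k ∈ K', nw x y k c)
    (h1 : n - 1 ≤ K'.card) (h2 : n - 1 ≤ T0.card) : Many x y n := by
  apply many_last hx 0 (fun k => k) (fun k hk l hl h => h)
  intro k hk
  obtain ⟨K, hKs, hKc⟩ := Finset.exists_subset_card_eq (show n - 2 - k ≤ K'.card by omega)
  obtain ⟨T, hTs, hhT, hTcn, hTn⟩ := grow hT hh (k + 1) (by omega) (by omega)
  have hdis : Disjoint T K := by
    rw [Finset.disjoint_left]
    intro a ha ha'
    by_cases hah : a = h
    · rw [hah] at ha'; exact hhK (hKs ha')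
    · exact (hTc a (hTs ha) hah).not_adj (hK a (hKs ha')).adj
  have hcS : c ∉ T ∪ K := by
    intro h'
    rcases Finset.mem_union.1 h' with h' | h'
    · by_cases hah : c = h
      · rw [hah] at hhc; exact hhc.ne rfl
      · exact (hTc c (hTs h') hah).ne rfl
    · exact (hK c (hKs h')).ne rfl
  have hmem : ∀ i, i ∈ insert c (T ∪ K) ↔ i = c ∨ i ∈ T ∨ i ∈ K := by
    intro i; simp only [Finset.mem_insert, Finset.mem_union]
  refine ⟨insert c (T ∪ K), ?_, ?_, c, by simp, ?_, ?_⟩
  · rw [Finset.card_insert_of_notMem hcS, Finset.card_union_of_disjoint hdis]; omega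
  · have h3 : Conn x y (insert c T) := conn_insert hTcn hhT hhc.adj
    have h4 : Conn x y (insert c T ∪ K) :=
      conn_union h3 (a := c) (Finset.mem_insert_self _ _) (fun k hk => (hK k (hKs hk)).adj')
    rwa [Finset.insert_union] at h4
  · rw [Finset.card_eq_zero, Finset.filter_eq_empty_iff]
    intro j hj
    rw [hmem] at hj
    rcases hj with rfl | hj | hj
    · exact lt_irrefl _
    · by_cases hjh : j = h
      · rw [hjh]; exact not_lt.2 hhc.1.le
      · exact not_lt.2 (hTc j (hTs hj) hjh).1.le
    · exact not_lt.2 (hK j (hKs hj)).1.le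
  · have : (insert c (T ∪ K)).filter (fun j => y j < y c) = T.erase h := by
      ext z; rw [Finset.mem_filter, hmem, Finset.mem_erase]
      constructor
      · rintro ⟨rfl | hz | hz, h'⟩
        · exact absurd h' (lt_irrefl _)
        · refine ⟨?_, hz⟩
          rintro rfl
          exact absurd hhc.2 (not_lt.2 h'.le)
        · exact absurd (hK z (hKs hz)).2 (not_lt.2 h'.le)
      · rintro ⟨hzh, hz⟩
        exact ⟨Or.inr (Or.inl hz), (hTc z (hTs hz) hzh).2⟩
    rw [this, Finset.card_erase_of_mem hhT]; omega

/-- a connected set attached to a star through a point to the lower right of the centre -/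
theorem many_attach_star2 {n : ℕ} (hx : Function.Injective x) {K' T0 : Finset ι}
    {c h : ι} (hT : Conn x y T0) (hh : h ∈ T0)
    (hTc : ∀ t ∈ T0, t ≠ h → ltt x y t c) (hhc : nw x y c h) (hK : ∀ k ∈ K', nw x y k c)
    (h1 : n - 1 ≤ K'.card) (h2 : n - 1 ≤ T0.card) : Many x y n := by
  apply many_last hx 1 (fun k => k + 1) (fun k hk l hl h => by omega)
  intro k hk
  obtain ⟨K, hKs, hKc⟩ := Finset.exists_subset_card_eq (show n - 2 - k ≤ K'.card by omega)
  obtain ⟨T, hTs, hhT, hTcn, hTn⟩ := grow hT hh (k + 1) (by omega) (by omega)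
  have hdis : Disjoint T K := by
    rw [Finset.disjoint_left]
    intro a ha ha'
    by_cases hah : a = h
    · rw [hah] at ha'; exact (hK h (hKs ha')).asymm hhc
    · exact (hTc a (hTs ha) hah).not_adj (hK a (hKs ha')).adj
  have hcS : c ∉ T ∪ K := by
    intro h'
    rcases Finset.mem_union.1 h' with h' | h'
    · by_cases hah : c = h
      · rw [hah] at hhc; exact hhc.ne rfl
      · exact (hTc c (hTs h') hah).ne rfl
    · exact (hK c (hKs h')).ne rfl
  have hmem : ∀ i, i ∈ insert c (T ∪ K) ↔ i = c ∨ i ∈ T ∨ i ∈ K := by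
    intro i; simp only [Finset.mem_insert, Finset.mem_union]
  refine ⟨insert c (T ∪ K), ?_, ?_, c, by simp, ?_, ?_⟩
  · rw [Finset.card_insert_of_notMem hcS, Finset.card_union_of_disjoint hdis]; omega
  · have h3 : Conn x y (insert c T) := conn_insert hTcn hhT hhc.adj'
    have h4 : Conn x y (insert c T ∪ K) :=
      conn_union h3 (a := c) (Finset.mem_insert_self _ _) (fun k hk => (hK k (hKs hk)).adj')
    rwa [Finset.insert_union] at h4
  · rw [Finset.card_eq_one]
    refine ⟨h, ?_⟩
    ext j; rw [Finset.mem_filter, hmem, Finset.mem_singleton]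
    constructor
    · rintro ⟨rfl | hj | hj, h'⟩
      · exact absurd h' (lt_irrefl _)
      · by_contra hjh
        exact absurd (hTc j (hTs hj) hjh).1 (not_lt.2 h'.le)
      · exact absurd (hK j (hKs hj)).1 (not_lt.2 h'.le)
    · rintro rfl
      exact ⟨Or.inr (Or.inl hhT), hhc.1⟩
  · have : (insert c (T ∪ K)).filter (fun j => y j < y c) = T := by
      ext z; rw [Finset.mem_filter, hmem]
      constructor
      · rintro ⟨rfl | hz | hz, h'⟩
        · exact absurd h' (lt_irrefl _)
        · exact hz
        · exact absurd (hK z (hKs hz)).2 (not_lt.2 h'.le)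
      · intro hz
        refine ⟨Or.inr (Or.inl hz), ?_⟩
        by_cases hzh : z = h
        · rw [hzh]; exact hhc.2
        · exact (hTc z (hTs hz) hzh).2
    rw [this]; omega

/-- a connected set attached to a star through a point to the lower left of the centre -/
theorem many_attach_star3 {n : ℕ} (hx : Function.Injective x) {K' T0 : Finset ι}
    {c h : ι} (hT : Conn x y T0) (hh : h ∈ T0)
    (hTc : ∀ t ∈ T0, ltt x y t c) (hK : ∀ k ∈ K', nw x y k c) (hKh : ∀ k ∈ K', nw x y k h)
    (h1 : n - 1 ≤ K'.card) (h2 : n - 1 ≤ T0.card) : Many x y n := by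
  apply many_last hx 0 (fun k => k) (fun k hk l hl h => h)
  intro k hk
  rcases Nat.eq_zero_or_pos k with rfl | hk0
  · obtain ⟨A, hAs, hAk⟩ := Finset.exists_subset_card_eq h1
    have hcA : c ∉ A := fun h => (hK c (hAs h)).ne rfl
    refine ⟨insert c A, ?_, ?_, c, by simp, ?_, ?_⟩
    · rw [Finset.card_insert_of_notMem hcA]; omega
    · rw [Finset.insert_eq]
      exact conn_star (fun i hi => (hK i (hAs hi)).adj')
    · rw [Finset.card_eq_zero, Finset.filter_eq_empty_iff]
      intro j hj
      rcases Finset.mem_insert.1 hj with rfl | hj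
      · exact lt_irrefl _
      · exact not_lt.2 (hK j (hAs hj)).1.le
    · rw [Finset.card_eq_zero, Finset.filter_eq_empty_iff]
      intro j hj
      rcases Finset.mem_insert.1 hj with rfl | hj
      · exact lt_irrefl _
      · exact not_lt.2 (hK j (hAs hj)).2.le
  · obtain ⟨K, hKs, hKc⟩ := Finset.exists_subset_card_eq (show n - 1 - k ≤ K'.card by omega)
    obtain ⟨T, hTs, hhT, hTcn, hTn⟩ := grow hT hh k (by omega) (by omega)
    have hKne : K.Nonempty := by rw [← Finset.card_pos]; omega
    obtain ⟨k0, hk0'⟩ := hKne
    have hdis : Disjoint T K := by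
      rw [Finset.disjoint_left]
      intro a ha ha'
      exact (hTc a (hTs ha)).not_adj (hK a (hKs ha')).adj
    have hcS : c ∉ T ∪ K := by
      intro h'
      rcases Finset.mem_union.1 h' with h' | h'
      · exact (hTc c (hTs h')).ne rfl
      · exact (hK c (hKs h')).ne rfl
    have hmem : ∀ i, i ∈ insert c (T ∪ K) ↔ i = c ∨ i ∈ T ∨ i ∈ K := by
      intro i; simp only [Finset.mem_insert, Finset.mem_union]
    refine ⟨insert c (T ∪ K), ?_, ?_, c, by simp, ?_, ?_⟩
    · rw [Finset.card_insert_of_notMem hcS, Finset.card_union_of_disjoint hdis]; omega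
    · have h3 : Conn x y (T ∪ K) := conn_union hTcn hhT (fun k hk => (hKh k (hKs hk)).adj')
      exact conn_insert h3 (a := k0) (Finset.mem_union_right _ hk0') (hK k0 (hKs hk0')).adj
    · rw [Finset.card_eq_zero, Finset.filter_eq_empty_iff]
      intro j hj
      rw [hmem] at hj
      rcases hj with rfl | hj | hj
      · exact lt_irrefl _
      · exact not_lt.2 (hTc j (hTs hj)).1.le
      · exact not_lt.2 (hK j (hKs hj)).1.le
    · have : (insert c (T ∪ K)).filter (fun j => y j < y c) = T := by
        ext z; rw [Finset.mem_filter, hmem]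
        constructor
        · rintro ⟨rfl | hz | hz, h'⟩
          · exact absurd h' (lt_irrefl _)
          · exact hz
          · exact absurd (hK z (hKs hz)).2 (not_lt.2 h'.le)
        · intro hz
          exact ⟨Or.inr (Or.inl hz), (hTc z (hTs hz)).2⟩
      rw [this]; omega

end Pool.Agent.H41.IndSum
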