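import Pool.Agent.H41.IndSum.Mid

open Finset

set_option linter.unusedSectionVars false

namespace Pool.Agent.H41.IndSum

variable {ι : Type*} [DecidableEq ι] {x y : ι → ℤ}

/-- an increasing oscillation -/
structure IsOsc (x y : ι → ℤ) (v : ℕ → ι) (L : ℕ) : Prop where
  adj : ∀ i < L, adj x y (v i) (v (i + 1))
  far : ∀ i j, i + 2 ≤ j → j ≤ L → ltt x y (v i) (v j)

theorem IsOsc.ne {v : ℕ → ι} {L : ℕ} (h : IsOsc x y v L) {i j : ℕ} (hij : i < j) (hj : j ≤ L) :
    v i ≠ v j := by
  rcases Nat.lt_or_ge (i + 1) j with h1 | h1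
  · exact (h.far i j h1 hj).ne
  · have : j = i + 1 := by omega
    subst this
    exact (h.adj i (by omega)).ne

theorem IsOsc.inj {v : ℕ → ι} {L : ℕ} (h : IsOsc x y v L) {i j : ℕ} (hi : i ≤ L) (hj : j ≤ L)
    (hij : v i = v j) : i = j := by
  rcases lt_trichotomy i j with h1 | h1 | h1
  · exact absurd hij (h.ne h1 hj)
  · exact h1
  · exact absurd hij.symm (h.ne h1 hi)

theorem IsOsc.adj_iff {v : ℕ → ι} {L : ℕ} (h : IsOsc x y v L) {i j : ℕ} (hi : i ≤ L) (hj : j ≤ L)
    (hij : IndSum.adj x y (v i) (v j)) : j = i + 1 ∨ i = j + 1 := by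
  by_contra hcon
  push Not at hcon
  rcases lt_trichotomy i j with h1 | h1 | h1
  · exact (h.far i j (by omega) hj).not_adj hij
  · subst h1; exact hij.ne rfl
  · exact (h.far j i (by omega) hi).not_adj' hij

theorem IsOsc.card_image {v : ℕ → ι} {L : ℕ} (h : IsOsc x y v L) {s : Finset ℕ}
    (hs : ∀ i ∈ s, i ≤ L) : (s.image v).card = s.card :=
  Finset.card_image_of_injOn (fun i hi j hj hij =>
    h.inj (hs i (Finset.mem_coe.1 hi)) (hs j (Finset.mem_coe.1 hj)) hij)

theorem IsOsc.conn {v : ℕ → ι} {L : ℕ} (h : IsOsc x y v L) (s : ℕ) :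
    ∀ m, s + m ≤ L → Conn x y ((Finset.Icc s (s + m)).image v) := by
  intro m
  induction m with
  | zero =>
    intro _
    simp only [Nat.add_zero, Finset.Icc_self, Finset.image_singleton]
    exact conn_singleton _
  | succ m ih =>
    intro hm
    have h1 := ih (by omega)
    have h2 : Finset.Icc s (s + (m + 1)) = insert (s + m + 1) (Finset.Icc s (s + m)) := by
      ext i; simp only [Finset.mem_Icc, Finset.mem_insert]; omega
    rw [h2, Finset.image_insert]
    exact conn_insert h1 (Finset.mem_image.2 ⟨s + m, by simp, rfl⟩) (h.adj (s + m) (by omega))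

theorem IsOsc.turn1 {v : ℕ → ι} {L : ℕ} (h : IsOsc x y v L) {i : ℕ} (hi : i + 2 ≤ L)
    (h1 : nw x y (v i) (v (i + 1))) : nw x y (v (i + 2)) (v (i + 1)) := by
  rcases h.adj (i + 1) (by omega) with h2 | h2
  · exact absurd (h.far i (i + 2) le_rfl hi).2 (not_lt.2 (h2.2.trans h1.2).le)
  · exact h2

theorem IsOsc.turn2 {v : ℕ → ι} {L : ℕ} (h : IsOsc x y v L) {i : ℕ} (hi : i + 2 ≤ L)
    (h1 : nw x y (v (i + 1)) (v i)) : nw x y (v (i + 1)) (v (i + 2)) := by
  rcases h.adj (i + 1) (by omega) with h2 | h2
  · exact h2
  · exact absurd (h.far i (i + 2) le_rfl hi).1 (not_lt.2 (h2.1.trans h1.1).le)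

open Classical in
noncomputable def deg (x y : ι → ℤ) (S : Finset ι) (c : ι) : ℕ := (S.filter (fun j => adj x y j c)).card

open Classical in
noncomputable def swc (x y : ι → ℤ) (S : Finset ι) (c : ι) : ℕ := (S.filter (fun j => ltt x y j c)).card

theorem IsoVia.deg (hx : Function.Injective x) {e : ι → ι} {S S' : Finset ι}
    (h : IsoVia x y e S S') {c : ι} (hc : c ∈ S) : deg x y S c = deg x y S' (e c) := by
  classical
  exact h.card_rel hx (fun j i => IndSum.adj x y j i) (fun i hi j hj => h.adj_iff hi hj) hc

theorem IsoVia.swc (hx : Function.Injective x) {e : ι → ι} {S S' : Finset ι}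
    (h : IsoVia x y e S S') {c : ι} (hc : c ∈ S) : swc x y S c = swc x y S' (e c) := by
  classical
  exact h.card_rel hx (fun j i => ltt x y j i) (fun i hi j hj => h.ltt_iff hi hj) hc

/-- statistics of an oscillation -/
theorem IsOsc.stat1 {v : ℕ → ι} {L : ℕ} (h : IsOsc x y v L) {s m : ℕ} (hm : 2 ≤ m) (hs : s + m ≤ L)
    (h1 : nw x y (v s) (v (s + 1))) :
    ∃ r ∈ (Finset.Icc s (s + m)).image v, (∀ j ∈ (Finset.Icc s (s + m)).image v, ¬ x j < x r) ∧
      (((Finset.Icc s (s + m)).image v).filter (fun j => y j < y r)).card = 1 := by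
  refine ⟨v s, Finset.mem_image.2 ⟨s, by simp, rfl⟩, ?_, ?_⟩
  · intro j hj
    obtain ⟨i, hi, rfl⟩ := Finset.mem_image.1 hj
    rw [Finset.mem_Icc] at hi
    rcases Nat.lt_or_ge i (s + 2) with h2 | h2
    · rcases Nat.lt_or_ge i (s + 1) with h3 | h3
      · have : i = s := by omega
        subst this; exact lt_irrefl _
      · have : i = s + 1 := by omega
        subst this; exact not_lt.2 h1.1.le
    · exact not_lt.2 (h.far s i h2 (by omega)).1.le
  · rw [Finset.card_eq_one]
    refine ⟨v (s + 1), ?_⟩
    ext j
    rw [Finset.mem_filter, Finset.mem_singleton]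
    constructor
    · rintro ⟨hj, hlt⟩
      obtain ⟨i, hi, rfl⟩ := Finset.mem_image.1 hj
      rw [Finset.mem_Icc] at hi
      rcases Nat.lt_or_ge i (s + 2) with h2 | h2
      · rcases Nat.lt_or_ge i (s + 1) with h3 | h3
        · have : i = s := by omega
          subst this; exact absurd hlt (lt_irrefl _)
        · have : i = s + 1 := by omega
          rw [this]
      · exact absurd hlt (not_lt.2 (h.far s i h2 (by omega)).2.le)
    · rintro rfl
      exact ⟨Finset.mem_image.2 ⟨s + 1, by simp; omega, rfl⟩, h1.2⟩

theorem IsOsc.stat2 {v : ℕ → ι} {L : ℕ} (h : IsOsc x y v L) {s m : ℕ} (hm : 2 ≤ m) (hs : s + m ≤ L)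
    (h1 : nw x y (v (s + 1)) (v s)) :
    ∃ r ∈ (Finset.Icc s (s + m)).image v, (∀ j ∈ (Finset.Icc s (s + m)).image v, ¬ x j < x r) ∧
      (((Finset.Icc s (s + m)).image v).filter (fun j => y j < y r)).card = 2 := by
  have h0 := h.turn2 (by omega) h1
  refine ⟨v (s + 1), Finset.mem_image.2 ⟨s + 1, by simp; omega, rfl⟩, ?_, ?_⟩
  · intro j hj
    obtain ⟨i, hi, rfl⟩ := Finset.mem_image.1 hj
    rw [Finset.mem_Icc] at hi
    rcases Nat.lt_or_ge i (s + 3) with h2 | h2
    · rcases Nat.lt_or_ge i (s + 1) with h3 | h3
      · have : i = s := by omega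
        subst this; exact not_lt.2 h1.1.le
      · rcases Nat.lt_or_ge i (s + 2) with h4 | h4
        · have : i = s + 1 := by omega
          subst this; exact lt_irrefl _
        · have : i = s + 2 := by omega
          subst this; exact not_lt.2 h0.1.le
    · exact not_lt.2 (h.far (s + 1) i h2 (by omega)).1.le
  · rw [Finset.card_eq_two]
    refine ⟨v s, v (s + 2), h.ne (by omega) (by omega), ?_⟩
    ext j
    rw [Finset.mem_filter, Finset.mem_insert, Finset.mem_singleton]
    constructor
    · rintro ⟨hj, hlt⟩
      obtain ⟨i, hi, rfl⟩ := Finset.mem_image.1 hj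
      rw [Finset.mem_Icc] at hi
      rcases Nat.lt_or_ge i (s + 3) with h2 | h2
      · rcases Nat.lt_or_ge i (s + 1) with h3 | h3
        · have : i = s := by omega
          left; rw [this]
        · rcases Nat.lt_or_ge i (s + 2) with h4 | h4
          · have : i = s + 1 := by omega
            subst this; exact absurd hlt (lt_irrefl _)
          · have : i = s + 2 := by omega
            right; rw [this]
      · exact absurd hlt (not_lt.2 (h.far (s + 1) i h2 (by omega)).2.le)
    · rintro (rfl | rfl)
      · exact ⟨Finset.mem_image.2 ⟨s, by simp, rfl⟩, h1.2⟩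
      · exact ⟨Finset.mem_image.2 ⟨s + 2, by simp; omega, rfl⟩, h0.2⟩

theorem IsOsc.deg_le {v : ℕ → ι} {L : ℕ} (h : IsOsc x y v L) {s t : ℕ} (ht : t ≤ L) {S : Finset ι}
    {i : ℕ} (hi : i ≤ L)
    (hS : ∀ j ∈ S, IndSum.adj x y j (v i) → j ∈ (Finset.Icc s t).image v) :
    IndSum.deg x y S (v i) ≤ 2 := by
  classical
  have h1 : S.filter (fun j => IndSum.adj x y j (v i)) ⊆ {v (i - 1), v (i + 1)} := by
    intro j hj
    obtain ⟨hjS, hja⟩ := Finset.mem_filter.1 hj
    obtain ⟨l, hl, rfl⟩ := Finset.mem_image.1 (hS j hjS hja)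
    rw [Finset.mem_Icc] at hl
    rcases h.adj_iff (by omega) hi hja with h2 | h2
    · rw [Finset.mem_insert]
      left
      have : l = i - 1 := by omega
      rw [this]
    · rw [Finset.mem_insert, Finset.mem_singleton]
      right
      rw [h2]
  exact (Finset.card_le_card h1).trans Finset.card_le_two

/-- a long oscillation with a point attached to the middle contains many connected patterns -/
theorem path_lemma {n : ℕ} (hn : 3 ≤ n) (hx : Function.Injective x) (hy : Function.Injective y)
    {v : ℕ → ι} {L : ℕ} (h : IsOsc x y v L) {z : ι} (hz : ∀ i ≤ L, z ≠ v i) {j : ℕ} (hj1 : n ≤ j)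
    (hj2 : j + n ≤ L) (hadj : adj x y z (v j)) (hmin : ∀ i < j, ¬ adj x y z (v i)) :
    Many x y n := by
  classical
  -- the earlier points of the path are to the lower left
  have hlt1 : ∀ i, i + 2 ≤ j → ltt x y (v i) z := by
    intro i hi
    rcases adj_or_ltt hx hy (hz i (by omega)) with h1 | h1 | h1
    · exact absurd h1 (hmin i (by omega))
    · exact absurd hadj (h1.trans (h.far i j hi (by omega))).not_adj
    · exact h1
  have hlt : ∀ i < j, ltt x y (v i) z := by
    intro i hi
    rcases Nat.lt_or_ge (i + 1) j with h1 | h1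
    · exact hlt1 i h1
    · rcases adj_or_ltt hx hy (hz i (by omega)) with h2 | h2 | h2
      · exact absurd h2 (hmin i hi)
      · exfalso
        have h3 := (hlt1 (i - 1) (by omega)).trans h2
        have h4 := h.adj (i - 1) (by omega)
        rw [show i - 1 + 1 = i by omega] at h4
        exact h3.not_adj h4
      · exact h2
  obtain ⟨b0, b1, hb01, hB⟩ : ∃ b0 b1 : ℕ, b0 ≠ b1 ∧ ∀ s < 2,
      ∃ r ∈ (Finset.Icc s (s + (n - 1))).image v,
        (∀ j ∈ (Finset.Icc s (s + (n - 1))).image v, ¬ x j < x r) ∧
        (((Finset.Icc s (s + (n - 1))).image v).filter (fun j => y j < y r)).card =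
          if s = 0 then b0 else b1 := by
    rcases h.adj 0 (by omega) with h1 | h1
    · refine ⟨1, 2, by omega, fun s hs => ?_⟩
      rcases Nat.lt_or_ge s 1 with h2 | h2
      · have : s = 0 := by omega
        subst this
        rw [if_pos rfl]
        exact h.stat1 (by omega) (by omega) h1
      · have : s = 1 := by omega
        subst this
        rw [if_neg (by omega)]
        exact h.stat2 (by omega) (by omega) (h.turn1 (by omega) h1)
    · refine ⟨2, 1, by omega, fun s hs => ?_⟩
      rcases Nat.lt_or_ge s 1 with h2 | h2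
      · have : s = 0 := by omega
        subst this
        rw [if_pos rfl]
        exact h.stat2 (by omega) (by omega) h1
      · have : s = 1 := by omega
        subst this
        rw [if_neg (by omega)]
        exact h.stat1 (by omega) (by omega) (h.turn2 (by omega) h1)
  apply many_of (fun k S => (k < n - 3 ∧ (∃ c ∈ S, 3 ≤ deg x y S c ∧ swc x y S c = k) ∧
      (∀ c ∈ S, 3 ≤ deg x y S c → k ≤ swc x y S c)) ∨
    (n - 3 ≤ k ∧ (∀ c ∈ S, ¬ 3 ≤ deg x y S c) ∧ ∃ r ∈ S, (∀ j ∈ S, ¬ x j < x r) ∧
      (S.filter (fun j => y j < y r)).card = if k - (n - 3) = 0 then b0 else b1))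
  · intro k hk
    rcases Nat.lt_or_ge k (n - 3) with hk3 | hk3
    · -- a window with the extra point
      set s := j - 1 - k with hs
      have hjs : s + k + 1 = j := by omega
      have hzS : z ∉ (Finset.Icc s (s + (n - 2))).image v := by
        intro hmem
        obtain ⟨i, hi, hiz⟩ := Finset.mem_image.1 hmem
        rw [Finset.mem_Icc] at hi
        exact hz i (by omega) hiz.symm
      have hmemv : ∀ i, s ≤ i → i ≤ s + (n - 2) → v i ∈ insert z ((Finset.Icc s (s + (n - 2))).image v) := by
        intro i h1 h2
        exact Finset.mem_insert_of_mem (Finset.mem_image.2 ⟨i, Finset.mem_Icc.2 ⟨h1, h2⟩, rfl⟩)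
      refine ⟨insert z ((Finset.Icc s (s + (n - 2))).image v), ?_, ?_, Or.inl ⟨hk3, ⟨v j, ?_, ?_, ?_⟩, ?_⟩⟩
      · rw [Finset.card_insert_of_notMem hzS, h.card_image (by
          intro i hi; rw [Finset.mem_Icc] at hi; omega), Nat.card_Icc]
        omega
      · exact conn_insert (h.conn s (n - 2) (by omega))
          (Finset.mem_image.2 ⟨j, Finset.mem_Icc.2 ⟨by omega, by omega⟩, rfl⟩) hadj.symm
      · exact hmemv j (by omega) (by omega)
      · -- degree of `v j`
        have h1 : ({z, v (j - 1), v (j + 1)} : Finset ι) ⊆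
            (insert z ((Finset.Icc s (s + (n - 2))).image v)).filter (fun i => adj x y i (v j)) := by
          intro i hi
          simp only [Finset.mem_insert, Finset.mem_singleton] at hi
          rw [Finset.mem_filter]
          rcases hi with hi | hi | hi
          · rw [hi]; exact ⟨Finset.mem_insert_self _ _, hadj⟩
          · rw [hi]
            refine ⟨hmemv _ (by omega) (by omega), ?_⟩
            have h4 := h.adj (j - 1) (by omega)
            rwa [show j - 1 + 1 = j by omega] at h4
          · rw [hi]
            exact ⟨hmemv _ (by omega) (by omega), (h.adj j (by omega)).symm⟩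
        have h2 := Finset.card_le_card h1
        rw [Finset.card_eq_three.2 ⟨z, v (j - 1), v (j + 1), hz _ (by omega), hz _ (by omega),
          h.ne (by omega) (by omega), rfl⟩] at h2
        exact h2
      · -- lower left of `v j`
        have h1 : (insert z ((Finset.Icc s (s + (n - 2))).image v)).filter (fun i => ltt x y i (v j)) =
            (Finset.Ico s (j - 1)).image v := by
          ext i
          rw [Finset.mem_filter, Finset.mem_insert]
          constructor
          · rintro ⟨hi | hi, hlt'⟩
            · rw [hi] at hlt'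
              exact absurd hadj hlt'.not_adj
            · obtain ⟨l, hl, rfl⟩ := Finset.mem_image.1 hi
              rw [Finset.mem_Icc] at hl
              refine Finset.mem_image.2 ⟨l, Finset.mem_Ico.2 ⟨hl.1, ?_⟩, rfl⟩
              by_contra hcon
              rcases lt_trichotomy l j with h3 | h3 | h3
              · have h4 := h.adj l (by omega)
                rw [show l + 1 = j by omega] at h4
                exact hlt'.not_adj h4
              · subst h3; exact hlt'.ne rfl
              · rcases Nat.lt_or_ge (j + 1) l with h4 | h4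
                · exact (h.far j l h4 (by omega)).asymm hlt'
                · have h5 := h.adj j (by omega)
                  rw [show j + 1 = l by omega] at h5
                  exact hlt'.not_adj' h5
          · intro hi
            obtain ⟨l, hl, rfl⟩ := Finset.mem_image.1 hi
            rw [Finset.mem_Ico] at hl
            exact ⟨Or.inr (Finset.mem_image.2 ⟨l, Finset.mem_Icc.2 ⟨hl.1, by omega⟩, rfl⟩),
              h.far l j (by omega) (by omega)⟩
        unfold swc
        rw [h1, h.card_image (by intro i hi; rw [Finset.mem_Ico] at hi; omega), Nat.card_Ico]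
        omega
      · -- minimality
        intro c hc hdeg
        rcases Finset.mem_insert.1 hc with hcz | hcv
        · rw [hcz]
          have h1 : (Finset.Ico s j).image v ⊆
              (insert z ((Finset.Icc s (s + (n - 2))).image v)).filter (fun i => ltt x y i z) := by
            intro i hi
            obtain ⟨l, hl, rfl⟩ := Finset.mem_image.1 hi
            rw [Finset.mem_Ico] at hl
            exact Finset.mem_filter.2 ⟨hmemv l (by omega) (by omega), hlt l hl.2⟩
          have h2 := Finset.card_le_card h1
          rw [h.card_image (by intro i hi; rw [Finset.mem_Ico] at hi; omega), Nat.card_Ico] at h2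
          unfold swc
          omega
        · obtain ⟨i, hi, hic⟩ := Finset.mem_image.1 hcv
          subst hic
          rw [Finset.mem_Icc] at hi
          have hiz : adj x y z (v i) := by
            by_contra hcon
            have h1 := h.deg_le (s := s) (t := s + (n - 2)) (by omega)
              (S := insert z ((Finset.Icc s (s + (n - 2))).image v)) (i := i) (by omega) (by
              intro l hl hla
              rcases Finset.mem_insert.1 hl with h3 | h3
              · rw [h3] at hla; exact absurd hla hcon
              · exact h3)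
            omega
          have hji : j ≤ i := by
            by_contra hcon
            exact hmin i (by omega) hiz
          have h1 : (Finset.Ico s (i - 1)).image v ⊆
              (insert z ((Finset.Icc s (s + (n - 2))).image v)).filter (fun l => ltt x y l (v i)) := by
            intro l hl
            obtain ⟨m, hm, rfl⟩ := Finset.mem_image.1 hl
            rw [Finset.mem_Ico] at hm
            exact Finset.mem_filter.2 ⟨hmemv m (by omega) (by omega), h.far m i (by omega) (by omega)⟩
          have h2 := Finset.card_le_card h1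
          rw [h.card_image (by intro i hi; rw [Finset.mem_Ico] at hi; omega), Nat.card_Ico] at h2
          unfold swc
          omega
    · -- oscillation
      set s := k - (n - 3) with hs
      refine ⟨(Finset.Icc s (s + (n - 1))).image v, ?_, h.conn s (n - 1) (by omega), Or.inr ⟨hk3, ?_, ?_⟩⟩
      · rw [h.card_image (by intro i hi; rw [Finset.mem_Icc] at hi; omega), Nat.card_Icc]
        omega
      · intro c hc
        obtain ⟨i, hi, rfl⟩ := Finset.mem_image.1 hc
        rw [Finset.mem_Icc] at hi
        have := h.deg_le (s := s) (t := s + (n - 1)) (by omega)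
              (S := (Finset.Icc s (s + (n - 1))).image v) (i := i) (by omega) (fun l hl _ => hl)
        omega
      · exact hB s (by omega)
  · rintro k hk l hl S S' e h1 h2 he
    rcases h1 with ⟨hk3, ⟨c, hc, hcd, hcs⟩, hmin1⟩ | ⟨hk3, hno, r, hr, hr1, hr2⟩
    · rcases h2 with ⟨hl3, ⟨c', hc', hcd', hcs'⟩, hmin2⟩ | ⟨hl3, hno, _⟩
      · have h3 := hmin2 (e c) (he.maps c hc) (by rw [← he.deg hx hc]; exact hcd)
        rw [← he.swc hx hc, hcs] at h3
        obtain ⟨c2, hc2, rfl⟩ := he.surj c' hc'
        rw [← he.deg hx hc2] at hcd'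
        rw [← he.swc hx hc2] at hcs'
        have h4 := hmin1 c2 hc2 hcd'
        omega
      · exfalso
        exact hno (e c) (he.maps c hc) (by rw [← he.deg hx hc]; exact hcd)
    · rcases h2 with ⟨hl3, ⟨c', hc', hcd', _⟩, _⟩ | ⟨hl3, _, r', hr', hr1', hr2'⟩
      · exfalso
        obtain ⟨c2, hc2, rfl⟩ := he.surj c' hc'
        rw [← he.deg hx hc2] at hcd'
        exact hno c2 hc2 hcd'
      · have h5 : e r = r' := by
          apply hx
          have h6 := hr1' _ (he.maps r hr)
          obtain ⟨i, hi, hi'⟩ := he.surj r' hr'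
          have h7 := hr1 i hi
          rw [he.presx i hi r hr, hi'] at h7
          omega
        have h8 := he.card_rel hx (fun j i => y j < y i) he.presy hr
        rw [hr2, h5, hr2'] at h8
        by_cases hk0 : k - (n - 3) = 0
        · by_cases hl0 : l - (n - 3) = 0
          · omega
          · rw [if_pos hk0, if_neg hl0] at h8
            exact absurd h8 hb01
        · by_cases hl0 : l - (n - 3) = 0
          · rw [if_neg hk0, if_pos hl0] at h8
            exact absurd h8.symm hb01
          · omega

/-- geodesics starting at a leftmost point are oscillations -/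
theorem isOsc_of_geodesic (hx : Function.Injective x) (hy : Function.Injective y)
    {v : ℕ → ι} {L : ℕ} {d : ι → ℕ} (hd : ∀ u w, adj x y u w → d u ≤ d w + 1)
    (hv : ∀ i ≤ L, d (v i) = i) (ha : ∀ i < L, adj x y (v i) (v (i + 1)))
    (h0 : ∀ z, ¬ x z < x (v 0)) : IsOsc x y v L := by
  refine ⟨ha, ?_⟩
  have hna : ∀ i j, i + 2 ≤ j → j ≤ L → ltt x y (v i) (v j) ∨ ltt x y (v j) (v i) := by
    intro i j hij hj
    have hne : v i ≠ v j := by
      intro he
      have h1 := hv i (by omega)
      have h2 := hv j hj
      rw [he] at h1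
      omega
    rcases adj_or_ltt hx hy hne with h | h | h
    · have h1 := hd _ _ h.symm
      rw [hv i (by omega), hv j hj] at h1
      omega
    · exact Or.inl h
    · exact Or.inr h
  intro i
  induction i with
  | zero =>
    intro j hj hjL
    rcases hna 0 j hj hjL with h | h
    · exact h
    · exact absurd h.1 (h0 _)
  | succ i ih =>
    intro j hj hjL
    rcases hna (i + 1) j hj hjL with h | h
    · exact h
    · exfalso
      exact ((ih j (by omega) hjL).trans h).not_adj (ha i (by omega))

/-- the middle of a long geodesic has no other neighbours -/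
theorem geodesic_mid {n : ℕ} (hn : 3 ≤ n) (hx : Function.Injective x) (hy : Function.Injective y)
    (hM : ¬ Many x y n)
    {v : ℕ → ι} {L : ℕ} {d : ι → ℕ} (hd : ∀ u w, adj x y u w → d u ≤ d w + 1)
    (hv : ∀ i ≤ L, d (v i) = i) (h : IsOsc x y v L) {z : ι} (hz : ∀ i ≤ L, z ≠ v i)
    {j : ℕ} (hj1 : n + 2 ≤ j) (hj2 : j + n ≤ L) : ¬ adj x y z (v j) := by
  classical
  intro hadj
  have hex : ∃ i, adj x y z (v i) := ⟨j, hadj⟩
  have h1 := Nat.find_spec hex
  have h2 : Nat.find hex ≤ j := Nat.find_min' hex hadj
  have h3 : j ≤ Nat.find hex + 2 := by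
    have h4 := hd _ _ h1
    have h5 := hd _ _ hadj.symm
    rw [hv _ (by omega)] at h4
    rw [hv _ (by omega)] at h5
    omega
  exact hM (path_lemma hn hx hy h hz (j := Nat.find hex) (by omega) (by omega) h1
    (fun i hi => Nat.find_min hex hi))

end Pool.Agent.H41.IndSum
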