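import Pool.Agent.H41.IndSum.TypeA
import Pool.Agent.H41.IndSum.Path

open Finset

set_option linter.unusedSectionVars false

namespace Pool.Agent.H41.IndSum

/-- the position -/
def px {N : ℕ} (i : Fin N) : ℤ := ((i : ℕ) : ℤ)

/-- the value -/
def py {N : ℕ} (π : Equiv.Perm (Fin N)) (i : Fin N) : ℤ := ((π i : ℕ) : ℤ)

theorem px_inj {N : ℕ} : Function.Injective (px : Fin N → ℤ) := by
  intro i j h
  unfold px at h
  exact Fin.ext (by exact_mod_cast h)

theorem py_inj {N : ℕ} (π : Equiv.Perm (Fin N)) : Function.Injective (py π) := by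
  intro i j h
  unfold py at h
  exact π.injective (Fin.ext (by exact_mod_cast h))

theorem px_lt {N : ℕ} {i j : Fin N} : px i < px j ↔ (i : ℕ) < j := by
  unfold px; exact_mod_cast Iff.rfl

theorem py_lt {N : ℕ} {π : Equiv.Perm (Fin N)} {i j : Fin N} : py π i < py π j ↔ (π i : ℕ) < π j := by
  unfold py; exact_mod_cast Iff.rfl

section

variable {N : ℕ} {π : Equiv.Perm (Fin N)} {K : Finset (Fin N)} {E : ℕ}

theorem homog_pos {z : Fin N} (h : Homog px (py π) K z) :
    (∀ k ∈ K, (z : ℕ) < k) ∨ (∀ k ∈ K, (k : ℕ) < z) := by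
  rcases h with h | h | h | h
  · exact Or.inl (fun k hk => px_lt.1 (h k hk).1)
  · exact Or.inr (fun k hk => px_lt.1 (h k hk).1)
  · exact Or.inl (fun k hk => px_lt.1 (h k hk).1)
  · exact Or.inr (fun k hk => px_lt.1 (h k hk).1)

theorem homog_val {z : Fin N} (h : Homog px (py π) K z) :
    (∀ k ∈ K, (π z : ℕ) < π k) ∨ (∀ k ∈ K, (π k : ℕ) < π z) := by
  rcases h with h | h | h | h
  · exact Or.inl (fun k hk => py_lt.1 (h k hk).2)
  · exact Or.inr (fun k hk => py_lt.1 (h k hk).2)
  · exact Or.inr (fun k hk => py_lt.1 (h k hk).2)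
  · exact Or.inl (fun k hk => py_lt.1 (h k hk).2)

/-- the positions in the middle belong to the interval -/
theorem mem_of_mid (hh : ∀ z, z ∉ K → Homog px (py π) K z) (hE : Kᶜ.card ≤ E) {i : Fin N}
    (h1 : E ≤ (i : ℕ)) (h2 : (i : ℕ) + E < N) : i ∈ K := by
  by_contra hi
  rcases homog_pos (hh i hi) with h | h
  · have h3 : Finset.Iic i ⊆ Kᶜ := by
      intro j hj
      rw [Finset.mem_compl]
      intro hjK
      have h4 := h j hjK
      rw [Finset.mem_Iic, Fin.le_def] at hj
      omega
    have h4 := Finset.card_le_card h3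
    rw [Fin.card_Iic] at h4
    omega
  · have h3 : Finset.Ici i ⊆ Kᶜ := by
      intro j hj
      rw [Finset.mem_compl]
      intro hjK
      have h4 := h j hjK
      rw [Finset.mem_Ici, Fin.le_def] at hj
      omega
    have h4 := Finset.card_le_card h3
    rw [Fin.card_Ici] at h4
    omega

theorem clique_lt (hK : Clique px (py π) K) {i j : Fin N} (hi : i ∈ K) (hj : j ∈ K)
    (hij : (i : ℕ) < j) : (π j : ℕ) < π i := by
  rcases hK i hi j hj (by rintro rfl; omega) with h | h
  · exact py_lt.1 h.2
  · have := px_lt.1 h.1; omega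

theorem chain_lt (hK : Chain px (py π) K) {i j : Fin N} (hi : i ∈ K) (hj : j ∈ K)
    (hij : (i : ℕ) < j) : (π i : ℕ) < π j := by
  rcases hK i hi j hj (by rintro rfl; omega) with h | h
  · exact py_lt.1 h.2
  · have := px_lt.1 h.1; omega

theorem clique_step (hK : Clique px (py π) K) (hh : ∀ z, z ∉ K → Homog px (py π) K z)
    {i j : Fin N} (hi : i ∈ K) (hj : j ∈ K) (hij : (j : ℕ) = i + 1) : (π i : ℕ) = π j + 1 := by
  have h1 := clique_lt hK hi hj (by omega)
  by_contra hne
  have hlt : (π j : ℕ) + 1 < N := by have := (π i).2; omega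
  set m := π.symm ⟨(π j : ℕ) + 1, hlt⟩ with hm
  have hπm : (π m : ℕ) = π j + 1 := by rw [hm, Equiv.apply_symm_apply]
  by_cases hmK : m ∈ K
  · rcases lt_trichotomy (m : ℕ) i with h | h | h
    · have := clique_lt hK hmK hi h; omega
    · have : m = i := Fin.ext h
      rw [this] at hπm; omega
    · rcases lt_trichotomy (m : ℕ) j with h' | h' | h'
      · omega
      · have : m = j := Fin.ext h'
        rw [this] at hπm; omega
      · have := clique_lt hK hj hmK h'; omega
  · rcases homog_val (hh m hmK) with h | h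
    · have := h j hj; omega
    · have := h i hi; omega

theorem chain_step (hK : Chain px (py π) K) (hh : ∀ z, z ∉ K → Homog px (py π) K z)
    {i j : Fin N} (hi : i ∈ K) (hj : j ∈ K) (hij : (j : ℕ) = i + 1) : (π j : ℕ) = π i + 1 := by
  have h1 := chain_lt hK hi hj (by omega)
  by_contra hne
  have hlt : (π i : ℕ) + 1 < N := by have := (π j).2; omega
  set m := π.symm ⟨(π i : ℕ) + 1, hlt⟩ with hm
  have hπm : (π m : ℕ) = π i + 1 := by rw [hm, Equiv.apply_symm_apply]
  by_cases hmK : m ∈ K
  · rcases lt_trichotomy (m : ℕ) i with h | h | h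
    · have := chain_lt hK hmK hi h; omega
    · have : m = i := Fin.ext h
      rw [this] at hπm; omega
    · rcases lt_trichotomy (m : ℕ) j with h' | h' | h'
      · omega
      · have : m = j := Fin.ext h'
        rw [this] at hπm; omega
      · have := chain_lt hK hj hmK h'; omega
  · rcases homog_val (hh m hmK) with h | h
    · have := h i hi; omega
    · have := h j hj; omega

theorem clique_line (hK : Clique px (py π) K) (hh : ∀ z, z ∉ K → Homog px (py π) K z)
    (hE : Kᶜ.card ≤ E) (hN : E + E < N) :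
    ∀ s (hs : E + s + E < N), (π ⟨E + s, by omega⟩ : ℕ) + s = π ⟨E, by omega⟩ := by
  intro s
  induction s with
  | zero => intro hs; rfl
  | succ s ih =>
    intro hs
    have h1 := ih (by omega)
    have h2 := clique_step hK hh (i := ⟨E + s, by omega⟩) (j := ⟨E + (s + 1), by omega⟩)
      (mem_of_mid hh hE (by simp) (by simp; omega)) (mem_of_mid hh hE (by simp) (by simp; omega))
      (by simp; omega)
    omega

theorem chain_line (hK : Chain px (py π) K) (hh : ∀ z, z ∉ K → Homog px (py π) K z)
    (hE : Kᶜ.card ≤ E) (hN : E + E < N) :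
    ∀ s (hs : E + s + E < N), (π ⟨E + s, by omega⟩ : ℕ) = π ⟨E, by omega⟩ + s := by
  intro s
  induction s with
  | zero => intro hs; rfl
  | succ s ih =>
    intro hs
    have h1 := ih (by omega)
    have h2 := chain_step hK hh (i := ⟨E + s, by omega⟩) (j := ⟨E + (s + 1), by omega⟩)
      (mem_of_mid hh hE (by simp) (by simp; omega)) (mem_of_mid hh hE (by simp) (by simp; omega))
      (by simp; omega)
    omega

/-- a decreasing interval with a small complement -/
theorem clique_rule (hK : Clique px (py π) K) (hh : ∀ z, z ∉ K → Homog px (py π) K z)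
    (hE : Kᶜ.card ≤ E) :
    ∃ δ : ℤ, |δ| ≤ 2 * E ∧ ∀ i : Fin N, E ≤ (i : ℕ) → (i : ℕ) + E < N →
      ((π i : ℕ) : ℤ) = N - 1 - (i : ℕ) + δ := by
  rcases Nat.lt_or_ge (E + E) N with hN | hN
  · set i0 : Fin N := ⟨E, by omega⟩ with hi0
    have hi0K : i0 ∈ K := mem_of_mid hh hE (by simp [hi0]) (by simp [hi0]; omega)
    -- few points above `i0`
    have h1 : (Finset.Ioi (π i0)).card ≤ E + E := by
      have h2 : (Finset.Ioi (π i0)) ⊆ (Kᶜ ∪ Finset.Iio i0).image π := by
        intro w hw
        rw [Finset.mem_Ioi, Fin.lt_def] at hw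
        refine Finset.mem_image.2 ⟨π.symm w, ?_, Equiv.apply_symm_apply _ _⟩
        by_contra hcon
        rw [Finset.mem_union, not_or, Finset.mem_compl, not_not, Finset.mem_Iio, Fin.lt_def] at hcon
        obtain ⟨hwK, hwi⟩ := hcon
        rcases Nat.lt_or_ge (i0 : ℕ) (π.symm w) with h3 | h3
        · have h4 := clique_lt hK hi0K hwK h3
          rw [Equiv.apply_symm_apply] at h4
          omega
        · have h4 : i0 = π.symm w := Fin.ext (by omega)
          rw [h4, Equiv.apply_symm_apply] at hw
          omega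
      have h3 := Finset.card_le_card h2
      have h4 : ((Kᶜ ∪ Finset.Iio i0).image π).card ≤ (Kᶜ ∪ Finset.Iio i0).card := Finset.card_image_le
      have h5 := Finset.card_union_le Kᶜ (Finset.Iio i0)
      rw [Fin.card_Iio] at h5
      have h6 : (i0 : ℕ) = E := rfl
      rw [h6] at h5
      omega
    rw [Fin.card_Ioi] at h1
    have h2 := (π i0).2
    refine ⟨((π i0 : ℕ) : ℤ) + E - (N - 1), ?_, ?_⟩
    · rw [abs_le]
      constructor
      · push_cast at h1 ⊢; omega
      · push_cast; omega
    · intro i h3 h4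
      have h5 := clique_line hK hh hE hN (i - E) (by omega)
      have h6 : (⟨E + (i - E), by omega⟩ : Fin N) = i := Fin.ext (by simp; omega)
      rw [h6] at h5
      rw [← hi0] at h5
      omega
  · refine ⟨0, by simp, fun i h3 h4 => by omega⟩

/-- an increasing interval with a small complement -/
theorem chain_rule (hK : Chain px (py π) K) (hh : ∀ z, z ∉ K → Homog px (py π) K z)
    (hE : Kᶜ.card ≤ E) :
    ∃ δ : ℤ, |δ| ≤ 2 * E ∧ ∀ i : Fin N, E ≤ (i : ℕ) → (i : ℕ) + E < N →
      ((π i : ℕ) : ℤ) = (i : ℕ) + δ := by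
  rcases Nat.lt_or_ge (E + E) N with hN | hN
  · set i0 : Fin N := ⟨E, by omega⟩ with hi0
    have hi0K : i0 ∈ K := mem_of_mid hh hE (by simp [hi0]) (by simp [hi0]; omega)
    have h1 : (Finset.Iio (π i0)).card ≤ E + E := by
      have h2 : (Finset.Iio (π i0)) ⊆ (Kᶜ ∪ Finset.Iio i0).image π := by
        intro w hw
        rw [Finset.mem_Iio, Fin.lt_def] at hw
        refine Finset.mem_image.2 ⟨π.symm w, ?_, Equiv.apply_symm_apply _ _⟩
        by_contra hcon
        rw [Finset.mem_union, not_or, Finset.mem_compl, not_not, Finset.mem_Iio, Fin.lt_def] at hcon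
        obtain ⟨hwK, hwi⟩ := hcon
        rcases Nat.lt_or_ge (i0 : ℕ) (π.symm w) with h3 | h3
        · have h4 := chain_lt hK hi0K hwK h3
          rw [Equiv.apply_symm_apply] at h4
          omega
        · have h4 : i0 = π.symm w := Fin.ext (by omega)
          rw [h4, Equiv.apply_symm_apply] at hw
          omega
      have h3 := Finset.card_le_card h2
      have h4 : ((Kᶜ ∪ Finset.Iio i0).image π).card ≤ (Kᶜ ∪ Finset.Iio i0).card := Finset.card_image_le
      have h5 := Finset.card_union_le Kᶜ (Finset.Iio i0)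
      rw [Fin.card_Iio] at h5
      have h6 : (i0 : ℕ) = E := rfl
      rw [h6] at h5
      omega
    rw [Fin.card_Iio] at h1
    refine ⟨((π i0 : ℕ) : ℤ) - E, ?_, ?_⟩
    · rw [abs_le]
      constructor
      · push_cast; omega
      · push_cast; omega
    · intro i h3 h4
      have h5 := chain_line hK hh hE hN (i - E) (by omega)
      have h6 : (⟨E + (i - E), by omega⟩ : Fin N) = i := Fin.ext (by simp; omega)
      rw [h6] at h5
      rw [← hi0] at h5
      omega
  · refine ⟨0, by simp, fun i h3 h4 => by omega⟩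

end

end Pool.Agent.H41.IndSum
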