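import Pool.Agent.H41.IndSum.Struct

open Finset

set_option linter.unusedSectionVars false

namespace Pool.Agent.H41.IndSum

/-! ## Permutations of all lengths -/

/-- The permutations of all lengths: `⟨n, π⟩` with `π` a permutation of `Fin n`. -/
abbrev AllPerm : Type := Σ n : ℕ, Equiv.Perm (Fin n)

/-- `π` contains `σ`: some subsequence of `π` is order-isomorphic to `σ`. -/
def Contains (π σ : AllPerm) : Prop :=
  ∃ f : Fin σ.1 ↪o Fin π.1, ∀ i j, σ.2 i < σ.2 j ↔ π.2 (f i) < π.2 (f j)

/-- A permutation class: a set of permutations which is closed under containment. -/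
def IsClass (C : Set AllPerm) : Prop := ∀ π ∈ C, ∀ σ, Contains π σ → σ ∈ C

/-- The direct sum `α ⊕ β`: it maps `i` to `α i` for `i < k` and `k + j` to `k + β j` for `j < m`,
where `k` and `m` are the lengths of `α` and `β`. -/
def directSum (α β : AllPerm) : AllPerm :=
  ⟨α.1 + β.1, finSumFinEquiv.permCongr (Equiv.sumCongr α.2 β.2)⟩

/-- A permutation is indecomposable if it is not the direct sum of two nonempty permutations. -/
def Indecomposable (π : AllPerm) : Prop :=
  ∀ α β : AllPerm, 0 < α.1 → 0 < β.1 → π ≠ directSum α β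

/-- The indecomposable permutations of length `n` in `C`. -/
def ind (C : Set AllPerm) (n : ℕ) : Set AllPerm := {π ∈ C | π.1 = n ∧ Indecomposable π}

/-! ## Indecomposability and connectedness -/

theorem directSum_val_lt (α β : AllPerm) (i : Fin (α.1 + β.1)) (hi : (i : ℕ) < α.1) :
    (((directSum α β).2 i : Fin (α.1 + β.1)) : ℕ) < α.1 := by
  have h1 : i = Fin.castAdd β.1 ⟨i, hi⟩ := Fin.ext rfl
  unfold directSum
  rw [h1, Equiv.permCongr_apply, finSumFinEquiv_symm_apply_castAdd]
  simp

theorem directSum_val_ge (α β : AllPerm) (i : Fin (α.1 + β.1)) (hi : α.1 ≤ (i : ℕ)) :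
    α.1 ≤ (((directSum α β).2 i : Fin (α.1 + β.1)) : ℕ) := by
  have h2 := i.2
  have h1 : i = Fin.natAdd α.1 ⟨(i : ℕ) - α.1, by omega⟩ := Fin.ext (by simp; omega)
  unfold directSum
  rw [h1, Equiv.permCongr_apply, finSumFinEquiv_symm_apply_natAdd]
  simp

/-- a cut yields a decomposition -/
theorem decomp_of_cut {N t : ℕ} (π : Equiv.Perm (Fin N)) (ht0 : 0 < t) (htN : t < N)
    (hcut : ∀ p q : Fin N, (p : ℕ) < t → t ≤ (q : ℕ) → π p < π q) :
    ¬ Indecomposable ⟨N, π⟩ := by
  obtain ⟨m, rfl⟩ := Nat.exists_eq_add_of_le htN.le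
  -- the first `t` positions have the first `t` values
  have h1 : ∀ p : Fin (t + m), (p : ℕ) < t → (π p : ℕ) < t := by
    intro p hp
    by_contra hcon
    have h2 : (Finset.univ.filter (fun q : Fin (t + m) => t ≤ (q : ℕ))).image π ⊆ Finset.Ioi (π p) := by
      intro w hw
      obtain ⟨q, hq, rfl⟩ := Finset.mem_image.1 hw
      rw [Finset.mem_Ioi]
      exact hcut p q hp (Finset.mem_filter.1 hq).2
    have h3 := Finset.card_le_card h2
    rw [Finset.card_image_of_injective _ π.injective, Fin.card_Ioi] at h3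
    have h4 : (Finset.univ.filter (fun q : Fin (t + m) => t ≤ (q : ℕ))) = Finset.Ici ⟨t, htN⟩ := by
      ext q; simp [Fin.le_def]
    rw [h4, Fin.card_Ici] at h3
    simp only at h3
    have h5 := (π p).2
    omega
  intro hind
  let τ : Equiv.Perm (Fin t ⊕ Fin m) := finSumFinEquiv.symm.permCongr π
  have hτ : Set.MapsTo τ (Set.range Sum.inl) (Set.range Sum.inl) := by
    rintro _ ⟨i, rfl⟩
    have h2 := h1 (Fin.castAdd m i) (by simp)
    refine ⟨⟨_, h2⟩, ?_⟩
    apply finSumFinEquiv.injective
    rw [finSumFinEquiv_apply_left]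
    show _ = finSumFinEquiv (finSumFinEquiv.symm (π (finSumFinEquiv (Sum.inl i))))
    rw [Equiv.apply_symm_apply, finSumFinEquiv_apply_left]
    exact Fin.ext rfl
  obtain ⟨⟨α, β⟩, hαβ⟩ := Equiv.Perm.mem_sumCongrHom_range_of_perm_mapsTo_inl hτ
  apply hind ⟨t, α⟩ ⟨m, β⟩ ht0 (by simp only; omega)
  have h3 : π = finSumFinEquiv.permCongr (Equiv.sumCongr α β) := by
    have h4 : Equiv.sumCongr α β = τ := hαβ
    rw [h4]
    apply Equiv.ext
    intro i
    rw [Equiv.permCongr_apply]
    show _ = finSumFinEquiv (finSumFinEquiv.symm (π (finSumFinEquiv (finSumFinEquiv.symm i))))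
    rw [Equiv.apply_symm_apply, Equiv.apply_symm_apply]
  unfold directSum
  exact congrArg (Sigma.mk (t + m)) h3

/-- the inversion graph of an indecomposable permutation is connected -/
theorem conn_of_indecomposable {N : ℕ} (π : Equiv.Perm (Fin N)) (h : Indecomposable ⟨N, π⟩) :
    Conn px (py π) univ := by
  intro A _ hne hA
  by_contra hcon
  push Not at hcon
  have hna : ∀ a ∈ A, ∀ b, b ∉ A → ¬ adj px (py π) a b := fun a ha b hb =>
    hcon a ha b (Finset.mem_univ b) hb
  -- comparison of points on different sides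
  have hcmp : ∀ a b : Fin N, (a ∈ A ↔ b ∉ A) → (a : ℕ) < b → (π a : ℕ) < π b := by
    intro a b hab hlt
    have hnadj : ¬ adj px (py π) a b := by
      by_cases ha : a ∈ A
      · exact hna a ha b (hab.1 ha)
      · intro h'
        have hb : b ∈ A := by
          by_contra hb
          exact ha (hab.2 hb)
        exact hna b hb a ha h'.symm
    have hne' : (π a : ℕ) ≠ π b := by
      intro he
      have := π.injective (Fin.ext he)
      subst this; omega
    by_contra hge
    exact hnadj (Or.inl ⟨px_lt.2 hlt, py_lt.2 (by omega)⟩)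
  -- two consecutive positions on different sides
  obtain ⟨i, hi1, hi2⟩ : ∃ i : ℕ, ∃ h1 : i + 1 < N,
      ((⟨i, by omega⟩ : Fin N) ∈ A ↔ (⟨i + 1, h1⟩ : Fin N) ∉ A) := by
    by_contra hno
    push Not at hno
    have hconst : ∀ i (hi : i < N), ((⟨i, hi⟩ : Fin N) ∈ A ↔ (⟨0, by omega⟩ : Fin N) ∈ A) := by
      intro i
      induction i with
      | zero => intro hi; exact Iff.rfl
      | succ i ih =>
        intro hi
        have h1 := ih (by omega)
        have h2 := hno i hi
        rw [← h1]
        by_cases h3 : (⟨i, by omega⟩ : Fin N) ∈ A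
        · by_cases h4 : (⟨i + 1, hi⟩ : Fin N) ∈ A
          · exact ⟨fun _ => h3, fun _ => h4⟩
          · rcases h2 with h5 | h5
            · exact absurd h5.2 h4
            · exact absurd h3 h5.1
        · by_cases h4 : (⟨i + 1, hi⟩ : Fin N) ∈ A
          · rcases h2 with h5 | h5
            · exact absurd h5.1 h3
            · exact absurd h4 h5.2
          · exact ⟨fun h => absurd h h4, fun h => absurd h h3⟩
    obtain ⟨a, ha⟩ := hne
    apply hA
    rw [Finset.eq_univ_iff_forall]
    intro b
    exact (hconst b b.2).2 ((hconst a a.2).1 ha)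
  refine decomp_of_cut π (t := i + 1) (by omega) hi1 ?_ h
  intro p q hp hq
  rw [Fin.lt_def]
  set u : Fin N := ⟨i, by omega⟩ with hu
  set w : Fin N := ⟨i + 1, hi1⟩ with hw
  have huv : (u : ℕ) = i := rfl
  have hwv : (w : ℕ) = i + 1 := rfl
  by_cases hpq : (p ∈ A ↔ q ∉ A)
  · exact hcmp p q hpq (by omega)
  · -- same side
    by_cases hpu : (p ∈ A ↔ w ∉ A)
    · have hqw : (w ∈ A ↔ q ∉ A) := by tauto
      have h1 := hcmp p w hpu (by omega)
      have hne' : w ≠ q := by
        rintro he
        rw [← he] at hqw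
        tauto
      have h2 := hcmp w q hqw (by
        have : (w : ℕ) ≠ q := fun he => hne' (Fin.ext he)
        omega)
      omega
    · have hpu' : (p ∈ A ↔ u ∉ A) := by tauto
      have hqu : (u ∈ A ↔ q ∉ A) := by tauto
      have hne' : p ≠ u := by
        rintro he
        rw [he] at hpu'
        tauto
      have h1 := hcmp p u hpu' (by
        have : (p : ℕ) ≠ u := fun he => hne' (Fin.ext he)
        omega)
      have h2 := hcmp u q hqu (by omega)
      omega

/-! ## Patterns of subsets -/

/-- the pattern of a subset -/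
theorem exists_pattern {N n : ℕ} (π : Equiv.Perm (Fin N)) {S : Finset (Fin N)} (hS : S.card = n) :
    ∃ σ : Equiv.Perm (Fin n), ∀ i j, σ i < σ j ↔
      π (S.orderEmbOfFin hS i) < π (S.orderEmbOfFin hS j) := by
  classical
  have hT : (S.image π).card = n := by
    rw [Finset.card_image_of_injective _ π.injective]; exact hS
  let g := (S.image π).orderIsoOfFin hT
  let φ : Fin n → Fin n := fun i => g.symm ⟨π (S.orderEmbOfFin hS i),
    Finset.mem_image_of_mem _ (Finset.orderEmbOfFin_mem S hS i)⟩
  have hlt : ∀ i j, φ i < φ j ↔ π (S.orderEmbOfFin hS i) < π (S.orderEmbOfFin hS j) := by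
    intro i j
    show g.symm _ < g.symm _ ↔ _
    rw [OrderIso.lt_iff_lt]
    exact Iff.rfl
  have hinj : Function.Injective φ := by
    intro i j hij
    have h1 := g.symm.injective hij
    have h2 := π.injective (Subtype.ext_iff.1 h1)
    exact (S.orderEmbOfFin hS).injective h2
  refine ⟨Equiv.ofBijective φ (Finite.injective_iff_bijective.1 hinj), ?_⟩
  intro i j
  exact hlt i j

/-- the pattern of a connected set is indecomposable -/
theorem indecomposable_pattern {N n : ℕ} (π : Equiv.Perm (Fin N)) {S : Finset (Fin N)}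
    (hS : S.card = n) (hc : Conn px (py π) S) (σ : Equiv.Perm (Fin n))
    (hσ : ∀ i j, σ i < σ j ↔ π (S.orderEmbOfFin hS i) < π (S.orderEmbOfFin hS j)) :
    Indecomposable ⟨n, σ⟩ := by
  classical
  intro α β hα hβ he
  have hn : n = α.1 + β.1 := congrArg Sigma.fst he
  subst hn
  have hσ' : σ = (directSum α β).2 := by
    have := Sigma.mk.inj_iff.1 he
    exact eq_of_heq this.2
  set f := S.orderEmbOfFin hS with hf
  have hsurj : ∀ z ∈ S, ∃ i, f i = z := by
    intro z hz
    have : z ∈ Set.range f := by rw [hf, Finset.range_orderEmbOfFin]; exact hz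
    exact this
  obtain ⟨a, ha, b, hb, hbA, hab⟩ := hc (S.filter (fun z => ∃ i : Fin (α.1 + β.1), (i : ℕ) < α.1 ∧ f i = z))
    (Finset.filter_subset _ _) ⟨f ⟨0, by omega⟩, Finset.mem_filter.2
      ⟨Finset.orderEmbOfFin_mem S hS _, ⟨⟨0, by omega⟩, hα, rfl⟩⟩⟩ (by
      intro he'
      have h1 : f ⟨α.1, by omega⟩ ∈ S := Finset.orderEmbOfFin_mem S hS _
      rw [← he', Finset.mem_filter] at h1
      obtain ⟨_, i, hi, hfi⟩ := h1
      have h2 := f.injective hfi
      rw [h2] at hi
      simp at hi)
  obtain ⟨_, i, hi, rfl⟩ := Finset.mem_filter.1 ha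
  obtain ⟨j, rfl⟩ := hsurj b hb
  have hj : α.1 ≤ (j : ℕ) := by
    by_contra hcon
    exact hbA (Finset.mem_filter.2 ⟨hb, j, by omega, rfl⟩)
  have h1 : σ i < σ j := by
    rw [Fin.lt_def, hσ']
    exact (directSum_val_lt α β i hi).trans_le (directSum_val_ge α β j hj)
  have h2 : f i < f j := f.lt_iff_lt.2 (by rw [Fin.lt_def]; omega)
  have h3 : ltt px (py π) (f i) (f j) := ⟨px_lt.2 h2, py_lt.2 ((hσ i j).1 h1)⟩
  exact h3.not_adj hab

theorem finite_len (n : ℕ) : {π : AllPerm | π.1 = n}.Finite := by
  have : {π : AllPerm | π.1 = n} ⊆ Set.range (fun σ : Equiv.Perm (Fin n) => (⟨n, σ⟩ : AllPerm)) := by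
    rintro ⟨m, π⟩ h
    have h' : m = n := h
    subst h'
    exact ⟨π, rfl⟩
  exact (Set.finite_range _).subset this

/-- many connected sets yield many indecomposable patterns -/
theorem ind_of_many {C : Set AllPerm} (hC : IsClass C) {N n : ℕ} {π : Equiv.Perm (Fin N)}
    (hπ : (⟨N, π⟩ : AllPerm) ∈ C) (hM : Many px (py π) n) : n - 1 ≤ (ind C n).ncard := by
  classical
  obtain ⟨F, h1, h2⟩ := hM
  choose σ hσ using fun k => exists_pattern π (h1 k).1
  have hmem : ∀ k, (⟨n, σ k⟩ : AllPerm) ∈ ind C n := by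
    intro k
    refine ⟨hC _ hπ _ ⟨(F k).orderEmbOfFin (h1 k).1, hσ k⟩, rfl, ?_⟩
    exact indecomposable_pattern π (h1 k).1 (h1 k).2 (σ k) (hσ k)
  have hinj : Function.Injective (fun k => (⟨n, σ k⟩ : AllPerm)) := by
    intro k l hkl
    have hkl' : σ k = σ l := by
      have := Sigma.mk.inj_iff.1 hkl
      exact eq_of_heq this.2
    set f := (F k).orderEmbOfFin (h1 k).1 with hf
    set g := (F l).orderEmbOfFin (h1 l).1 with hg
    have hfs : ∀ z ∈ F k, ∃ i, f i = z := by
      intro z hz
      have : z ∈ Set.range f := by rw [hf, Finset.range_orderEmbOfFin]; exact hz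
      exact this
    have hgs : ∀ z ∈ F l, ∃ i, g i = z := by
      intro z hz
      have : z ∈ Set.range g := by rw [hg, Finset.range_orderEmbOfFin]; exact hz
      exact this
    -- the map from `F k` to `F l`
    let e : Fin N → Fin N := fun z => if h : ∃ i, f i = z then g h.choose else z
    have he : ∀ i, e (f i) = g i := by
      intro i
      have h : ∃ j, f j = f i := ⟨i, rfl⟩
      show (if h : ∃ j, f j = f i then g h.choose else f i) = g i
      rw [dif_pos h]
      exact congrArg g (f.injective h.choose_spec)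
    apply h2 k l e
    refine ⟨?_, ?_, ?_, ?_⟩
    · intro z hz
      obtain ⟨i, rfl⟩ := hfs z hz
      rw [he]
      exact Finset.orderEmbOfFin_mem _ _ _
    · intro z hz
      obtain ⟨i, rfl⟩ := hgs z hz
      exact ⟨f i, Finset.orderEmbOfFin_mem _ _ _, he i⟩
    · intro z hz w hw
      obtain ⟨i, rfl⟩ := hfs z hz
      obtain ⟨j, rfl⟩ := hfs w hw
      rw [he, he, px_lt, px_lt, ← Fin.lt_def, ← Fin.lt_def, f.lt_iff_lt, g.lt_iff_lt]
    · intro z hz w hw
      obtain ⟨i, rfl⟩ := hfs z hz
      obtain ⟨j, rfl⟩ := hfs w hw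
      rw [he, he, py_lt, py_lt, ← Fin.lt_def, ← Fin.lt_def, ← hσ k, ← hσ l, hkl']
  have hfin : (ind C n).Finite := (finite_len n).subset (fun π hπ => hπ.2.1)
  have h3 : Set.range (fun k => (⟨n, σ k⟩ : AllPerm)) ⊆ ind C n := by
    rintro _ ⟨k, rfl⟩
    exact hmem k
  have h4 := Set.ncard_le_ncard h3 hfin
  rw [Set.ncard_range_of_injective hinj] at h4
  simpa using h4

/-- a class with unboundedly many indecomposable permutations of some length has at least `n - 1`
indecomposable permutations of length `n` -/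
theorem main {C : Set AllPerm} (hC : IsClass C) (hunb : ∀ B : ℕ, ∃ n, B < (ind C n).ncard) (n : ℕ) :
    n - 1 ≤ (ind C n).ncard := by
  classical
  rcases Nat.lt_or_ge n 3 with hn | hn
  · rcases Nat.lt_or_ge n 2 with hn2 | hn2
    · have : n - 1 = 0 := by omega
      rw [this]; exact Nat.zero_le _
    · have hn' : n = 2 := by omega
      subst hn'
      -- there is an indecomposable permutation of length at least two
      obtain ⟨N, hN⟩ := hunb 1
      have hne : (ind C N).Nonempty := by
        rw [Set.nonempty_iff_ne_empty]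
        intro he
        rw [he] at hN
        simp at hN
      obtain ⟨⟨N', π⟩, hπ, hlen, hind⟩ := hne
      have hlen' : N' = N := hlen
      subst hlen'
      have hN2 : 2 ≤ N' := by
        by_contra hcon
        have h1 : ind C N' ⊆ {(⟨N', 1⟩ : AllPerm)} := by
          rintro ⟨m, σ⟩ ⟨_, hm, _⟩
          have hm' : m = N' := hm
          subst hm'
          haveI : Subsingleton (Fin m) := by
            rw [← Fintype.card_le_one_iff_subsingleton, Fintype.card_fin]; omega
          have : σ = 1 := by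
            apply Equiv.ext
            intro i
            exact Subsingleton.elim _ _
          rw [this]; rfl
        have h2 := Set.ncard_le_ncard h1 (Set.finite_singleton _)
        rw [Set.ncard_singleton] at h2
        omega
      apply ind_of_many hC hπ
      have hconn := conn_of_indecomposable π hind
      obtain ⟨T, _, _, hTc, hT2⟩ := grow hconn (Finset.mem_univ (⟨0, by omega⟩ : Fin N')) 2 (by omega)
        (by rw [Finset.card_univ, Fintype.card_fin]; exact hN2)
      refine ⟨fun _ => T, fun _ => ⟨hT2, hTc⟩, fun k l _ _ => ?_⟩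
      exact Subsingleton.elim (α := Fin 1) k l
  · obtain ⟨B, hB⟩ := bounded_count hn
    obtain ⟨N, hN⟩ := hunb B
    by_contra hcon
    -- all indecomposable permutations of length `N` are counted by `B`
    have hno : ∀ π : Equiv.Perm (Fin N), (⟨N, π⟩ : AllPerm) ∈ C → ¬ Many px (py π) n := by
      intro π hπ hM
      exact hcon (ind_of_many hC hπ hM)
    have h1 : ind C N ⊆ (fun π : Equiv.Perm (Fin N) => (⟨N, π⟩ : AllPerm)) ''
        (↑(univ.filter (fun π : Equiv.Perm (Fin N) => Conn px (py π) univ ∧ ¬ Many px (py π) n)) :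
          Set (Equiv.Perm (Fin N))) := by
      rintro ⟨m, π⟩ ⟨hπ, hm, hind⟩
      have hm' : m = N := hm
      subst hm'
      refine ⟨π, ?_, rfl⟩
      rw [Finset.mem_coe, Finset.mem_filter]
      exact ⟨Finset.mem_univ _, conn_of_indecomposable π hind, hno π hπ⟩
    have h2 := Set.ncard_le_ncard h1 ((Finset.finite_toSet _).image _)
    have h3 := Set.ncard_image_le (f := fun π : Equiv.Perm (Fin N) => (⟨N, π⟩ : AllPerm))
      (Finset.finite_toSet (univ.filter (fun π : Equiv.Perm (Fin N) => Conn px (py π) univ ∧ ¬ Many px (py π) n)))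
    rw [Set.ncard_coe_finset] at h3
    have h4 := hB N
    omega

end Pool.Agent.H41.IndSum
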