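import Pool.Agent.H41.IndSum.Basic

open Finset

set_option linter.unusedSectionVars false

namespace Pool.Agent.H41.IndSum

variable {ι : Type*} [DecidableEq ι]

/-- `e` is an isomorphism of the point sets `S` and `S'` (for both orders) -/
structure IsoVia (x y : ι → ℤ) (e : ι → ι) (S S' : Finset ι) : Prop where
  maps : ∀ i ∈ S, e i ∈ S'
  surj : ∀ j ∈ S', ∃ i ∈ S, e i = j
  presx : ∀ i ∈ S, ∀ j ∈ S, x i < x j ↔ x (e i) < x (e j)
  presy : ∀ i ∈ S, ∀ j ∈ S, y i < y j ↔ y (e i) < y (e j)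

/-- There are `n - 1` pairwise non-isomorphic connected sets of `n` points. -/
def Many (x y : ι → ℤ) (n : ℕ) : Prop :=
  ∃ F : Fin (n - 1) → Finset ι, (∀ k, (F k).card = n ∧ Conn x y (F k)) ∧
    ∀ k l e, IsoVia x y e (F k) (F l) → k = l

variable {x y : ι → ℤ}

theorem IsoVia.swap {e : ι → ι} {S S' : Finset ι} (h : IsoVia x y e S S') : IsoVia y x e S S' :=
  ⟨h.maps, h.surj, h.presy, h.presx⟩

theorem IsoVia.neg {e : ι → ι} {S S' : Finset ι} (h : IsoVia x y e S S') :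
    IsoVia (-x) (-y) e S S' :=
  ⟨h.maps, h.surj, fun i hi j hj => by
    simp only [Pi.neg_apply, neg_lt_neg_iff]; exact h.presx j hj i hi, fun i hi j hj => by
    simp only [Pi.neg_apply, neg_lt_neg_iff]; exact h.presy j hj i hi⟩

theorem Many_swap {n : ℕ} (h : Many y x n) : Many x y n := by
  obtain ⟨F, h1, h2⟩ := h
  exact ⟨F, fun k => ⟨(h1 k).1, Conn_swap.1 (h1 k).2⟩, fun k l e he => h2 k l e he.swap⟩

theorem Many_neg {n : ℕ} (h : Many (-x) (-y) n) : Many x y n := by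
  obtain ⟨F, h1, h2⟩ := h
  exact ⟨F, fun k => ⟨(h1 k).1, Conn_neg.1 (h1 k).2⟩, fun k l e he => h2 k l e he.neg⟩

theorem IsoVia.inj (hx : Function.Injective x) {e : ι → ι} {S S' : Finset ι}
    (h : IsoVia x y e S S') {i j : ι} (hi : i ∈ S) (hj : j ∈ S) (hij : e i = e j) : i = j := by
  apply hx
  have h1 := h.presx i hi j hj
  have h2 := h.presx j hj i hi
  rw [hij] at h1 h2
  simp only [lt_irrefl, iff_false, not_lt] at h1 h2
  omega

theorem IsoVia.card_rel (hx : Function.Injective x) {e : ι → ι} {S S' : Finset ι}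
    (h : IsoVia x y e S S') (r : ι → ι → Prop) [∀ i j, Decidable (r i j)]
    (hr : ∀ i ∈ S, ∀ j ∈ S, r i j ↔ r (e i) (e j)) {i : ι} (hi : i ∈ S) :
    (S.filter (fun j => r j i)).card = (S'.filter (fun j => r j (e i))).card := by
  apply Finset.card_bij (fun j _ => e j)
  · intro j hj
    obtain ⟨hjS, hji⟩ := Finset.mem_filter.1 hj
    exact Finset.mem_filter.2 ⟨h.maps j hjS, (hr j hjS i hi).1 hji⟩
  · intro j hj k hk hjk
    exact h.inj hx (Finset.mem_filter.1 hj).1 (Finset.mem_filter.1 hk).1 hjk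
  · intro j hj
    obtain ⟨hjS, hji⟩ := Finset.mem_filter.1 hj
    obtain ⟨k, hk, rfl⟩ := h.surj j hjS
    exact ⟨k, Finset.mem_filter.2 ⟨hk, (hr k hk i hi).2 hji⟩, rfl⟩

theorem IsoVia.card_pairs (hx : Function.Injective x) {e : ι → ι} {S S' : Finset ι}
    (h : IsoVia x y e S S') (r : ι → ι → Prop) [∀ i j, Decidable (r i j)]
    (hr : ∀ i ∈ S, ∀ j ∈ S, r i j ↔ r (e i) (e j)) :
    ((S ×ˢ S).filter (fun p => r p.1 p.2)).card = ((S' ×ˢ S').filter (fun p => r p.1 p.2)).card := by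
  apply Finset.card_bij (fun p _ => (e p.1, e p.2))
  · intro p hp
    obtain ⟨hpS, hpr⟩ := Finset.mem_filter.1 hp
    obtain ⟨h1, h2⟩ := Finset.mem_product.1 hpS
    exact Finset.mem_filter.2 ⟨Finset.mem_product.2 ⟨h.maps _ h1, h.maps _ h2⟩, (hr _ h1 _ h2).1 hpr⟩
  · intro p hp q hq hpq
    obtain ⟨h1, h2⟩ := Finset.mem_product.1 (Finset.mem_filter.1 hp).1
    obtain ⟨h3, h4⟩ := Finset.mem_product.1 (Finset.mem_filter.1 hq).1
    obtain ⟨e1, e2⟩ := Prod.mk.inj hpq
    exact Prod.ext (h.inj hx h1 h3 e1) (h.inj hx h2 h4 e2)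
  · intro p hp
    obtain ⟨hpS, hpr⟩ := Finset.mem_filter.1 hp
    obtain ⟨h1, h2⟩ := Finset.mem_product.1 hpS
    obtain ⟨k, hk, hk'⟩ := h.surj _ h1
    obtain ⟨l, hl, hl'⟩ := h.surj _ h2
    refine ⟨(k, l), Finset.mem_filter.2 ⟨Finset.mem_product.2 ⟨hk, hl⟩, ?_⟩, ?_⟩
    · apply (hr _ hk _ hl).2
      show r (e k) (e l)
      rw [hk', hl']; exact hpr
    · exact Prod.ext hk' hl'

theorem IsoVia.ltt_iff {e : ι → ι} {S S' : Finset ι} (h : IsoVia x y e S S') {i j : ι} (hi : i ∈ S)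
    (hj : j ∈ S) : ltt x y i j ↔ ltt x y (e i) (e j) := by
  unfold ltt; rw [h.presx i hi j hj, h.presy i hi j hj]

theorem IsoVia.nw_iff {e : ι → ι} {S S' : Finset ι} (h : IsoVia x y e S S') {i j : ι} (hi : i ∈ S)
    (hj : j ∈ S) : nw x y i j ↔ nw x y (e i) (e j) := by
  unfold nw; rw [h.presx i hi j hj, h.presy j hj i hi]

theorem IsoVia.adj_iff {e : ι → ι} {S S' : Finset ι} (h : IsoVia x y e S S') {i j : ι} (hi : i ∈ S)
    (hj : j ∈ S) : adj x y i j ↔ adj x y (e i) (e j) := by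
  unfold adj; rw [h.nw_iff hi hj, h.nw_iff hj hi]

/-- an element is identified by the number of elements of larger coordinate -/
theorem id_of_rank (hx : Function.Injective x) {e : ι → ι} {S S' : Finset ι}
    (h : IsoVia x y e S S') (u : ι → ℤ) (hu : Function.Injective u)
    (pu : ∀ i ∈ S, ∀ j ∈ S, u i < u j ↔ u (e i) < u (e j)) {r r' : ι} (hr : r ∈ S) (hr' : r' ∈ S')
    (hc : (S.filter (fun j => u r < u j)).card = (S'.filter (fun j => u r' < u j)).card) :
    e r = r' := by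
  have h1 := h.card_rel hx (fun j i => u i < u j) (fun i hi j hj => pu j hj i hi) hr
  by_contra hne
  rw [h1] at hc
  rcases lt_or_gt_of_ne (fun he => hne (hu he)) with h2 | h2
  · have : (S'.filter (fun j => u r' < u j)) ⊂ (S'.filter (fun j => u (e r) < u j)) := by
      refine Finset.ssubset_iff_of_subset ?_ |>.2 ⟨r', Finset.mem_filter.2 ⟨hr', h2⟩, ?_⟩
      · intro j hj
        obtain ⟨a, b⟩ := Finset.mem_filter.1 hj
        exact Finset.mem_filter.2 ⟨a, h2.trans b⟩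
      · intro hj
        exact lt_irrefl _ (Finset.mem_filter.1 hj).2
    exact absurd hc (Finset.card_lt_card this).ne'
  · have : (S'.filter (fun j => u (e r) < u j)) ⊂ (S'.filter (fun j => u r' < u j)) := by
      refine Finset.ssubset_iff_of_subset ?_ |>.2 ⟨e r, Finset.mem_filter.2 ⟨h.maps r hr, h2⟩, ?_⟩
      · intro j hj
        obtain ⟨a, b⟩ := Finset.mem_filter.1 hj
        exact Finset.mem_filter.2 ⟨a, h2.trans b⟩
      · intro hj
        exact lt_irrefl _ (Finset.mem_filter.1 hj).2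
    exact absurd hc (Finset.card_lt_card this).ne

theorem many_of {n : ℕ} (P : ℕ → Finset ι → Prop)
    (H : ∀ k < n - 1, ∃ S : Finset ι, S.card = n ∧ Conn x y S ∧ P k S)
    (hP : ∀ k < n - 1, ∀ l < n - 1, ∀ S S' e, P k S → P l S' → IsoVia x y e S S' → k = l) :
    Many x y n := by
  choose S h1 h2 h3 using H
  refine ⟨fun k => S k.1 k.2, fun k => ⟨h1 _ _, h2 _ _⟩, fun k l e he => ?_⟩
  exact Fin.ext (hP k.1 k.2 l.1 l.2 _ _ e (h3 _ _) (h3 _ _) he)

/-- rightmost (or second rightmost...) element, number of the elements below it -/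
theorem many_last {n : ℕ} (hx : Function.Injective x) (a : ℕ) (f : ℕ → ℕ)
    (hf : ∀ k < n - 1, ∀ l < n - 1, f k = f l → k = l)
    (H : ∀ k < n - 1, ∃ S : Finset ι, S.card = n ∧ Conn x y S ∧ ∃ r ∈ S,
      (S.filter (fun j => x r < x j)).card = a ∧ (S.filter (fun j => y j < y r)).card = f k) :
    Many x y n := by
  apply many_of (fun k S => ∃ r ∈ S,
      (S.filter (fun j => x r < x j)).card = a ∧ (S.filter (fun j => y j < y r)).card = f k) H
  rintro k hk l hl S S' e ⟨r, hr, h1, h2⟩ ⟨r', hr', h3, h4⟩ he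
  have h5 : e r = r' := id_of_rank hx he x hx he.presx hr hr' (h1.trans h3.symm)
  apply hf k hk l hl
  rw [← h2, ← h4, he.card_rel hx (fun j i => y j < y i) he.presy hr, h5]

/-- leftmost element, number of the elements below it -/
theorem many_first {n : ℕ} (hx : Function.Injective x) (f : ℕ → ℕ)
    (hf : ∀ k < n - 1, ∀ l < n - 1, f k = f l → k = l)
    (H : ∀ k < n - 1, ∃ S : Finset ι, S.card = n ∧ Conn x y S ∧ ∃ r ∈ S,
      (∀ j ∈ S, ¬ x j < x r) ∧ (S.filter (fun j => y j < y r)).card = f k) :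
    Many x y n := by
  apply many_of (fun k S => ∃ r ∈ S,
      (∀ j ∈ S, ¬ x j < x r) ∧ (S.filter (fun j => y j < y r)).card = f k) H
  rintro k hk l hl S S' e ⟨r, hr, h1, h2⟩ ⟨r', hr', h3, h4⟩ he
  have h5 : e r = r' := by
    apply hx
    have h6 := h3 _ (he.maps r hr)
    obtain ⟨i, hi, hi'⟩ := he.surj r' hr'
    have h7 := h1 i hi
    rw [he.presx i hi r hr, hi'] at h7
    omega
  apply hf k hk l hl
  rw [← h2, ← h4, he.card_rel hx (fun j i => y j < y i) he.presy hr, h5]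

end Pool.Agent.H41.IndSum
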