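import Pool.Agent.H41.IndSum.Fam2

open Finset

set_option linter.unusedSectionVars false

namespace Pool.Agent.H41.IndSum

variable {ι : Type*} [DecidableEq ι]

/-- `r` is a strict linear order on `U` -/
structure Lin (r : ι → ι → Prop) (U : Finset ι) : Prop where
  trans : ∀ a b c, r a b → r b c → r a c
  irrefl : ∀ a, ¬ r a a
  total : ∀ a ∈ U, ∀ b ∈ U, a ≠ b → r a b ∨ r b a

theorem Lin.flip {r : ι → ι → Prop} {U : Finset ι} (h : Lin r U) : Lin (fun a b => r b a) U :=
  ⟨fun _ _ _ h1 h2 => h.trans _ _ _ h2 h1, h.irrefl, fun a ha b hb hab => (h.total a ha b hb hab).symm⟩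

open Classical in
/-- the number of the predecessors -/
noncomputable def below (r : ι → ι → Prop) (U : Finset ι) (u : ι) : ℕ := (U.filter (fun v => r v u)).card

open Classical in
/-- the elements with at least `t` predecessors -/
noncomputable def upper (r : ι → ι → Prop) (t : ℕ) (U : Finset ι) : Finset ι :=
  U.filter (fun u => t ≤ below r U u)

open Classical in
/-- the elements with at least `t` predecessors and `t` successors -/
noncomputable def mid (r : ι → ι → Prop) (t : ℕ) (U : Finset ι) : Finset ι :=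
  U.filter (fun u => t ≤ below r U u ∧ t ≤ below (fun a b => r b a) U u)

theorem mid_flip (r : ι → ι → Prop) (t : ℕ) (U : Finset ι) : mid (fun a b => r b a) t U = mid r t U := by
  classical
  unfold mid
  apply Finset.filter_congr
  intro u _
  exact and_comm

theorem mem_mid {r : ι → ι → Prop} {t : ℕ} {U : Finset ι} {u : ι} :
    u ∈ mid r t U ↔ u ∈ upper r t U ∧ u ∈ upper (fun a b => r b a) t U := by
  classical
  unfold mid upper
  simp only [Finset.mem_filter]
  tauto

theorem upper_subset {r : ι → ι → Prop} {t : ℕ} {U : Finset ι} : upper r t U ⊆ U := by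
  classical
  exact Finset.filter_subset _ _

theorem mid_subset {r : ι → ι → Prop} {t : ℕ} {U : Finset ι} : mid r t U ⊆ U :=
  fun _ hu => upper_subset (mem_mid.1 hu).1

theorem below_lt {r : ι → ι → Prop} {U : Finset ι} (h : Lin r U) {u v : ι} (hu : u ∈ U)
    (huv : r u v) : below r U u < below r U v := by
  classical
  unfold below
  apply Finset.card_lt_card
  refine Finset.ssubset_iff_of_subset ?_ |>.2 ⟨u, Finset.mem_filter.2 ⟨hu, huv⟩, ?_⟩
  · intro j hj
    obtain ⟨a, b⟩ := Finset.mem_filter.1 hj
    exact Finset.mem_filter.2 ⟨a, h.trans _ _ _ b huv⟩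
  · intro hj
    exact h.irrefl _ (Finset.mem_filter.1 hj).2

theorem card_upper {r : ι → ι → Prop} {U : Finset ι} (h : Lin r U) (t : ℕ) :
    U.card ≤ (upper r t U).card + t := by
  classical
  have h1 : (U \ upper r t U).card ≤ t := by
    have h0 : (U \ upper r t U).card ≤ (Finset.range t).card := by
     apply Finset.card_le_card_of_injOn (fun u => below r U u)
     · intro u hu
       obtain ⟨h1, h2⟩ := Finset.mem_sdiff.1 (Finset.mem_coe.1 hu)
       rw [Finset.mem_coe, Finset.mem_range]
       by_contra hcon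
       exact h2 (Finset.mem_filter.2 ⟨h1, not_lt.1 hcon⟩)
     · intro u hu v hv huv
       by_contra hne
       have hu' := (Finset.mem_sdiff.1 (Finset.mem_coe.1 hu)).1
       have hv' := (Finset.mem_sdiff.1 (Finset.mem_coe.1 hv)).1
       rcases h.total u hu' v hv' hne with h2 | h2
       · exact absurd huv (below_lt h hu' h2).ne
       · exact absurd huv (below_lt h hv' h2).ne'
    rwa [Finset.card_range] at h0
  have h2 := Finset.card_sdiff_add_card_eq_card (upper_subset (r := r) (t := t) (U := U))
  omega

theorem card_mid {r : ι → ι → Prop} {U : Finset ι} (h : Lin r U) (t : ℕ) :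
    U.card ≤ (mid r t U).card + 2 * t := by
  classical
  have h1 := card_upper h t
  have h2 := card_upper h.flip t
  have h3 : mid r t U = upper r t U ∩ upper (fun a b => r b a) t U := by
    ext u; rw [mem_mid, Finset.mem_inter]
  have h4 := Finset.card_inter_add_card_union (upper r t U) (upper (fun a b => r b a) t U)
  have h5 : (upper r t U ∪ upper (fun a b => r b a) t U).card ≤ U.card :=
    Finset.card_le_card (Finset.union_subset upper_subset upper_subset)
  rw [h3]
  omega

/-- a small down-closed set does not meet the elements with many predecessors -/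
theorem not_mem_upper {r : ι → ι → Prop} {U : Finset ι} (h : Lin r U) {t : ℕ} {P : Finset ι}
    (hP : ∀ p ∈ P, ∀ u ∈ U, r u p → u ∈ P) (hPc : P.card ≤ t) {p : ι} (hp : p ∈ P) :
    p ∉ upper r t U := by
  classical
  intro hpu
  obtain ⟨_, h2⟩ := Finset.mem_filter.1 hpu
  have h3 : U.filter (fun v => r v p) ⊆ P.erase p := by
    intro v hv
    obtain ⟨hvU, hvp⟩ := Finset.mem_filter.1 hv
    refine Finset.mem_erase.2 ⟨?_, hP p hp v hvU hvp⟩
    rintro rfl
    exact h.irrefl _ hvp
  have h4 := Finset.card_le_card h3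
  rw [Finset.card_erase_of_mem hp] at h4
  have h5 : 0 < P.card := Finset.card_pos.2 ⟨p, hp⟩
  unfold below at h2
  omega

theorem above_mid {r : ι → ι → Prop} {U : Finset ι} (h : Lin r U) {t : ℕ} {u : ι} (hu : u ∈ upper r t U)
    (hu' : u ∉ mid r t U) {k : ι} (hk : k ∈ mid r t U) : r k u := by
  classical
  have huU := upper_subset hu
  have hkU := mid_subset hk
  have hne : k ≠ u := by rintro rfl; exact hu' hk
  rcases h.total k hkU u huU hne with h1 | h1
  · exact h1
  · exfalso
    apply hu'
    rw [mem_mid]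
    refine ⟨hu, ?_⟩
    have h2 := (Finset.mem_filter.1 (mem_mid.1 hk).2).2
    refine Finset.mem_filter.2 ⟨huU, h2.trans ?_⟩
    exact (below_lt h.flip hkU h1).le

theorem outside_mid {r : ι → ι → Prop} {U : Finset ι} (h : Lin r U) {t : ℕ} {u : ι} (hu : u ∈ U)
    (hu' : u ∉ mid r t U) : (∀ k ∈ mid r t U, r k u) ∨ (∀ k ∈ mid r t U, r u k) := by
  classical
  by_cases h1 : u ∈ upper r t U
  · exact Or.inl (fun k hk => above_mid h h1 hu' hk)
  · right
    intro k hk
    have hkU := mid_subset hk
    have hne : k ≠ u := by rintro rfl; exact hu' hk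
    rcases h.total k hkU u hu hne with h2 | h2
    · exfalso
      apply h1
      have h3 := (Finset.mem_filter.1 (mem_mid.1 hk).1).2
      exact Finset.mem_filter.2 ⟨hu, h3.trans (below_lt h hkU h2).le⟩
    · exact h2

/-- `z` sees all the points of `K` in the same direction -/
def Homog (x y : ι → ℤ) (K : Finset ι) (z : ι) : Prop :=
  (∀ k ∈ K, ltt x y z k) ∨ (∀ k ∈ K, ltt x y k z) ∨ (∀ k ∈ K, nw x y z k) ∨ (∀ k ∈ K, nw x y k z)

variable {x y : ι → ℤ}

theorem Homog_swap {K : Finset ι} {z : ι} (h : Homog y x K z) : Homog x y K z := by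
  unfold Homog at h ⊢
  simp only [ltt_swap, nw_swap] at h
  tauto

theorem lin_clique {D : Finset ι} (hD : Clique x y D) : Lin (nw x y) D :=
  ⟨fun _ _ _ h1 h2 => h1.trans h2, fun _ h => h.ne rfl, fun a ha b hb hab => hD a ha b hb hab⟩

theorem lin_chain {D : Finset ι} (hD : Chain x y D) : Lin (ltt x y) D :=
  ⟨fun _ _ _ h1 h2 => h1.trans h2, fun _ h => h.ne rfl, fun a ha b hb hab => hD a ha b hb hab⟩

end Pool.Agent.H41.IndSum
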