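import Pool.Agent.H41.IndSum.Interval

open Finset

set_option linter.unusedSectionVars false

namespace Pool.Agent.H41.IndSum

section geo

variable {ι : Type*} [DecidableEq ι] {x y : ι → ℤ}

/-- the inversion graph -/
def invGraph (x y : ι → ℤ) : SimpleGraph ι := SimpleGraph.fromRel (adj x y)

theorem invGraph_adj {i j : ι} : (invGraph x y).Adj i j ↔ adj x y i j := by
  unfold invGraph
  rw [SimpleGraph.fromRel_adj]
  constructor
  · rintro ⟨_, h | h⟩
    · exact h
    · exact h.symm
  · intro h
    exact ⟨h.ne, Or.inl h⟩

theorem invGraph_connected [Fintype ι] [Nonempty ι] (hX : Conn x y univ) : (invGraph x y).Connected := by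
  classical
  have hpre : (invGraph x y).Preconnected := by
    intro u w
    by_contra hcon
    obtain ⟨a, ha, b, _, hb, hab⟩ := hX (univ.filter (fun t => (invGraph x y).Reachable u t))
      (Finset.subset_univ _) ⟨u, by simp⟩ (by
        intro he
        have : w ∈ univ.filter (fun t => (invGraph x y).Reachable u t) := he.symm ▸ Finset.mem_univ w
        exact hcon (Finset.mem_filter.1 this).2)
    apply hb
    refine Finset.mem_filter.2 ⟨Finset.mem_univ _, ?_⟩
    exact (Finset.mem_filter.1 ha).2.trans (SimpleGraph.Adj.reachable (invGraph_adj.2 hab))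
  exact ⟨hpre⟩

theorem exists_geodesic [Fintype ι] (hX : Conn x y univ) (a b : ι) :
    ∃ (v : ℕ → ι) (L : ℕ) (d : ι → ℕ), v 0 = a ∧ v L = b ∧ (∀ i < L, adj x y (v i) (v (i + 1))) ∧
      (∀ u w, adj x y u w → d u ≤ d w + 1) ∧ (∀ i ≤ L, d (v i) = i) := by
  classical
  haveI : Nonempty ι := ⟨a⟩
  have hG := invGraph_connected hX
  obtain ⟨p, hp⟩ := hG.exists_walk_length_eq_dist a b
  have hstep : ∀ u w, adj x y u w → (invGraph x y).dist a u ≤ (invGraph x y).dist a w + 1 := by
    intro u w huw
    have h1 := hG.dist_triangle (u := a) (v := w) (w := u)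
    have h2 : (invGraph x y).dist w u = 1 := SimpleGraph.dist_eq_one_iff_adj.2 (invGraph_adj.2 huw.symm)
    omega
  have hadj : ∀ i < p.length, adj x y (p.getVert i) (p.getVert (i + 1)) := by
    intro i hi
    exact invGraph_adj.1 (p.adj_getVert_succ hi)
  have hup : ∀ i, i ≤ p.length → (invGraph x y).dist a (p.getVert i) ≤ i := by
    intro i
    induction i with
    | zero => intro _; rw [p.getVert_zero, SimpleGraph.dist_self]
    | succ i ih =>
      intro hi
      have h1 := ih (by omega)
      have h2 := hstep _ _ (hadj i (by omega)).symm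
      omega
  have hdown : ∀ i, i ≤ p.length → p.length ≤ (invGraph x y).dist a (p.getVert (p.length - i)) + i := by
    intro i
    induction i with
    | zero => intro _; rw [Nat.sub_zero, p.getVert_length, hp]; omega
    | succ i ih =>
      intro hi
      have h1 := ih (by omega)
      have h2 := hadj (p.length - (i + 1)) (by omega)
      rw [show p.length - (i + 1) + 1 = p.length - i by omega] at h2
      have h3 := hstep _ _ h2.symm
      omega
  refine ⟨p.getVert, p.length, fun u => (invGraph x y).dist a u, p.getVert_zero, p.getVert_length,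
    hadj, hstep, ?_⟩
  intro i hi
  have h1 := hup i hi
  have h2 := hdown (p.length - i) (by omega)
  rw [show p.length - (p.length - i) = i by omega] at h2
  show (invGraph x y).dist a (p.getVert i) = i
  omega

end geo

section osc

variable {N : ℕ} {π : Equiv.Perm (Fin N)}

open Classical in
/-- the points to the upper left -/
noncomputable def nwS (π : Equiv.Perm (Fin N)) (i : Fin N) : Finset (Fin N) :=
  univ.filter (fun j => nw px (py π) j i)

open Classical in
/-- the points to the lower right -/
noncomputable def seS (π : Equiv.Perm (Fin N)) (i : Fin N) : Finset (Fin N) :=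
  univ.filter (fun j => nw px (py π) i j)

open Classical in
/-- the points to the lower left -/
noncomputable def swS (π : Equiv.Perm (Fin N)) (i : Fin N) : Finset (Fin N) :=
  univ.filter (fun j => ltt px (py π) j i)

theorem mem_nwS {i j : Fin N} : j ∈ nwS π i ↔ nw px (py π) j i := by
  classical
  unfold nwS; simp

theorem mem_seS {i j : Fin N} : j ∈ seS π i ↔ nw px (py π) i j := by
  classical
  unfold seS; simp

theorem mem_swS {i j : Fin N} : j ∈ swS π i ↔ ltt px (py π) j i := by
  classical
  unfold swS; simp

theorem displacement (i : Fin N) : (π i : ℕ) + (nwS π i).card = i + (seS π i).card := by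
  classical
  have h1 : (i : ℕ) = (nwS π i).card + (swS π i).card := by
    rw [← Fin.card_Iio i, ← Finset.card_union_of_disjoint]
    · congr 1
      ext j
      rw [Finset.mem_Iio, Finset.mem_union, mem_nwS, mem_swS, Fin.lt_def]
      constructor
      · intro h
        have hne : (π j : ℕ) ≠ π i := by
          intro he
          have := π.injective (Fin.ext he)
          subst this; omega
        rcases lt_or_gt_of_ne hne with h' | h'
        · exact Or.inr ⟨px_lt.2 h, py_lt.2 h'⟩
        · exact Or.inl ⟨px_lt.2 h, py_lt.2 h'⟩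
      · rintro (h | h)
        · exact px_lt.1 h.1
        · exact px_lt.1 h.1
    · rw [Finset.disjoint_left]
      intro j h1 h2
      exact (mem_swS.1 h2).not_adj (mem_nwS.1 h1).adj
  have h2 : (π i : ℕ) = (seS π i).card + (swS π i).card := by
    have h3 : (Finset.Iio (π i)).card = ((Finset.Iio (π i)).map π.symm.toEmbedding).card :=
      (Finset.card_map _).symm
    rw [Fin.card_Iio] at h3
    rw [h3, ← Finset.card_union_of_disjoint]
    · congr 1
      ext j
      rw [Finset.mem_map_equiv, Equiv.symm_symm, Finset.mem_Iio, Finset.mem_union, mem_seS, mem_swS,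
        Fin.lt_def]
      constructor
      · intro h
        have hne : (j : ℕ) ≠ i := by
          intro he
          have : j = i := Fin.ext he
          subst this; omega
        rcases lt_or_gt_of_ne hne with h' | h'
        · exact Or.inr ⟨px_lt.2 h', py_lt.2 h⟩
        · exact Or.inl ⟨px_lt.2 h', py_lt.2 h⟩
      · rintro (h | h)
        · exact py_lt.1 h.2
        · exact py_lt.1 h.2
    · rw [Finset.disjoint_left]
      intro j h1 h2
      exact (mem_swS.1 h2).not_adj' (mem_seS.1 h1).adj
  omega

theorem adj_close {R : ℕ} (hR1 : ∀ i, (nwS π i).card ≤ R) (hR2 : ∀ i, (seS π i).card ≤ R) {i j : Fin N}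
    (h : adj px (py π) i j) : (i : ℕ) ≤ j + 2 * R := by
  have h1 := displacement (π := π) i
  have h2 := displacement (π := π) j
  have h3 := hR1 i
  have h4 := hR2 i
  have h5 := hR1 j
  have h6 := hR2 j
  rcases h with h | h
  · have := px_lt.1 h.1
    omega
  · have := py_lt.1 h.2
    omega

/-- in the middle all points are moved by exactly two -/
theorem osc_struct {n R : ℕ} (hn : 3 ≤ n) (hX : Conn px (py π) univ) (hM : ¬ Many px (py π) n)
    (hR1 : ∀ i, (nwS π i).card ≤ R) (hR2 : ∀ i, (seS π i).card ≤ R) {z : Fin N}
    (hz1 : 2 * R * (n + 4) + 1 ≤ (z : ℕ)) (hz2 : (z : ℕ) + (2 * R * (n + 4) + 1) < N) :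
    (π z : ℕ) = z + 2 ∨ (π z : ℕ) + 2 = z := by
  classical
  have hN : 0 < N := by omega
  obtain ⟨v, L, d, hv0, hvL, hadj, hd, hdv⟩ := exists_geodesic hX (⟨0, hN⟩ : Fin N) ⟨N - 1, by omega⟩
  have hosc : IsOsc px (py π) v L := by
    apply isOsc_of_geodesic px_inj (py_inj π) hd hdv hadj
    intro w hw
    rw [hv0] at hw
    have := px_lt.1 hw
    simp at this
  -- positions along the path
  have hpos1 : ∀ i, i ≤ L → ((v i : Fin N) : ℕ) ≤ 2 * R * i := by
    intro i
    induction i with
    | zero => intro _; rw [hv0]; simp
    | succ i ih =>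
      intro hi
      have h1 := ih (by omega)
      have h2 := adj_close hR1 hR2 (hadj i (by omega)).symm
      rw [Nat.mul_succ]
      omega
  have hpos2 : ∀ i, i ≤ L → N ≤ ((v (L - i) : Fin N) : ℕ) + 2 * R * i + 1 := by
    intro i
    induction i with
    | zero => intro _; rw [Nat.sub_zero, hvL]; simp; omega
    | succ i ih =>
      intro hi
      have h1 := ih (by omega)
      have h3 := hadj (L - (i + 1)) (by omega)
      rw [show L - (i + 1) + 1 = L - i by omega] at h3
      have h2 := adj_close hR1 hR2 h3.symm
      rw [Nat.mul_succ]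
      omega
  -- the path is long
  have hmono : ∀ a b : ℕ, a ≤ b → 2 * R * a ≤ 2 * R * b := fun a b hab => Nat.mul_le_mul_left _ hab
  have hLlong : n + 4 + (n + 4) < L := by
    by_contra hcon
    have h1 := hpos1 L le_rfl
    rw [hvL] at h1
    simp only at h1
    have h2 := hmono L (n + 4 + (n + 4)) (by omega)
    have h3 : 2 * R * (n + 4 + (n + 4)) = 2 * R * (n + 4) + 2 * R * (n + 4) := by ring
    omega
  -- `z` lies on the path
  have hzP : ∃ i ≤ L, z = v i := by
    by_contra hcon
    push Not at hcon
    have hna : ∀ j, n + 2 ≤ j → j + n ≤ L → ltt px (py π) z (v j) ∨ ltt px (py π) (v j) z := by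
      intro j hj1 hj2
      rcases adj_or_ltt px_inj (py_inj π) (hcon j (by omega)) with h | h | h
      · exact absurd h (geodesic_mid hn px_inj (py_inj π) hM hd hdv hosc hcon hj1 hj2)
      · exact Or.inl h
      · exact Or.inr h
    have hind : ∀ s, n + 2 + s + n ≤ L → ltt px (py π) (v (n + 2 + s)) z := by
      intro s
      induction s with
      | zero =>
        intro hs
        rcases hna (n + 2 + 0) (by omega) hs with h | h
        · have h1 := px_lt.1 h.1
          have h2 := hpos1 (n + 2 + 0) (by omega)
          have h3 := hmono (n + 2 + 0) (n + 4) (by omega)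
          omega
        · exact h
      | succ s ih =>
        intro hs
        rcases hna (n + 2 + (s + 1)) (by omega) hs with h | h
        · exfalso
          exact ((ih (by omega)).trans h).not_adj (hadj (n + 2 + s) (by omega))
        · exact h
    have h1 := hind (L - n - (n + 2)) (by omega)
    rw [show n + 2 + (L - n - (n + 2)) = L - n by omega] at h1
    have h2 := px_lt.1 h1.1
    have h3 := hpos2 n (by omega)
    have h4 := hmono n (n + 4) (by omega)
    omega
  obtain ⟨i, hiL, hzi⟩ := hzP
  have hi1 : n + 4 < i := by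
    by_contra hcon
    have h1 := hpos1 i hiL
    rw [← hzi] at h1
    have h2 := hmono i (n + 4) (by omega)
    omega
  have hi2 : i + (n + 4) < L := by
    by_contra hcon
    have h1 := hpos2 (L - i) (by omega)
    rw [show L - (L - i) = i by omega, ← hzi] at h1
    have h2 := hmono (L - i) (n + 4) (by omega)
    omega
  -- the neighbours of `z`
  have hnb : ∀ w, adj px (py π) w z → w = v (i - 1) ∨ w = v (i + 1) := by
    intro w hw
    rw [hzi] at hw
    have hwP : ∃ l ≤ L, w = v l := by
      by_contra hcon
      push Not at hcon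
      exact geodesic_mid hn px_inj (py_inj π) hM hd hdv hosc hcon (by omega) (by omega) hw
    obtain ⟨l, hl, rfl⟩ := hwP
    rcases hosc.adj_iff hl hiL hw with h | h
    · left
      rw [show i - 1 = l by omega]
    · right
      rw [h]
  have hne : v (i - 1) ≠ v (i + 1) := hosc.ne (by omega) (by omega)
  have ha1 := hadj (i - 1) (by omega)
  have ha2 := hadj i (by omega)
  rw [show i - 1 + 1 = i by omega, ← hzi] at ha1
  rw [← hzi] at ha2
  have hdisp := displacement (π := π) z
  rcases ha2 with h | h
  · -- upper left point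
    have h' : nw px (py π) z (v (i - 1)) := by
      rcases ha1 with h1 | h1
      · exfalso
        have h2 := hosc.turn1 (i := i - 1) (by omega) (by
          rw [show i - 1 + 1 = i by omega, ← hzi]; exact h1)
        rw [show i - 1 + 2 = i + 1 by omega, show i - 1 + 1 = i by omega, ← hzi] at h2
        exact h.asymm h2
      · exact h1
    left
    have hs1 : seS π z = {v (i - 1), v (i + 1)} := by
      ext w
      rw [mem_seS, Finset.mem_insert, Finset.mem_singleton]
      constructor
      · intro hw; exact hnb w hw.adj'
      · rintro (rfl | rfl)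
        · exact h'
        · exact h
    have hs2 : nwS π z = ∅ := by
      rw [Finset.eq_empty_iff_forall_notMem]
      intro w hw
      rw [mem_nwS] at hw
      rcases hnb w hw.adj with rfl | rfl
      · exact h'.asymm hw
      · exact h.asymm hw
    rw [hs1, hs2, Finset.card_pair hne, Finset.card_empty] at hdisp
    omega
  · have h' : nw px (py π) (v (i - 1)) z := by
      rcases ha1 with h1 | h1
      · exact h1
      · exfalso
        have h2 := hosc.turn2 (i := i - 1) (by omega) (by
          rw [show i - 1 + 1 = i by omega, ← hzi]; exact h1)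
        rw [show i - 1 + 2 = i + 1 by omega, show i - 1 + 1 = i by omega, ← hzi] at h2
        exact h.asymm h2
    right
    have hs1 : nwS π z = {v (i - 1), v (i + 1)} := by
      ext w
      rw [mem_nwS, Finset.mem_insert, Finset.mem_singleton]
      constructor
      · intro hw; exact hnb w hw.adj
      · rintro (rfl | rfl)
        · exact h'
        · exact h
    have hs2 : seS π z = ∅ := by
      rw [Finset.eq_empty_iff_forall_notMem]
      intro w hw
      rw [mem_seS] at hw
      rcases hnb w hw.adj' with rfl | rfl
      · exact h'.asymm hw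
      · exact h.asymm hw
    rw [hs1, hs2, Finset.card_pair hne, Finset.card_empty] at hdisp
    omega

/-- the displacement is periodic with period four in the middle -/
theorem osc_period {n R c : ℕ} (hn : 3 ≤ n) (hX : Conn px (py π) univ) (hM : ¬ Many px (py π) n)
    (hR1 : ∀ i, (nwS π i).card ≤ R) (hR2 : ∀ i, (seS π i).card ≤ R)
    (hc : 2 * R * (n + 4) + 1 + R ≤ c) {z w : Fin N}
    (hz : c ≤ (z : ℕ)) (hw : (w : ℕ) + c < N) (hzw : (w : ℕ) = z + 4) :
    (π z : ℕ) + 4 = π w := by
  have h1 := osc_struct hn hX hM hR1 hR2 (z := z) (by omega) (by omega)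
  have h2 := osc_struct hn hX hM hR1 hR2 (z := w) (by omega) (by omega)
  have hlt : (z : ℕ) + 2 < N := by omega
  set m := π.symm ⟨(z : ℕ) + 2, hlt⟩ with hm
  have hπm : (π m : ℕ) = z + 2 := by rw [hm, Equiv.apply_symm_apply]
  have hdm := displacement (π := π) m
  have h3 := hR1 m
  have h4 := hR2 m
  have h5 := osc_struct hn hX hM hR1 hR2 (z := m) (by omega) (by omega)
  rcases h5 with h5 | h5
  · have hmz : m = z := Fin.ext (by omega)
    rw [hmz] at hπm
    rcases h2 with h2 | h2
    · omega
    · exfalso
      have h6 : π w = π z := Fin.ext (by omega)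
      have := π.injective h6
      subst this; omega
  · have hmw : m = w := Fin.ext (by omega)
    rw [hmw] at hπm
    rcases h1 with h1 | h1
    · exfalso
      have h6 : π w = π z := Fin.ext (by omega)
      have := π.injective h6
      subst this; omega
    · omega

theorem osc_rule {n R c : ℕ} (hn : 3 ≤ n) (hX : Conn px (py π) univ) (hM : ¬ Many px (py π) n)
    (hR1 : ∀ i, (nwS π i).card ≤ R) (hR2 : ∀ i, (seS π i).card ≤ R)
    (hc : 2 * R * (n + 4) + 1 + R ≤ c) :
    ∃ s : Fin 4 → Bool, ∀ i : Fin N, c ≤ (i : ℕ) → (i : ℕ) + c < N →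
      ((π i : ℕ) : ℤ) = (i : ℕ) + (if s ⟨((i : ℕ) - c) % 4, Nat.mod_lt _ (by norm_num)⟩ then 2 else -2) := by
  classical
  refine ⟨fun r => if h : c + (r : ℕ) < N then decide ((π ⟨c + r, h⟩ : ℕ) = c + r + 2) else true, ?_⟩
  have key : ∀ q : ℕ, ∀ i : Fin N, ((i : ℕ) - c) / 4 = q → c ≤ (i : ℕ) → (i : ℕ) + c < N →
      ((π i : ℕ) : ℤ) = (i : ℕ) + (if (fun r : Fin 4 => if h : c + (r : ℕ) < N then
        decide ((π ⟨c + r, h⟩ : ℕ) = c + r + 2) else true)
          ⟨((i : ℕ) - c) % 4, Nat.mod_lt _ (by norm_num)⟩ then 2 else -2) := by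
    intro q
    induction q with
    | zero =>
      intro i hq h1 h2
      have h3 : ((i : ℕ) - c) % 4 = i - c := by omega
      have h4 : c + ((i : ℕ) - c) % 4 < N := by omega
      have h5 : (⟨c + ((i : ℕ) - c) % 4, h4⟩ : Fin N) = i := Fin.ext (by simp; omega)
      have h6 := osc_struct hn hX hM hR1 hR2 (z := i) (by omega) (by omega)
      simp only [dif_pos h4, decide_eq_true_eq]
      rw [h5]
      rcases h6 with h6 | h6
      · rw [if_pos (by omega)]
        push_cast [h6]; ring
      · rw [if_neg (by omega)]
        have : ((i : ℕ) : ℤ) = ((π i : ℕ) : ℤ) + 2 := by exact_mod_cast h6.symm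
        rw [this]; ring
    | succ q ih =>
      intro i hq h1 h2
      have h3 : 4 ≤ (i : ℕ) - c := by omega
      have h4 := ih ⟨(i : ℕ) - 4, by omega⟩ (by simp only; omega) (by simp only; omega) (by simp only; omega)
      have h5 : ((i : ℕ) - 4 - c) % 4 = ((i : ℕ) - c) % 4 := by omega
      have h6 := osc_period hn hX hM hR1 hR2 hc (z := ⟨(i : ℕ) - 4, by omega⟩) (w := i)
        (by simp only; omega) h2 (by simp only; omega)
      simp only [h5] at h4
      rw [← h6]
      push_cast
      rw [h4]
      have h7 : (((i : ℕ) - 4 : ℕ) : ℤ) = ((i : ℕ) : ℤ) - 4 := by omega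
      rw [h7]
      ring
  intro i h1 h2
  exact key _ i rfl h1 h2

end osc

end Pool.Agent.H41.IndSum
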