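import Pool.Agent.H41.IndSum.Oscil

open Finset

set_option linter.unusedSectionVars false

namespace Pool.Agent.H41.IndSum

/-- the bound for the number of the points outside of the interval -/
def bE (n : ℕ) : ℕ := (4 * n + 2 * (n * (2 * n))) * (2 * n + 1) +
  (2 * n + 2 * (2 * n * (5 * n) + (2 * n * (5 * n) + 2 * n) * n))

/-- the bound for the number of the neighbours on one side -/
def bR (n : ℕ) : ℕ := (5 * n) * (5 * n)

/-- the distance to the border -/
def bC (n : ℕ) : ℕ := bE n + (2 * bR n * (n + 4) + 1 + bR n)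

/-- connected permutations without many patterns are described in the middle by simple rules -/
theorem structure_thm {n : ℕ} (hn : 3 ≤ n) {N : ℕ} (π : Equiv.Perm (Fin N))
    (hX : Conn px (py π) univ) (hM : ¬ Many px (py π) n) :
    (∃ δ : ℤ, |δ| ≤ 2 * bE n ∧ ∀ i : Fin N, bC n ≤ (i : ℕ) → (i : ℕ) + bC n < N →
      ((π i : ℕ) : ℤ) = N - 1 - (i : ℕ) + δ) ∨
    (∃ δ : ℤ, |δ| ≤ 2 * bE n ∧ ∀ i : Fin N, bC n ≤ (i : ℕ) → (i : ℕ) + bC n < N →
      ((π i : ℕ) : ℤ) = (i : ℕ) + δ) ∨
    (∃ s : Fin 4 → Bool, ∀ i : Fin N, bC n ≤ (i : ℕ) → (i : ℕ) + bC n < N →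
      ((π i : ℕ) : ℤ) = (i : ℕ) +
        (if s ⟨((i : ℕ) - bC n) % 4, Nat.mod_lt _ (by norm_num)⟩ then 2 else -2)) := by
  classical
  have hbC : bE n ≤ bC n := by unfold bC; omega
  by_cases h1 : ∃ D0, Clique px (py π) D0 ∧ 5 * n ≤ D0.card
  · obtain ⟨D0, hD0, hD0c⟩ := h1
    obtain ⟨K, hK, hKc, hh, hE⟩ := typeD hn px_inj (py_inj π) hX hM hD0 hD0c
    left
    obtain ⟨δ, h2, h3⟩ := clique_rule hK hh (E := bE n) (hE.trans (by unfold bE; omega))
    exact ⟨δ, h2, fun i h4 h5 => h3 i (by omega) (by omega)⟩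
  · have hΩ : ∀ D, Clique px (py π) D → D.card ≤ 5 * n := by
      intro D hD
      by_contra hcon
      exact h1 ⟨D, hD, by omega⟩
    right
    by_cases h2 : ∃ (c0 : Fin N) (U0 : Finset (Fin N)), Chain px (py π) U0 ∧
        (∀ u ∈ U0, nw px (py π) u c0) ∧ 5 * n ≤ U0.card
    · obtain ⟨c0, U0, hU0, hUc0, hU0c⟩ := h2
      obtain ⟨K, hK, hKc, hh, hE⟩ := typeA hn px_inj (py_inj π) hX hM hΩ hU0 hUc0 hU0c
      left
      obtain ⟨δ, h2, h3⟩ := chain_rule hK hh (E := bE n) (hE.trans (by unfold bE; omega))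
      exact ⟨δ, h2, fun i h4 h5 => h3 i (by omega) (by omega)⟩
    · by_cases h3 : ∃ (c0 : Fin N) (U0 : Finset (Fin N)), Chain px (py π) U0 ∧
        (∀ u ∈ U0, nw px (py π) c0 u) ∧ 5 * n ≤ U0.card
      · obtain ⟨c0, U0, hU0, hUc0, hU0c⟩ := h3
        obtain ⟨K, hK, hKc, hh, hE⟩ := typeA (x := py π) (y := px) hn (py_inj π) px_inj (Conn_swap.2 hX)
          (fun h => hM (Many_swap h)) (fun D hD => hΩ D (Clique_swap.1 hD)) (Chain_swap.2 hU0)
          (fun u hu => nw_swap.2 (hUc0 u hu)) hU0c
        left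
        obtain ⟨δ, h2, h3⟩ := chain_rule (Chain_swap.1 hK) (fun z hz => Homog_swap (hh z hz))
          (E := bE n) (hE.trans (by unfold bE; omega))
        exact ⟨δ, h2, fun i h4 h5 => h3 i (by omega) (by omega)⟩
      · right
        have hR1 : ∀ i, (nwS π i).card ≤ bR n := by
          intro i
          apply erdos_szekeres px_inj (py_inj π)
          · intro C hC hCc
            by_contra hcon
            exact h2 ⟨i, C, hCc, fun u hu => mem_nwS.1 (hC hu), by omega⟩
          · intro D _ hD
            exact hΩ D hD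
        have hR2 : ∀ i, (seS π i).card ≤ bR n := by
          intro i
          apply erdos_szekeres px_inj (py_inj π)
          · intro C hC hCc
            by_contra hcon
            exact h3 ⟨i, C, hCc, fun u hu => mem_seS.1 (hC hu), by omega⟩
          · intro D _ hD
            exact hΩ D hD
        exact osc_rule hn hX hM hR1 hR2 (by unfold bC; omega)

/-- the number of the permutations with prescribed values in the middle -/
theorem count_agree {N c : ℕ} (S : Finset (Equiv.Perm (Fin N))) (f : Fin N → ℤ)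
    (hS : ∀ π ∈ S, ∀ i : Fin N, c ≤ (i : ℕ) → (i : ℕ) + c < N → ((π i : ℕ) : ℤ) = f i) :
    S.card ≤ (2 * c).factorial := by
  classical
  rcases S.eq_empty_or_nonempty with rfl | ⟨π0, hπ0⟩
  · simp
  · let p : Fin N → Prop := fun i => ¬ (c ≤ (i : ℕ) ∧ (i : ℕ) + c < N)
    have h1 : S.card ≤ (univ.filter (fun g : Equiv.Perm (Fin N) => ∀ a, ¬ p a → g a = a)).card := by
      apply Finset.card_le_card_of_injOn (fun π => π0⁻¹ * π)
      · intro π hπ
        rw [Finset.mem_coe, Finset.mem_filter]
        refine ⟨Finset.mem_univ _, ?_⟩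
        intro a ha
        have ha' : c ≤ (a : ℕ) ∧ (a : ℕ) + c < N := not_not.1 ha
        have h2 := hS π hπ a ha'.1 ha'.2
        have h3 := hS π0 hπ0 a ha'.1 ha'.2
        have h4 : π a = π0 a := Fin.ext (by exact_mod_cast h2.trans h3.symm)
        show π0⁻¹ (π a) = a
        rw [h4]; simp
      · intro π _ σ _ h
        exact mul_left_cancel h
    have h2 : (univ.filter (fun g : Equiv.Perm (Fin N) => ∀ a, ¬ p a → g a = a)).card =
        (Fintype.card {i // p i}).factorial := by
      rw [← Fintype.card_perm, Fintype.card_congr (Equiv.Perm.subtypeEquivSubtypePerm p),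
        Fintype.card_subtype]
    have h3 : Fintype.card {i // p i} ≤ 2 * c := by
      rw [Fintype.card_subtype]
      have h4 : univ.filter p ⊆ (univ.filter (fun i : Fin N => (i : ℕ) < c)) ∪
          (univ.filter (fun i : Fin N => N ≤ (i : ℕ) + c)) := by
        intro i hi
        have hi' : ¬ (c ≤ (i : ℕ) ∧ (i : ℕ) + c < N) := (Finset.mem_filter.1 hi).2
        rw [Finset.mem_union, Finset.mem_filter, Finset.mem_filter]
        by_cases h : (i : ℕ) < c
        · exact Or.inl ⟨Finset.mem_univ _, h⟩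
        · exact Or.inr ⟨Finset.mem_univ _, by omega⟩
      have h5 : (univ.filter (fun i : Fin N => (i : ℕ) < c)).card ≤ c := by
        have : (univ.filter (fun i : Fin N => (i : ℕ) < c)).card ≤ (Finset.range c).card := by
          apply Finset.card_le_card_of_injOn (fun i : Fin N => (i : ℕ))
          · intro i hi
            rw [Finset.mem_coe, Finset.mem_range]
            exact (Finset.mem_filter.1 (Finset.mem_coe.1 hi)).2
          · intro i _ j _ h
            exact Fin.ext h
        rwa [Finset.card_range] at this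
      have h6 : (univ.filter (fun i : Fin N => N ≤ (i : ℕ) + c)).card ≤ c := by
        have : (univ.filter (fun i : Fin N => N ≤ (i : ℕ) + c)).card ≤ (Finset.range c).card := by
          apply Finset.card_le_card_of_injOn (fun i : Fin N => N - 1 - (i : ℕ))
          · intro i hi
            have h7 := (Finset.mem_filter.1 (Finset.mem_coe.1 hi)).2
            have h8 := i.2
            rw [Finset.mem_coe, Finset.mem_range]
            show N - 1 - (i : ℕ) < c
            omega
          · intro i _ j _ h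
            have h8 := i.2
            have h9 := j.2
            have h10 : N - 1 - (i : ℕ) = N - 1 - (j : ℕ) := h
            exact Fin.ext (by omega)
        rwa [Finset.card_range] at this
      have h7 := Finset.card_le_card h4
      have h8 := Finset.card_union_le (univ.filter (fun i : Fin N => (i : ℕ) < c))
          (univ.filter (fun i : Fin N => N ≤ (i : ℕ) + c))
      have h9 : (univ.filter p).card ≤ 2 * c := by omega
      convert h9
    rw [h2] at h1
    exact h1.trans (Nat.factorial_le h3)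

/-- the number of the rules -/
abbrev Rule (M : ℕ) : Type := Fin (2 * M + 1) ⊕ Fin (2 * M + 1) ⊕ (Fin 4 → Bool)

/-- the values given by a rule -/
def ruleFun (M c N : ℕ) : Rule M → Fin N → ℤ
  | Sum.inl δ, i => N - 1 - (i : ℕ) + ((δ : ℕ) - M)
  | Sum.inr (Sum.inl δ), i => (i : ℕ) + ((δ : ℕ) - M)
  | Sum.inr (Sum.inr s), i => (i : ℕ) + (if s ⟨((i : ℕ) - c) % 4, Nat.mod_lt _ (by norm_num)⟩ then 2 else -2)

open Classical in
/-- the number of the connected permutations without many patterns is bounded -/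
theorem bounded_count {n : ℕ} (hn : 3 ≤ n) : ∃ B : ℕ, ∀ N : ℕ,
    (univ.filter (fun π : Equiv.Perm (Fin N) => Conn px (py π) univ ∧ ¬ Many px (py π) n)).card ≤ B := by
  refine ⟨Fintype.card (Rule (2 * bE n)) * (2 * bC n).factorial, fun N => ?_⟩
  have h1 : univ.filter (fun π : Equiv.Perm (Fin N) => Conn px (py π) univ ∧ ¬ Many px (py π) n) ⊆
      (univ : Finset (Rule (2 * bE n))).biUnion (fun r => univ.filter (fun π : Equiv.Perm (Fin N) =>
        ∀ i : Fin N, bC n ≤ (i : ℕ) → (i : ℕ) + bC n < N →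
          ((π i : ℕ) : ℤ) = ruleFun (2 * bE n) (bC n) N r i)) := by
    intro π hπ
    obtain ⟨_, hX, hM⟩ := Finset.mem_filter.1 hπ
    rw [Finset.mem_biUnion]
    rcases structure_thm hn π hX hM with ⟨δ, h2, h3⟩ | ⟨δ, h2, h3⟩ | ⟨s, h3⟩
    · rw [abs_le] at h2
      have h4 : (δ + 2 * bE n).toNat < 2 * (2 * bE n) + 1 := by omega
      refine ⟨Sum.inl ⟨_, h4⟩, Finset.mem_univ _, Finset.mem_filter.2 ⟨Finset.mem_univ _, ?_⟩⟩
      intro i h5 h6
      rw [h3 i h5 h6]
      unfold ruleFun
      have h7 : (((δ + 2 * bE n).toNat : ℕ) : ℤ) = δ + 2 * bE n := Int.toNat_of_nonneg (by omega)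
      simp only [h7]
      push_cast
      ring
    · rw [abs_le] at h2
      have h4 : (δ + 2 * bE n).toNat < 2 * (2 * bE n) + 1 := by omega
      refine ⟨Sum.inr (Sum.inl ⟨_, h4⟩), Finset.mem_univ _, Finset.mem_filter.2 ⟨Finset.mem_univ _, ?_⟩⟩
      intro i h5 h6
      rw [h3 i h5 h6]
      unfold ruleFun
      have h7 : (((δ + 2 * bE n).toNat : ℕ) : ℤ) = δ + 2 * bE n := Int.toNat_of_nonneg (by omega)
      simp only [h7]
      push_cast
      ring
    · refine ⟨Sum.inr (Sum.inr s), Finset.mem_univ _, Finset.mem_filter.2 ⟨Finset.mem_univ _, ?_⟩⟩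
      intro i h5 h6
      rw [h3 i h5 h6]
      rfl
  refine (Finset.card_le_card h1).trans ?_
  rw [← Finset.card_univ]
  apply Finset.card_biUnion_le_card_mul
  intro r _
  apply count_agree _ (fun i => ruleFun (2 * bE n) (bC n) N r i)
  intro π hπ i h2 h3
  exact (Finset.mem_filter.1 hπ).2 i h2 h3

end Pool.Agent.H41.IndSum
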