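import Pool.Agent.H41.IndSum.TypeD

open Finset

set_option linter.unusedSectionVars false

namespace Pool.Agent.H41.IndSum

variable {ι : Type*} [DecidableEq ι] {x y : ι → ℤ}

theorem nw_ns {i j : ι} : nw (-y) (-x) i j ↔ nw x y i j := by rw [nw_neg, nw_swap]

theorem ltt_ns {i j : ι} : ltt (-y) (-x) i j ↔ ltt x y j i := by rw [ltt_neg, ltt_swap]

theorem Conn_ns {S : Finset ι} : Conn (-y) (-x) S ↔ Conn x y S := by rw [Conn_neg, Conn_swap]

theorem Chain_ns {S : Finset ι} : Chain (-y) (-x) S ↔ Chain x y S := by rw [Chain_neg, Chain_swap]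

theorem Clique_ns {S : Finset ι} : Clique (-y) (-x) S ↔ Clique x y S := by rw [Clique_neg, Clique_swap]

theorem Many_ns {n : ℕ} (h : Many (-y) (-x) n) : Many x y n := Many_swap (Many_neg h)

theorem Homog_ns {K : Finset ι} {z : ι} (h : Homog x y K z) : Homog (-y) (-x) K z :=
  Homog_neg (Homog_swap' h)

theorem Homog_ns' {K : Finset ι} {z : ι} (h : Homog (-y) (-x) K z) : Homog x y K z := by
  unfold Homog at h ⊢
  simp only [ltt_ns, nw_ns] at h
  tauto

theorem mid_ns {t : ℕ} {U : Finset ι} : mid (ltt (-y) (-x)) t U = mid (ltt x y) t U := by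
  rw [← mid_flip (ltt x y)]
  congr 1
  funext a b
  exact propext ltt_ns

/-- a point to the upper right of the centre sees the middle of the leaves in one direction -/
theorem star_right_homog {n : ℕ} (hn : 3 ≤ n) (hx : Function.Injective x)
    (hy : Function.Injective y) (hM : ¬ Many x y n) {U : Finset ι} {c : ι} (hU : Chain x y U)
    (hUc : ∀ u ∈ U, nw x y u c) {z : ι} (hz : z ∉ U) (hcz : ltt x y c z) :
    Homog x y (mid (ltt x y) (2 * n) U) z := by
  classical
  have hL : Lin (ltt x y) U := lin_chain hU
  set A := U.filter (fun u => ltt x y u z) with hA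
  set B := U.filter (fun u => nw x y u z) with hB
  have hcov : ∀ u ∈ U, u ∈ A ∨ u ∈ B := by
    intro u hu
    have hne : u ≠ z := by rintro rfl; exact hz hu
    have h1 := (hUc u hu).1.trans hcz.1
    rcases tetra hx hy hne with h | h | h | h
    · exact Or.inl (Finset.mem_filter.2 ⟨hu, h⟩)
    · exact absurd h.1 (not_lt.2 h1.le)
    · exact Or.inr (Finset.mem_filter.2 ⟨hu, h⟩)
    · exact absurd h.1 (not_lt.2 h1.le)
  have hor : ¬ n - 1 ≤ A.card ∨ ¬ n - 1 ≤ B.card := by
    by_contra hcon
    push Not at hcon
    apply hM
    apply many_star_right (by omega) hx (A' := A) (B' := B) (c := c) (z := z) _ _ _ _ hcz hcon.1 hcon.2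
    · intro a ha; exact (Finset.mem_filter.1 ha).2
    · intro a ha; exact (Finset.mem_filter.1 ha).2
    · intro a ha; exact hUc a (Finset.mem_filter.1 ha).1
    · intro a ha; exact hUc a (Finset.mem_filter.1 ha).1
  rcases hor with h | h
  · right; right; right
    intro k hk
    rcases hcov k (mid_subset hk) with h1 | h1
    · exfalso
      refine not_mem_upper hL (P := A) (t := 2 * n) ?_ (by omega) h1 (mem_mid.1 hk).1
      intro p hp u hu hup
      exact Finset.mem_filter.2 ⟨hu, hup.trans (Finset.mem_filter.1 hp).2⟩
    · exact (Finset.mem_filter.1 h1).2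
  · right; left
    intro k hk
    rcases hcov k (mid_subset hk) with h1 | h1
    · exact (Finset.mem_filter.1 h1).2
    · exfalso
      refine not_mem_upper hL.flip (P := B) (t := 2 * n) ?_ (by omega) h1 (mem_mid.1 hk).2
      intro p hp u hu hup
      rcases hcov u hu with h2 | h2
      · exfalso
        exact (hup.trans (Finset.mem_filter.1 h2).2).not_adj (Finset.mem_filter.1 hp).2.adj
      · exact h2

/-- a point to the upper left of the centre of a maximum star sees the middle of the leaves in one
direction -/
theorem star_nw_homog {n : ℕ} (hn : 3 ≤ n) (hx : Function.Injective x)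
    (hy : Function.Injective y) (hM : ¬ Many x y n) {U : Finset ι} {c : ι} (hU : Chain x y U)
    (hUc : ∀ u ∈ U, nw x y u c)
    (hmax : ∀ U', Chain x y U' → (∀ u ∈ U', nw x y u c) → U'.card ≤ U.card)
    {z : ι} (hz : z ∉ U) (hzc : nw x y z c) :
    Homog x y (mid (ltt x y) (2 * n) U) z := by
  classical
  have hL : Lin (ltt x y) U := lin_chain hU
  set A := U.filter (fun u => ltt x y u z) with hA
  set B := U.filter (fun u => adj x y z u) with hB
  set C := U.filter (fun u => ltt x y z u) with hC
  have hne : ∀ u ∈ U, z ≠ u := by rintro u hu rfl; exact hz hu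
  have hcov : ∀ u ∈ U, u ∈ A ∨ u ∈ B ∨ u ∈ C := by
    intro u hu
    rcases adj_or_ltt hx hy (hne u hu) with h | h | h
    · exact Or.inr (Or.inl (Finset.mem_filter.2 ⟨hu, h⟩))
    · exact Or.inr (Or.inr (Finset.mem_filter.2 ⟨hu, h⟩))
    · exact Or.inl (Finset.mem_filter.2 ⟨hu, h⟩)
  have hBne : B.Nonempty := by
    rw [Finset.nonempty_iff_ne_empty]
    intro hBe
    have key : ∀ d ∈ U, ltt x y d z ∨ ltt x y z d := by
      intro d hd
      rcases hcov d hd with h | h | h
      · exact Or.inl (Finset.mem_filter.1 h).2
      · rw [hBe] at h; simp at h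
      · exact Or.inr (Finset.mem_filter.1 h).2
    have h1 : Chain x y (insert z U) := by
      intro i hi j hj hij
      rcases Finset.mem_insert.1 hi with hi' | hi'
      · rcases Finset.mem_insert.1 hj with hj' | hj'
        · exact absurd (hi'.trans hj'.symm) hij
        · rw [hi']; exact (key j hj').symm
      · rcases Finset.mem_insert.1 hj with hj' | hj'
        · rw [hj']; exact key i hi'
        · exact hU i hi' j hj' hij
    have h2 := hmax _ h1 (by
      intro u hu
      rcases Finset.mem_insert.1 hu with hu | hu
      · rw [hu]; exact hzc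
      · exact hUc u hu)
    rw [Finset.card_insert_of_notMem hz] at h2
    omega
  have hAdown : ∀ p ∈ A, ∀ u ∈ U, ltt x y u p → u ∈ A := fun p hp u hu hup =>
    Finset.mem_filter.2 ⟨hu, hup.trans (Finset.mem_filter.1 hp).2⟩
  have hCup : ∀ p ∈ C, ∀ u ∈ U, ltt x y p u → u ∈ C := fun p hp u hu hup =>
    Finset.mem_filter.2 ⟨hu, (Finset.mem_filter.1 hp).2.trans hup⟩
  have hAB : ∀ a ∈ A, ∀ b ∈ B, ltt x y a b := by
    intro a ha b hb
    have haU := (Finset.mem_filter.1 ha).1
    have hbU := (Finset.mem_filter.1 hb).1
    have hne' : a ≠ b := by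
      rintro rfl
      exact (Finset.mem_filter.1 ha).2.not_adj' (Finset.mem_filter.1 hb).2
    rcases hU a haU b hbU hne' with h | h
    · exact h
    · exact absurd (Finset.mem_filter.1 hb).2 (Finset.mem_filter.1 (hAdown a ha b hbU h)).2.not_adj'
  have hCB : ∀ a ∈ C, ∀ b ∈ B, ltt x y b a := by
    intro a ha b hb
    have haU := (Finset.mem_filter.1 ha).1
    have hbU := (Finset.mem_filter.1 hb).1
    have hne' : b ≠ a := by
      rintro rfl
      exact (Finset.mem_filter.1 ha).2.not_adj (Finset.mem_filter.1 hb).2
    rcases hU b hbU a haU hne' with h | h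
    · exact h
    · exact absurd (Finset.mem_filter.1 hb).2 (Finset.mem_filter.1 (hCup a ha b hbU h)).2.not_adj
  by_cases hBc : n - 2 ≤ B.card
  · -- few non-neighbours
    have hAC : ¬ n - 2 ≤ (A ∪ C).card := by
      intro hAC
      apply hM
      apply many_star_partial (by omega) hx (A' := B) (B' := A ∪ C) (c := c) (z := z) _ _ _ _ _ hzc hBc hAC
      · apply hU.subset
        intro i hi
        rcases Finset.mem_union.1 hi with hi | hi
        · exact (Finset.mem_filter.1 hi).1
        · rcases Finset.mem_union.1 hi with hi | hi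
          · exact (Finset.mem_filter.1 hi).1
          · exact (Finset.mem_filter.1 hi).1
      · intro a ha
        exact (Finset.mem_filter.1 ha).2
      · intro a ha
        rcases Finset.mem_union.1 ha with ha | ha
        · exact (Finset.mem_filter.1 ha).2.not_adj'
        · exact (Finset.mem_filter.1 ha).2.not_adj
      · intro ha
        rcases Finset.mem_union.1 ha with ha | ha
        · exact hz (Finset.mem_filter.1 ha).1
        · exact hz (Finset.mem_filter.1 ha).1
      · intro i hi
        apply hUc
        rcases Finset.mem_union.1 hi with hi | hi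
        · exact (Finset.mem_filter.1 hi).1
        · rcases Finset.mem_union.1 hi with hi | hi
          · exact (Finset.mem_filter.1 hi).1
          · exact (Finset.mem_filter.1 hi).1
    have hA1 : A.card ≤ 2 * n := by
      have := Finset.card_le_card (Finset.subset_union_left (s₁ := A) (s₂ := C)); omega
    have hC1 : C.card ≤ 2 * n := by
      have := Finset.card_le_card (Finset.subset_union_right (s₁ := A) (s₂ := C)); omega
    have hKB : ∀ k ∈ mid (ltt x y) (2 * n) U, k ∈ B := by
      intro k hk
      rcases hcov k (mid_subset hk) with h | h | h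
      · exact absurd (mem_mid.1 hk).1 (not_mem_upper hL hAdown hA1 h)
      · exact h
      · exact absurd (mem_mid.1 hk).2 (not_mem_upper hL.flip hCup hC1 h)
    by_cases hex : ∃ k ∈ mid (ltt x y) (2 * n) U, nw x y z k
    · right; right; left
      obtain ⟨k, hk, hzk⟩ := hex
      intro l hl
      rcases (Finset.mem_filter.1 (hKB l hl)).2 with h | h
      · exact h
      · exact absurd (h.trans hzk) (hU.not_nw (mid_subset hl) (mid_subset hk))
    · right; right; right
      intro l hl
      rcases (Finset.mem_filter.1 (hKB l hl)).2 with h | h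
      · exact absurd ⟨l, hl, h⟩ hex
      · exact h
  · -- few neighbours
    obtain ⟨w, hw⟩ := hBne
    have hwU := (Finset.mem_filter.1 hw).1
    have hor : ¬ n - 1 ≤ A.card ∨ ¬ n - 1 ≤ C.card := by
      by_contra hcon
      push Not at hcon
      have hAU : Chain x y A := hU.subset (Finset.filter_subset _ _)
      have hCU : Chain x y C := hU.subset (Finset.filter_subset _ _)
      have h1 : ∀ a ∈ A, ltt x y a z := fun a ha => (Finset.mem_filter.1 ha).2
      have h2 : ∀ a ∈ A, ltt x y a w := fun a ha => hAB a ha w hw
      have h3 : ∀ a ∈ C, ltt x y z a := fun a ha => (Finset.mem_filter.1 ha).2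
      have h4 : ∀ a ∈ C, ltt x y w a := fun a ha => hCB a ha w hw
      have h5 : ∀ a ∈ A, nw x y a c := fun a ha => hUc a (Finset.mem_filter.1 ha).1
      have h6 : ∀ a ∈ C, nw x y a c := fun a ha => hUc a (Finset.mem_filter.1 ha).1
      rcases (Finset.mem_filter.1 hw).2 with h | h
      · exact hM (many_split_star hn hx h hAU hCU h1 h2 h3 h4 h5 h6 hzc (hUc w hwU) hcon.1 hcon.2)
      · exact hM (many_split_star hn hx h hAU hCU h2 h1 h4 h3 h5 h6 (hUc w hwU) hzc hcon.1 hcon.2)
    rcases hor with hAc | hCc
    · left
      intro k hk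
      have hP : k ∉ A ∪ B := by
        intro hkP
        refine not_mem_upper hL (P := A ∪ B) (t := 2 * n) ?_ ?_ hkP (mem_mid.1 hk).1
        · intro p hp u hu hup
          rcases Finset.mem_union.1 hp with hp | hp
          · exact Finset.mem_union_left _ (hAdown p hp u hu hup)
          · rcases hcov u hu with h | h | h
            · exact Finset.mem_union_left _ h
            · exact Finset.mem_union_right _ h
            · exact absurd hup (hCB u h p hp).asymm
        · have := Finset.card_union_le A B
          omega
      rw [Finset.mem_union, not_or] at hP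
      rcases hcov k (mid_subset hk) with h | h | h
      · exact absurd h hP.1
      · exact absurd h hP.2
      · exact (Finset.mem_filter.1 h).2
    · right; left
      intro k hk
      have hP : k ∉ C ∪ B := by
        intro hkP
        refine not_mem_upper hL.flip (P := C ∪ B) (t := 2 * n) ?_ ?_ hkP (mem_mid.1 hk).2
        · intro p hp u hu hup
          rcases Finset.mem_union.1 hp with hp | hp
          · exact Finset.mem_union_left _ (hCup p hp u hu hup)
          · rcases hcov u hu with h | h | h
            · exact absurd hup (hAB u h p hp).asymm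
            · exact Finset.mem_union_right _ h
            · exact Finset.mem_union_left _ h
        · have := Finset.card_union_le C B
          omega
      rw [Finset.mem_union, not_or] at hP
      rcases hcov k (mid_subset hk) with h | h | h
      · exact (Finset.mem_filter.1 h).2
      · exact absurd h hP.2
      · exact absurd h hP.1

/-- all points see the middle of the leaves of a maximum star in one direction -/
theorem typeA_homog {n : ℕ} (hn : 3 ≤ n) (hx : Function.Injective x)
    (hy : Function.Injective y) (hM : ¬ Many x y n) {U : Finset ι} {c : ι} (hU : Chain x y U)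
    (hUc : ∀ u ∈ U, nw x y u c)
    (hmax : ∀ U', Chain x y U' → (∀ u ∈ U', nw x y u c) → U'.card ≤ U.card)
    {z : ι} (hz : z ∉ mid (ltt x y) (2 * n) U) :
    Homog x y (mid (ltt x y) (2 * n) U) z := by
  classical
  have hL : Lin (ltt x y) U := lin_chain hU
  by_cases hzU : z ∈ U
  · rcases outside_mid hL hzU hz with h | h
    · exact Or.inr (Or.inl h)
    · exact Or.inl h
  · by_cases hzc : z = c
    · right; right; right
      intro k hk
      rw [hzc]
      exact hUc k (mid_subset hk)
    · rcases tetra hx hy hzc with h | h | h | h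
      · -- lower left of the centre
        have h1 := star_right_homog hn (neg_inj' hy) (neg_inj' hx) (fun h => hM (Many_ns h))
          (Chain_ns.2 hU) (fun u hu => nw_ns.2 (hUc u hu)) hzU (ltt_ns.2 h)
        rw [mid_ns] at h1
        exact Homog_ns' h1
      · exact star_right_homog hn hx hy hM hU hUc hzU h
      · exact star_nw_homog hn hx hy hM hU hUc hmax hzU h
      · right; right; right
        intro k hk
        exact (hUc k (mid_subset hk)).trans h

/-- bounding the points to the lower left of the middle of the leaves of a maximum star -/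
theorem star_sw [Fintype ι] {n Ω : ℕ} (hn : 3 ≤ n) (hx : Function.Injective x)
    (hy : Function.Injective y) (hX : Conn x y univ) (hM : ¬ Many x y n)
    (hΩ : ∀ D, Clique x y D → D.card ≤ Ω) {U : Finset ι} {c : ι} (hU : Chain x y U)
    (hUc : ∀ u ∈ U, nw x y u c)
    (hmax : ∀ U', Chain x y U' → (∀ u ∈ U', nw x y u c) → U'.card ≤ U.card)
    (hKc : n ≤ (mid (ltt x y) (2 * n) U).card) {Y : Finset ι}
    (hY : ∀ z ∈ Y, ∀ k ∈ mid (ltt x y) (2 * n) U, ltt x y z k) :
    Y.card ≤ 2 * n * Ω + (2 * n * Ω + 2 * n) * n := by
  classical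
  have hL : Lin (ltt x y) U := lin_chain hU
  set K := mid (ltt x y) (2 * n) U with hKdef
  have hh : ∀ z, z ∉ K → Homog x y K z := fun z hz => typeA_homog hn hx hy hM hU hUc hmax hz
  have hKU : K ⊆ U := mid_subset
  have hK : Chain x y K := hU.subset hKU
  have hKne : K.Nonempty := by rw [← Finset.card_pos]; omega
  obtain ⟨k0, hk0⟩ := hKne
  have hKnc : ∀ k ∈ K, nw x y k c := fun k hk => hUc k (hKU hk)
  set NW := univ.filter (fun z => ∀ k ∈ K, nw x y z k) with hNW
  set SE := univ.filter (fun z => ∀ k ∈ K, nw x y k z) with hSE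
  set X1 := univ.filter (fun z => (∀ k ∈ K, ltt x y z k) ∧ nw x y z c) with hX1
  set X2 := univ.filter (fun z => (∀ k ∈ K, ltt x y z k) ∧ ltt x y z c) with hX2
  have hsplit : ∀ z, (∀ k ∈ K, ltt x y z k) → z ∈ X1 ∨ z ∈ X2 := by
    intro z hz
    have h1 := (hz k0 hk0).1.trans (hKnc k0 hk0).1
    have hne : z ≠ c := by rintro rfl; exact lt_irrefl _ h1
    rcases tetra hx hy hne with h | h | h | h
    · exact Or.inr (by simpa [hX2] using ⟨hz, h⟩)
    · exact absurd h.1 (not_lt.2 h1.le)
    · exact Or.inl (by simpa [hX1] using ⟨hz, h⟩)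
    · exact absurd h.1 (not_lt.2 h1.le)
  have hNWc : NW.card ≤ n := by
    by_contra hcon
    exact hM (many_chain_se (by omega) hy hK (J' := NW) (fun k hk j hj => (Finset.mem_filter.1 hj).2 k hk)
      (by omega) (by omega))
  have hSEc : SE.card ≤ n := by
    by_contra hcon
    exact hM (many_chain_nw (by omega) hx hK (J' := SE) (fun k hk j hj => (Finset.mem_filter.1 hj).2 k hk)
      (by omega) (by omega))
  have hX1c : X1.card ≤ 2 * n * Ω := by
    apply erdos_szekeres hx hy
    · intro C hC hCc
      have h0 : ∀ z ∈ C, ∀ u ∈ upper (ltt x y) (2 * n) U, ltt x y z u := by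
        intro z hz u hu
        have hz' := (Finset.mem_filter.1 (hC hz)).2.1
        by_cases huK : u ∈ K
        · exact hz' u huK
        · exact (hz' k0 hk0).trans (above_mid hL hu huK hk0)
      have h1 : Chain x y (C ∪ upper (ltt x y) (2 * n) U) := by
        intro i hi j hj hij
        rcases Finset.mem_union.1 hi with hi | hi
        · rcases Finset.mem_union.1 hj with hj | hj
          · exact hCc i hi j hj hij
          · exact Or.inl (h0 i hi j hj)
        · rcases Finset.mem_union.1 hj with hj | hj
          · exact Or.inr (h0 j hj i hi)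
          · exact hU i (upper_subset hi) j (upper_subset hj) hij
      have h2 := hmax _ h1 (by
        intro u hu
        rcases Finset.mem_union.1 hu with hu | hu
        · exact (Finset.mem_filter.1 (hC hu)).2.2
        · exact hUc u (upper_subset hu))
      have h3 : Disjoint C (upper (ltt x y) (2 * n) U) := by
        rw [Finset.disjoint_left]
        intro a ha ha'
        exact (h0 a ha a ha').ne rfl
      rw [Finset.card_union_of_disjoint h3] at h2
      have h4 := card_upper hL (2 * n)
      omega
    · intro D _ hD
      exact hΩ D hD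
  have hHc : (X1 ∪ (NW ∪ SE)).card ≤ 2 * n * Ω + 2 * n := by
    have h1 := Finset.card_union_le X1 (NW ∪ SE)
    have h2 := Finset.card_union_le NW SE
    omega
  have hX2c : X2.card ≤ (X1 ∪ (NW ∪ SE)).card * n := by
    apply attach_bound hX X2 (X1 ∪ (NW ∪ SE))
    · intro he
      have h1 : k0 ∈ X2 := he.symm ▸ Finset.mem_univ k0
      exact ((Finset.mem_filter.1 h1).2.1 k0 hk0).ne rfl
    · intro z hz b hbY hzb
      have hz' := (Finset.mem_filter.1 hz).2.1
      have hbK : b ∉ K := fun hb => (hz' b hb).not_adj hzb
      rcases hh b hbK with h | h | h | h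
      · rcases hsplit b h with h | h
        · exact Finset.mem_union_left _ h
        · exact absurd h hbY
      · exact absurd hzb ((hz' k0 hk0).trans (h k0 hk0)).not_adj
      · exact Finset.mem_union_right _ (Finset.mem_union_left _ (by simpa [hNW] using h))
      · exact Finset.mem_union_right _ (Finset.mem_union_right _ (by simpa [hSE] using h))
    · intro h _ hhY T hT hhT hTc
      by_contra hcon
      have hTX : ∀ t ∈ T, t ≠ h → (∀ k ∈ K, ltt x y t k) ∧ ltt x y t c := by
        intro t ht hne
        rcases Finset.mem_insert.1 (hT ht) with h1 | h1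
        · exact absurd h1 hne
        · exact (Finset.mem_filter.1 h1).2
      -- `h` must be adjacent to a point of `Y`
      obtain ⟨a, ha, b, hb, hba, hab⟩ := hTc {h} (by simpa using hhT) (by simp) (by
        intro he; rw [← he] at hcon; simp at hcon)
      rw [Finset.mem_singleton] at ha
      subst ha
      rw [Finset.mem_singleton] at hba
      obtain ⟨hbK, hbc⟩ := hTX b hb hba
      have hhK : a ∉ K := fun h => (hbK a h).not_adj' hab
      have hac : a ≠ c := by rintro rfl; exact hbc.not_adj' hab
      have hca : ¬ ltt x y c a := fun h => (hbc.trans h).not_adj' hab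
      have htc : ∀ t ∈ T, t ≠ a → ltt x y t c := fun t ht hne => (hTX t ht hne).2
      rcases hh a hhK with h | h | h | h
      · rcases hsplit a h with h' | h'
        · exact hM (many_attach_star1 hx hTc hhT hhK htc (Finset.mem_filter.1 h').2.2 hKnc
            (by omega) (by omega))
        · exact hhY h'
      · exact ((hbK k0 hk0).trans (h k0 hk0)).not_adj' hab
      · exact hM (many_attach_star1 hx hTc hhT hhK htc ((h k0 hk0).trans (hKnc k0 hk0)) hKnc
            (by omega) (by omega))
      · rcases tetra hx hy hac with h' | h' | h' | h'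
        · refine hM (many_attach_star3 (K' := K) (T0 := T) (c := c) (h := a) hx hTc hhT ?_ hKnc
            (fun k hk => h k hk) (by omega) (by omega))
          intro t ht
          by_cases hta : t = a
          · rw [hta]; exact h'
          · exact htc t ht hta
        · exact hca h'
        · exact hM (many_attach_star1 hx hTc hhT hhK htc h' hKnc (by omega) (by omega))
        · exact hM (many_attach_star2 hx hTc hhT htc h' hKnc (by omega) (by omega))
  have hYs : Y ⊆ X1 ∪ X2 := by
    intro z hz
    exact Finset.mem_union.2 (hsplit z (hY z hz))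
  have h1 := Finset.card_le_card hYs
  have h2 := Finset.card_union_le X1 X2
  have h3 : X2.card ≤ (2 * n * Ω + 2 * n) * n := hX2c.trans (Nat.mul_le_mul_right _ hHc)
  omega

/-- bounded cliques and a large star imply that all but a bounded number of the points form an
increasing interval -/
theorem typeA [Fintype ι] {n Ω : ℕ} (hn : 3 ≤ n) (hx : Function.Injective x)
    (hy : Function.Injective y)
    (hX : Conn x y univ) (hM : ¬ Many x y n) (hΩ : ∀ D, Clique x y D → D.card ≤ Ω)
    {U0 : Finset ι} {c0 : ι} (hU0 : Chain x y U0) (hUc0 : ∀ u ∈ U0, nw x y u c0)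
    (hc : 5 * n ≤ U0.card) :
    ∃ K : Finset ι, Chain x y K ∧ n ≤ K.card ∧ (∀ z, z ∉ K → Homog x y K z) ∧
      Kᶜ.card ≤ 2 * n + 2 * (2 * n * Ω + (2 * n * Ω + 2 * n) * n) := by
  classical
  obtain ⟨p, hpmem, hpmax⟩ := Finset.exists_max_image
    (univ.filter (fun p : ι × Finset ι => Chain x y p.2 ∧ ∀ u ∈ p.2, nw x y u p.1))
    (fun p => p.2.card) ⟨(c0, U0), by simpa using ⟨hU0, hUc0⟩⟩
  obtain ⟨c, U⟩ := p
  obtain ⟨hU, hUc⟩ : Chain x y U ∧ ∀ u ∈ U, nw x y u c := by simpa using hpmem
  have hmax : ∀ U', Chain x y U' → (∀ u ∈ U', nw x y u c) → U'.card ≤ U.card := by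
    intro U' h1 h2
    exact hpmax (c, U') (by simpa using ⟨h1, h2⟩)
  have hUcard : 5 * n ≤ U.card := hc.trans (hpmax (c0, U0) (by simpa using ⟨hU0, hUc0⟩))
  have hL : Lin (ltt x y) U := lin_chain hU
  set K := mid (ltt x y) (2 * n) U with hKdef
  have hKc : n ≤ K.card := by
    have := card_mid hL (2 * n)
    rw [← hKdef] at this
    omega
  have hKU : K ⊆ U := mid_subset
  have hK : Chain x y K := hU.subset hKU
  have hh : ∀ z, z ∉ K → Homog x y K z := fun z hz => typeA_homog hn hx hy hM hU hUc hmax hz
  set NW := univ.filter (fun z => ∀ k ∈ K, nw x y z k) with hNW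
  set SE := univ.filter (fun z => ∀ k ∈ K, nw x y k z) with hSE
  set SW := univ.filter (fun z => ∀ k ∈ K, ltt x y z k) with hSW
  set NE := univ.filter (fun z => ∀ k ∈ K, ltt x y k z) with hNE
  have hNWc : NW.card ≤ n := by
    by_contra hcon
    exact hM (many_chain_se (by omega) hy hK (J' := NW) (fun k hk j hj => (Finset.mem_filter.1 hj).2 k hk)
      (by omega) (by omega))
  have hSEc : SE.card ≤ n := by
    by_contra hcon
    exact hM (many_chain_nw (by omega) hx hK (J' := SE) (fun k hk j hj => (Finset.mem_filter.1 hj).2 k hk)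
      (by omega) (by omega))
  have hSWc : SW.card ≤ 2 * n * Ω + (2 * n * Ω + 2 * n) * n := by
    apply star_sw hn hx hy hX hM hΩ hU hUc hmax hKc
    intro z hz; exact (Finset.mem_filter.1 hz).2
  have hNEc : NE.card ≤ 2 * n * Ω + (2 * n * Ω + 2 * n) * n := by
    apply star_sw hn (neg_inj' hy) (neg_inj' hx) (Conn_ns.2 hX) (fun h => hM (Many_ns h))
      (fun D hD => hΩ D (Clique_ns.1 hD)) (Chain_ns.2 hU) (fun u hu => nw_ns.2 (hUc u hu))
      (fun U' h1 h2 => hmax U' (Chain_ns.1 h1) (fun u hu => nw_ns.1 (h2 u hu)))
      (by rw [mid_ns]; exact hKc)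
    intro z hz k hk
    rw [mid_ns] at hk
    exact ltt_ns.2 ((Finset.mem_filter.1 hz).2 k hk)
  refine ⟨K, hK, hKc, hh, ?_⟩
  have hcov : Kᶜ ⊆ (NW ∪ SE) ∪ (SW ∪ NE) := by
    intro z hz
    rw [Finset.mem_compl] at hz
    rcases hh z hz with h | h | h | h
    · exact Finset.mem_union_right _ (Finset.mem_union_left _ (by simpa [hSW] using h))
    · exact Finset.mem_union_right _ (Finset.mem_union_right _ (by simpa [hNE] using h))
    · exact Finset.mem_union_left _ (Finset.mem_union_left _ (by simpa [hNW] using h))
    · exact Finset.mem_union_left _ (Finset.mem_union_right _ (by simpa [hSE] using h))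
  have h1 := Finset.card_le_card hcov
  have h2 := Finset.card_union_le (NW ∪ SE) (SW ∪ NE)
  have h3 := Finset.card_union_le SW NE
  have h4 := Finset.card_union_le NW SE
  omega

end Pool.Agent.H41.IndSum
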