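import Pool.Agent.H41.IndSum.Mid

open Finset

set_option linter.unusedSectionVars false

namespace Pool.Agent.H41.IndSum

variable {ι : Type*} [DecidableEq ι] {x y : ι → ℤ}

/-- a point outside of a maximum clique sees the middle of the clique in one direction -/
theorem typeD_homog {n : ℕ} (hn : 3 ≤ n) (hx : Function.Injective x) (hy : Function.Injective y)
    (hM : ¬ Many x y n) {D : Finset ι} (hD : Clique x y D)
    (hmax : ∀ D', Clique x y D' → D'.card ≤ D.card) {z : ι} (hz : z ∉ D) :
    Homog x y (mid (nw x y) (2 * n) D) z := by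
  classical
  have hL : Lin (nw x y) D := lin_clique hD
  set L := D.filter (fun d => nw x y d z) with hLdef
  set R := D.filter (fun d => nw x y z d) with hRdef
  set B := D.filter (fun d => ¬ adj x y z d) with hBdef
  have hcov : ∀ d ∈ D, d ∈ L ∨ d ∈ B ∨ d ∈ R := by
    intro d hd
    by_cases h : adj x y z d
    · rcases h with h | h
      · exact Or.inr (Or.inr (Finset.mem_filter.2 ⟨hd, h⟩))
      · exact Or.inl (Finset.mem_filter.2 ⟨hd, h⟩)
    · exact Or.inr (Or.inl (Finset.mem_filter.2 ⟨hd, h⟩))
  have hzB : z ∉ B := fun h => hz (Finset.mem_filter.1 h).1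
  have hBne : B.Nonempty := by
    rw [Finset.nonempty_iff_ne_empty]
    intro hB
    have h1 : Clique x y (insert z D) := by
      intro i hi j hj hij
      have key : ∀ d ∈ D, adj x y z d := by
        intro d hd
        by_contra hcon
        have : d ∈ B := Finset.mem_filter.2 ⟨hd, hcon⟩
        rw [hB] at this; simp at this
      rcases Finset.mem_insert.1 hi with hi' | hi'
      · rcases Finset.mem_insert.1 hj with hj' | hj'
        · exact absurd (hi'.trans hj'.symm) hij
        · rw [hi']; exact key j hj'
      · rcases Finset.mem_insert.1 hj with hj' | hj'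
        · rw [hj']; exact (key i hi').symm
        · exact hD i hi' j hj' hij
    have h2 := hmax _ h1
    rw [Finset.card_insert_of_notMem hz] at h2
    omega
  -- order of the three parts
  have hLB : ∀ d ∈ D, ∀ p ∈ L, nw x y d p → d ∈ L := by
    intro d hd p hp hdp
    exact Finset.mem_filter.2 ⟨hd, hdp.trans (Finset.mem_filter.1 hp).2⟩
  have hRB : ∀ d ∈ D, ∀ p ∈ R, nw x y p d → d ∈ R := by
    intro d hd p hp hdp
    exact Finset.mem_filter.2 ⟨hd, (Finset.mem_filter.1 hp).2.trans hdp⟩
  have hLB' : ∀ p ∈ L, ∀ b ∈ B, nw x y p b := by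
    intro p hp b hb
    have hpD := (Finset.mem_filter.1 hp).1
    have hbD := (Finset.mem_filter.1 hb).1
    have hne : p ≠ b := by
      rintro rfl
      exact (Finset.mem_filter.1 hb).2 (Finset.mem_filter.1 hp).2.adj'
    rcases hD p hpD b hbD hne with h | h
    · exact h
    · exact absurd (Finset.mem_filter.1 (hLB b hbD p hp h)).2.adj' (Finset.mem_filter.1 hb).2
  have hRB' : ∀ p ∈ R, ∀ b ∈ B, nw x y b p := by
    intro p hp b hb
    have hpD := (Finset.mem_filter.1 hp).1
    have hbD := (Finset.mem_filter.1 hb).1
    have hne : b ≠ p := by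
      rintro rfl
      exact (Finset.mem_filter.1 hb).2 (Finset.mem_filter.1 hp).2.adj
    rcases hD b hbD p hpD hne with h | h
    · exact h
    · exact absurd (Finset.mem_filter.1 (hRB b hbD p hp h)).2.adj (Finset.mem_filter.1 hb).2
  have hLR : ∀ p ∈ L, ∀ q ∈ R, nw x y p q := fun p hp q hq =>
    (Finset.mem_filter.1 hp).2.trans (Finset.mem_filter.1 hq).2
  -- `K` avoids small initial and final parts
  have hKL : ∀ P : Finset ι, (∀ p ∈ P, ∀ u ∈ D, nw x y u p → u ∈ P) → P.card ≤ 2 * n →
      ∀ k ∈ mid (nw x y) (2 * n) D, k ∉ P := fun P h1 h2 k hk hkP =>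
    not_mem_upper hL h1 h2 hkP (mem_mid.1 hk).1
  have hKR : ∀ P : Finset ι, (∀ p ∈ P, ∀ u ∈ D, nw x y p u → u ∈ P) → P.card ≤ 2 * n →
      ∀ k ∈ mid (nw x y) (2 * n) D, k ∉ P := fun P h1 h2 k hk hkP =>
    not_mem_upper hL.flip h1 h2 hkP (mem_mid.1 hk).2
  by_cases hc : n - 1 ≤ (L ∪ R).card
  · -- few non-neighbours
    have hBc : ¬ n - 2 ≤ B.card := by
      intro hBc
      apply hM
      apply many_partial_clique (by omega) hx hy (A' := L ∪ R) (B' := B) (z := z) _ _ _ hzB hc hBc
      · apply hD.subset
        intro i hi
        rcases Finset.mem_union.1 hi with hi | hi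
        · rcases Finset.mem_union.1 hi with hi | hi
          · exact (Finset.mem_filter.1 hi).1
          · exact (Finset.mem_filter.1 hi).1
        · exact (Finset.mem_filter.1 hi).1
      · intro a ha
        rcases Finset.mem_union.1 ha with ha | ha
        · exact (Finset.mem_filter.1 ha).2.adj'
        · exact (Finset.mem_filter.1 ha).2.adj
      · intro b hb
        exact (Finset.mem_filter.1 hb).2
    obtain ⟨b, hb⟩ := hBne
    have hbD := (Finset.mem_filter.1 hb).1
    have hbz : z ≠ b := by rintro rfl; exact hz hbD
    have hor : ¬ n - 2 ≤ L.card ∨ ¬ n - 2 ≤ R.card := by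
      by_contra hcon
      push Not at hcon
      have hLD : Clique x y L := hD.subset (Finset.filter_subset _ _)
      have hRD : Clique x y R := hD.subset (Finset.filter_subset _ _)
      have h1 : ∀ a ∈ L, nw x y a z := fun a ha => (Finset.mem_filter.1 ha).2
      have h2 : ∀ a ∈ L, nw x y a b := fun a ha => hLB' a ha b hb
      have h3 : ∀ a ∈ R, nw x y z a := fun a ha => (Finset.mem_filter.1 ha).2
      have h4 : ∀ a ∈ R, nw x y b a := fun a ha => hRB' a ha b hb
      rcases adj_or_ltt hx hy hbz with h | h | h
      · exact (Finset.mem_filter.1 hb).2 h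
      · exact hM (many_split_clique hn hx h hLD hRD h1 h2 h3 h4 (by omega) (by omega))
      · exact hM (many_split_clique hn hx h hLD hRD h2 h1 h4 h3 (by omega) (by omega))
    rcases hor with hLc | hRc
    · -- `K ⊆ R`
      right; right; left
      intro k hk
      have hkD := mid_subset hk
      have hP := hKL (L ∪ B) (by
        intro p hp u hu hup
        rcases Finset.mem_union.1 hp with hp | hp
        · exact Finset.mem_union_left _ (hLB u hu p hp hup)
        · rcases hcov u hu with h | h | h
          · exact Finset.mem_union_left _ h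
          · exact Finset.mem_union_right _ h
          · exact absurd hup (hRB' u h p hp).asymm) (by
        have := Finset.card_union_le L B
        omega) k hk
      rw [Finset.mem_union, not_or] at hP
      rcases hcov k hkD with h | h | h
      · exact absurd h hP.1
      · exact absurd h hP.2
      · exact (Finset.mem_filter.1 h).2
    · right; right; right
      intro k hk
      have hkD := mid_subset hk
      have hP := hKR (R ∪ B) (by
        intro p hp u hu hup
        rcases Finset.mem_union.1 hp with hp | hp
        · exact Finset.mem_union_left _ (hRB u hu p hp hup)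
        · rcases hcov u hu with h | h | h
          · exact absurd hup (hLB' u h p hp).asymm
          · exact Finset.mem_union_right _ h
          · exact Finset.mem_union_left _ h) (by
        have := Finset.card_union_le R B
        omega) k hk
      rw [Finset.mem_union, not_or] at hP
      rcases hcov k hkD with h | h | h
      · exact (Finset.mem_filter.1 h).2
      · exact absurd h hP.2
      · exact absurd h hP.1
  · -- few neighbours
    have hL1 : L.card ≤ 2 * n := by
      have := Finset.card_le_card (Finset.subset_union_left (s₁ := L) (s₂ := R)); omega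
    have hR1 : R.card ≤ 2 * n := by
      have := Finset.card_le_card (Finset.subset_union_right (s₁ := L) (s₂ := R)); omega
    have hKB : ∀ k ∈ mid (nw x y) (2 * n) D, k ∈ B := by
      intro k hk
      have h1 := hKL L (fun p hp u hu hup => hLB u hu p hp hup) hL1 k hk
      have h2 := hKR R (fun p hp u hu hup => hRB u hu p hp hup) hR1 k hk
      rcases hcov k (mid_subset hk) with h | h | h
      · exact absurd h h1
      · exact h
      · exact absurd h h2
    by_cases hex : ∃ k ∈ mid (nw x y) (2 * n) D, ltt x y z k
    · left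
      obtain ⟨k, hk, hzk⟩ := hex
      intro l hl
      have hlB := hKB l hl
      have hlD := (Finset.mem_filter.1 hlB).1
      have hne : z ≠ l := by rintro rfl; exact hz hlD
      rcases adj_or_ltt hx hy hne with h | h | h
      · exact absurd h (Finset.mem_filter.1 hlB).2
      · exact h
      · exfalso
        have h5 := h.trans hzk
        exact h5.not_adj (hD l hlD k (mid_subset hk) h5.ne)
    · right; left
      intro l hl
      have hlB := hKB l hl
      have hlD := (Finset.mem_filter.1 hlB).1
      have hne : z ≠ l := by rintro rfl; exact hz hlD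
      rcases adj_or_ltt hx hy hne with h | h | h
      · exact absurd h (Finset.mem_filter.1 hlB).2
      · exact absurd ⟨l, hl, h⟩ hex
      · exact h

/-- few points to the upper left of the middle of a maximum clique -/
theorem typeD_nw {n : ℕ} (hn : 3 ≤ n) (hx : Function.Injective x) (hy : Function.Injective y)
    (hM : ¬ Many x y n) {D : Finset ι} (hD : Clique x y D)
    (hmax : ∀ D', Clique x y D' → D'.card ≤ D.card) (hK : n ≤ (mid (nw x y) (2 * n) D).card)
    {Y : Finset ι} (hYD : ∀ z ∈ Y, z ∉ D) (hY : ∀ z ∈ Y, ∀ k ∈ mid (nw x y) (2 * n) D, nw x y z k) :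
    Y.card ≤ n * (2 * n) := by
  classical
  have hL : Lin (nw x y) D := lin_clique hD
  have hKne : (mid (nw x y) (2 * n) D).Nonempty := by rw [← Finset.card_pos]; omega
  obtain ⟨k0, hk0⟩ := hKne
  have hYU : ∀ z ∈ Y, ∀ u ∈ upper (nw x y) (2 * n) D, nw x y z u := by
    intro z hz u hu
    by_cases huK : u ∈ mid (nw x y) (2 * n) D
    · exact hY z hz u huK
    · exact (hY z hz k0 hk0).trans (above_mid hL hu huK hk0)
  apply erdos_szekeres hx hy
  · intro C hC hCc
    by_contra hcon
    exact hM (many_chain_nw (by omega) hx hCc (fun k hk j hj => hY k (hC hk) j hj) (by omega)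
      (by omega : n - 1 ≤ (mid (nw x y) (2 * n) D).card))
  · intro J hJ hJc
    have h1 : Clique x y (J ∪ upper (nw x y) (2 * n) D) := by
      intro i hi j hj hij
      rcases Finset.mem_union.1 hi with hi | hi
      · rcases Finset.mem_union.1 hj with hj | hj
        · exact hJc i hi j hj hij
        · exact (hYU i (hJ hi) j hj).adj
      · rcases Finset.mem_union.1 hj with hj | hj
        · exact (hYU j (hJ hj) i hi).adj'
        · exact hD i (upper_subset hi) j (upper_subset hj) hij
    have h2 := hmax _ h1
    have h3 : Disjoint J (upper (nw x y) (2 * n) D) := by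
      rw [Finset.disjoint_left]
      intro a ha ha'
      exact hYD a (hJ ha) (upper_subset ha')
    rw [Finset.card_union_of_disjoint h3] at h2
    have h4 := card_upper hL (2 * n)
    omega

/-- bounding the points to the lower left of a decreasing interval -/
theorem clique_sw [Fintype ι] {n : ℕ} (hn : 3 ≤ n) (hx : Function.Injective x)
    (hy : Function.Injective y)
    (hX : Conn x y univ) (hM : ¬ Many x y n) {K Y H : Finset ι} (hK : Clique x y K) (hKc : n ≤ K.card)
    (hh : ∀ z, z ∉ K → Homog x y K z)
    (hY : ∀ z, z ∈ Y ↔ ∀ k ∈ K, ltt x y z k)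
    (hH1 : ∀ z, (∀ k ∈ K, nw x y z k) → z ∈ H) (hH2 : ∀ z, (∀ k ∈ K, nw x y k z) → z ∈ H) :
    Y.card ≤ H.card * n := by
  classical
  have hKne : K.Nonempty := by rw [← Finset.card_pos]; omega
  obtain ⟨k0, hk0⟩ := hKne
  apply attach_bound hX Y H
  · intro he
    have : k0 ∈ Y := he.symm ▸ Finset.mem_univ k0
    exact ((hY k0).1 this k0 hk0).ne rfl
  · intro z hz b hbY hzb
    have hz' := (hY z).1 hz
    have hbK : b ∉ K := fun hb => (hz' b hb).not_adj hzb
    rcases hh b hbK with h | h | h | h
    · exact absurd ((hY b).2 h) hbY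
    · exact absurd hzb ((hz' k0 hk0).trans (h k0 hk0)).not_adj
    · exact hH1 b h
    · exact hH2 b h
  · intro h _ hhY T hT hhT hTc
    by_contra hcon
    have hTK : ∀ t ∈ T, t ≠ h → ∀ k ∈ K, ltt x y t k := by
      intro t ht hne
      rcases Finset.mem_insert.1 (hT ht) with h1 | h1
      · exact absurd h1 hne
      · exact (hY t).1 h1
    -- `h` must be adjacent to a point of `Y`
    obtain ⟨a, ha, b, hb, hba, hab⟩ := hTc {h} (by simpa using hhT) (by simp) (by
      intro he; rw [← he] at hcon; simp at hcon)
    rw [Finset.mem_singleton] at ha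
    subst ha
    rw [Finset.mem_singleton] at hba
    have hbK := hTK b hb hba
    have hhK : a ∉ K := fun h => (hbK a h).not_adj' hab
    rcases hh a hhK with h | h | h | h
    · exact hhY ((hY a).2 h)
    · exact ((hbK k0 hk0).trans (h k0 hk0)).not_adj' hab
    · exact hM (many_attach_clique hx hK hTc hhT hTK h (by omega) (by omega))
    · exact hM (Many_swap (many_attach_clique hy (Clique_swap.2 hK) (Conn_swap.2 hTc) hhT
        (fun t ht hne k hk => ltt_swap.2 (hTK t ht hne k hk)) (fun k hk => nw_swap.2 (h k hk))
        (by omega) (by omega)))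

theorem Homog_neg {K : Finset ι} {z : ι} (h : Homog x y K z) : Homog (-x) (-y) K z := by
  unfold Homog at h ⊢
  simp only [ltt_neg, nw_neg]
  tauto

theorem Homog_swap' {K : Finset ι} {z : ι} (h : Homog x y K z) : Homog y x K z := by
  unfold Homog at h ⊢
  simp only [ltt_swap, nw_swap]
  tauto

theorem neg_inj' (hx : Function.Injective x) : Function.Injective (-x) := by
  intro i j h
  apply hx
  simpa using h

/-- a large clique implies that all but a bounded number of the points form a decreasing interval -/
theorem typeD [Fintype ι] {n : ℕ} (hn : 3 ≤ n) (hx : Function.Injective x)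
    (hy : Function.Injective y)
    (hX : Conn x y univ) (hM : ¬ Many x y n) {D0 : Finset ι} (hD0 : Clique x y D0)
    (hc : 5 * n ≤ D0.card) :
    ∃ K : Finset ι, Clique x y K ∧ n ≤ K.card ∧ (∀ z, z ∉ K → Homog x y K z) ∧
      Kᶜ.card ≤ (4 * n + 2 * (n * (2 * n))) * (2 * n + 1) := by
  classical
  obtain ⟨D, hDmem, hDmax⟩ := Finset.exists_max_image (univ.filter (fun D : Finset ι => Clique x y D))
    Finset.card ⟨D0, by simpa using hD0⟩
  have hD : Clique x y D := (Finset.mem_filter.1 hDmem).2
  have hmax : ∀ D', Clique x y D' → D'.card ≤ D.card := fun D' hD' => hDmax D' (by simpa using hD')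
  have hDc : 5 * n ≤ D.card := hc.trans (hmax D0 hD0)
  have hL : Lin (nw x y) D := lin_clique hD
  set K := mid (nw x y) (2 * n) D with hKdef
  have hKc : n ≤ K.card := by
    have := card_mid hL (2 * n)
    rw [← hKdef] at this
    omega
  have hKD : K ⊆ D := mid_subset
  have hK : Clique x y K := hD.subset hKD
  have hKne : K.Nonempty := by rw [← Finset.card_pos]; omega
  obtain ⟨k0, hk0⟩ := hKne
  have hh : ∀ z, z ∉ K → Homog x y K z := by
    intro z hz
    by_cases hzD : z ∈ D
    · rcases outside_mid hL hzD hz with h | h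
      · exact Or.inr (Or.inr (Or.inr h))
      · exact Or.inr (Or.inr (Or.inl h))
    · exact typeD_homog hn hx hy hM hD hmax hzD
  -- the four regions
  set NW := univ.filter (fun z => ∀ k ∈ K, nw x y z k) with hNW
  set SE := univ.filter (fun z => ∀ k ∈ K, nw x y k z) with hSE
  set SW := univ.filter (fun z => ∀ k ∈ K, ltt x y z k) with hSW
  set NE := univ.filter (fun z => ∀ k ∈ K, ltt x y k z) with hNE
  have hH : (NW ∪ SE).card ≤ 4 * n + 2 * (n * (2 * n)) := by
    have h1 : (NW \ D).card ≤ n * (2 * n) := by
      apply typeD_nw hn hx hy hM hD hmax hKc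
      · intro z hz; exact (Finset.mem_sdiff.1 hz).2
      · intro z hz; exact (Finset.mem_filter.1 (Finset.mem_sdiff.1 hz).1).2
    have h2 : (SE \ D).card ≤ n * (2 * n) := by
      have hmid : mid (nw y x) (2 * n) D = K := by
        rw [hKdef, ← mid_flip]
        congr 1
        funext a b
        exact propext nw_swap
      apply typeD_nw hn hy hx (fun h => hM (Many_swap h)) (Clique_swap.2 hD)
        (fun D' hD' => hmax D' (Clique_swap.1 hD')) (by rw [hmid]; exact hKc)
      · intro z hz; exact (Finset.mem_sdiff.1 hz).2
      · intro z hz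
        rw [hmid]
        intro k hk
        exact nw_swap.2 ((Finset.mem_filter.1 (Finset.mem_sdiff.1 hz).1).2 k hk)
    have h3 : NW ∪ SE ⊆ (D \ K) ∪ ((NW \ D) ∪ (SE \ D)) := by
      intro z hz
      have hzK : z ∉ K := by
        intro hzK
        rcases Finset.mem_union.1 hz with h | h
        · exact ((Finset.mem_filter.1 h).2 z hzK).ne rfl
        · exact ((Finset.mem_filter.1 h).2 z hzK).ne rfl
      by_cases hzD : z ∈ D
      · exact Finset.mem_union_left _ (Finset.mem_sdiff.2 ⟨hzD, hzK⟩)
      · apply Finset.mem_union_right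
        rcases Finset.mem_union.1 hz with h | h
        · exact Finset.mem_union_left _ (Finset.mem_sdiff.2 ⟨h, hzD⟩)
        · exact Finset.mem_union_right _ (Finset.mem_sdiff.2 ⟨h, hzD⟩)
    have h4 := Finset.card_le_card h3
    have h5 := Finset.card_union_le (D \ K) ((NW \ D) ∪ (SE \ D))
    have h6 := Finset.card_union_le (NW \ D) (SE \ D)
    have h7 := Finset.card_sdiff_add_card_eq_card hKD
    have h8 := card_mid hL (2 * n)
    rw [← hKdef] at h8
    omega
  have hSWc : SW.card ≤ (NW ∪ SE).card * n := by
    apply clique_sw hn hx hy hX hM hK hKc hh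
    · intro z; simp [hSW]
    · intro z hz; exact Finset.mem_union_left _ (by simpa [hNW] using hz)
    · intro z hz; exact Finset.mem_union_right _ (by simpa [hSE] using hz)
  have hNEc : NE.card ≤ (NW ∪ SE).card * n := by
    apply clique_sw hn (neg_inj' hx) (neg_inj' hy) (Conn_neg.2 hX) (fun h => hM (Many_neg h))
      (Clique_neg.2 hK) hKc (fun z hz => Homog_neg (hh z hz))
    · intro z; simp [hNE, ltt_neg]
    · intro z hz
      simp only [nw_neg] at hz
      exact Finset.mem_union_right _ (by simpa [hSE] using hz)
    · intro z hz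
      simp only [nw_neg] at hz
      exact Finset.mem_union_left _ (by simpa [hNW] using hz)
  refine ⟨K, hK, hKc, hh, ?_⟩
  have hcov : Kᶜ ⊆ (NW ∪ SE) ∪ (SW ∪ NE) := by
    intro z hz
    rw [Finset.mem_compl] at hz
    rcases hh z hz with h | h | h | h
    · exact Finset.mem_union_right _ (Finset.mem_union_left _ (by simpa [hSW] using h))
    · exact Finset.mem_union_right _ (Finset.mem_union_right _ (by simpa [hNE] using h))
    · exact Finset.mem_union_left _ (Finset.mem_union_left _ (by simpa [hNW] using h))
    · exact Finset.mem_union_left _ (Finset.mem_union_right _ (by simpa [hSE] using h))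
  have h1 := Finset.card_le_card hcov
  have h2 := Finset.card_union_le (NW ∪ SE) (SW ∪ NE)
  have h3 := Finset.card_union_le SW NE
  calc Kᶜ.card ≤ (NW ∪ SE).card * (2 * n + 1) := by
        have : (NW ∪ SE).card * (2 * n + 1) = 2 * ((NW ∪ SE).card * n) + (NW ∪ SE).card := by ring
        rw [this]; omega
    _ ≤ _ := Nat.mul_le_mul_right _ hH

end Pool.Agent.H41.IndSum
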